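import Pool.Agent.W_cd7020_h81d.DSmp
import Pool.Agent.W_cd7020_h81c.AClos

/-!
# Closing
-/

set_option autoImplicit false

namespace Pool.Agent.W_cd7020_h81d

open Finset Pool.Agent.W_cd7020_h81 Pool.Agent.W_cd7020_h81b Pool.Agent.W_cd7020_h81c
  Pool.Agent.W_cd7020_h81k

variable {V κ : Type*} [DecidableEq V] [DecidableEq κ] [Fintype V]

theorem DClo_cnt (col : Sym2 V → κ) (B B' : Finset κ) (x : V) (Y : Finset V) :
    (Y.filter (fun y => y ≠ x ∧ col s(x, y) ∈ B)).card ≤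
      (Y.filter (fun y => y ≠ x ∧ col s(x, y) ∈ B')).card +
        (Y.filter (fun y => y ≠ x ∧ col s(x, y) ∈ B \ B')).card := by
  refine le_trans (Finset.card_le_card fun y hy => ?_) (Finset.card_union_le _ _)
  rw [Finset.mem_filter] at hy
  rw [Finset.mem_union, Finset.mem_filter, Finset.mem_filter, Finset.mem_sdiff]
  by_cases h : col s(x, y) ∈ B'
  · exact Or.inl ⟨hy.1, hy.2.1, h⟩
  · exact Or.inr ⟨hy.1, hy.2.1, hy.2.2, h⟩

theorem DClo_diff (col : Sym2 V → κ) (B B' K K' : Finset κ) (β : ℝ)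
    (h0 : 0 ≤ β) (hB : B' ⊆ B) (hK : K' ⊆ K) (hBK : Disjoint B K) (x : V) (Y : Finset V) :
    wd col (pw B K β) x Y ≤ wd col (pw B' K' β) x Y +
      (((Y.filter (fun y => y ≠ x ∧ col s(x, y) ∈ B \ B')).card : ℝ) +
        β * ((Y.filter (fun y => y ≠ x ∧ col s(x, y) ∈ K \ K')).card : ℝ)) := by
  have hBK' : Disjoint B' K' := Finset.disjoint_of_subset_left hB
    (Finset.disjoint_of_subset_right hK hBK)
  rw [wd_pw col B K β hBK, wd_pw col B' K' β hBK']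
  have h1 : ((Y.filter (fun y => y ≠ x ∧ col s(x, y) ∈ B)).card : ℝ) ≤
      (Y.filter (fun y => y ≠ x ∧ col s(x, y) ∈ B')).card +
        (Y.filter (fun y => y ≠ x ∧ col s(x, y) ∈ B \ B')).card := by
    exact_mod_cast DClo_cnt col B B' x Y
  have h2 : ((Y.filter (fun y => y ≠ x ∧ col s(x, y) ∈ K)).card : ℝ) ≤
      (Y.filter (fun y => y ≠ x ∧ col s(x, y) ∈ K')).card +
        (Y.filter (fun y => y ≠ x ∧ col s(x, y) ∈ K \ K')).card := by
    exact_mod_cast DClo_cnt col K K' x Y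
  have h3 := mul_le_mul_of_nonneg_left h2 h0
  rw [mul_add] at h3
  linarith

/-- Removing `j₁` colours of `B` and `j₂` colours of `K` (each colour joins `x` to at most one vertex);
compare `wd_colours` (`W_cd7020_h81c/AWd.lean`). -/
theorem wd_colours2 (col : Sym2 V → κ) (hcol : Proper col) (B B' K K' : Finset κ) (β : ℝ)
    (h0 : 0 ≤ β) (hB : B' ⊆ B) (hK : K' ⊆ K) (j₁ j₂ : ℕ)
    (hj₁ : (B \ B').card ≤ j₁) (hj₂ : (K \ K').card ≤ j₂) (hBK : Disjoint B K) (x : V)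
    (Y : Finset V) :
    wd col (pw B K β) x Y ≤ wd col (pw B' K' β) x Y + (j₁ + β * j₂) := by
  have h1 := DClo_diff col B B' K K' β h0 hB hK hBK x Y
  have h2 : ((Y.filter (fun y => y ≠ x ∧ col s(x, y) ∈ B \ B')).card : ℝ) ≤ j₁ := by
    exact_mod_cast (AWd_cnt col hcol _ x Y).trans hj₁
  have h3 : ((Y.filter (fun y => y ≠ x ∧ col s(x, y) ∈ K \ K')).card : ℝ) ≤ j₂ := by
    exact_mod_cast (AWd_cnt col hcol _ x Y).trans hj₂
  have h4 := mul_le_mul_of_nonneg_left h3 h0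
  linarith

theorem DClo_sqrt (col : Sym2 V → κ) (hcol : Proper col) (G : Finset κ) (j : ℕ)
    (hj : G.card ≤ j) (X Y : Finset V) :
    ∑ x ∈ X, ((Y.filter (fun y => y ≠ x ∧ col s(x, y) ∈ G)).card : ℝ) ≤
      j * Real.sqrt ((X.card : ℝ) * (Y.card : ℝ)) := by
  have h4 : ∑ x ∈ X, (Y.filter (fun y => y ≠ x ∧ col s(x, y) ∈ G)).card ≤ j * X.card := by
    calc ∑ x ∈ X, (Y.filter (fun y => y ≠ x ∧ col s(x, y) ∈ G)).card ≤ ∑ _x ∈ X, j :=
          Finset.sum_le_sum fun x _ => (AWd_cnt col hcol G x Y).trans hj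
      _ = j * X.card := by rw [Finset.sum_const, smul_eq_mul, mul_comm]
  have h5 : ∑ x ∈ X, (Y.filter (fun y => y ≠ x ∧ col s(x, y) ∈ G)).card =
      ∑ y ∈ Y, (X.filter (fun x => x ≠ y ∧ col s(y, x) ∈ G)).card := by
    have e1 : ∀ x ∈ X, (Y.filter (fun y => y ≠ x ∧ col s(x, y) ∈ G)).card =
        ∑ y ∈ Y, if y ≠ x ∧ col s(x, y) ∈ G then 1 else 0 := fun x _ => Finset.card_filter _ _
    have e2 : ∀ y ∈ Y, (X.filter (fun x => x ≠ y ∧ col s(y, x) ∈ G)).card =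
        ∑ x ∈ X, if y ≠ x ∧ col s(x, y) ∈ G then 1 else 0 := by
      intro y _
      rw [Finset.card_filter]
      refine Finset.sum_congr rfl fun x _ => ?_
      refine if_congr ?_ rfl rfl
      rw [Sym2.eq_swap]
      exact and_congr_left' ne_comm
    rw [Finset.sum_congr rfl e1, Finset.sum_comm, Finset.sum_congr rfl e2]
  have h6 : ∑ x ∈ X, (Y.filter (fun y => y ≠ x ∧ col s(x, y) ∈ G)).card ≤ j * Y.card := by
    rw [h5]
    calc ∑ y ∈ Y, (X.filter (fun x => x ≠ y ∧ col s(y, x) ∈ G)).card ≤ ∑ _y ∈ Y, j :=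
          Finset.sum_le_sum fun y _ => (AWd_cnt col hcol G y X).trans hj
      _ = j * Y.card := by rw [Finset.sum_const, smul_eq_mul, mul_comm]
  obtain ⟨T, hT⟩ : ∃ T : ℕ, T = ∑ x ∈ X, (Y.filter (fun y => y ≠ x ∧ col s(x, y) ∈ G)).card :=
    ⟨_, rfl⟩
  rw [← hT] at h4 h6
  have h7 : ∑ x ∈ X, ((Y.filter (fun y => y ≠ x ∧ col s(x, y) ∈ G)).card : ℝ) = T := by
    rw [hT]
    push_cast
    rfl
  rw [h7]
  have e1 : (T : ℝ) ≤ j * X.card := by exact_mod_cast h4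
  have e2 : (T : ℝ) ≤ j * Y.card := by exact_mod_cast h6
  have e3 : (T : ℝ) ≤ Real.sqrt ((j : ℝ) ^ 2 * ((X.card : ℝ) * (Y.card : ℝ))) := by
    apply Real.le_sqrt_of_sq_le
    calc (T : ℝ) ^ 2 = T * T := by ring
      _ ≤ (j * X.card) * (j * Y.card) :=
          mul_le_mul e1 e2 (Nat.cast_nonneg _) (by positivity)
      _ = (j : ℝ) ^ 2 * ((X.card : ℝ) * (Y.card : ℝ)) := by ring
  rw [Real.sqrt_mul (by positivity), Real.sqrt_sq (Nat.cast_nonneg _)] at e3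
  exact e3

/-- Compare `LMix_colours` (`W_cd7020_h81c/AWd.lean`). -/
theorem LMix_colours2 (col : Sym2 V → κ) (hcol : Proper col) (B B' K K' : Finset κ)
    (β : ℝ) (h0 : 0 ≤ β) (hB : B' ⊆ B) (hK : K' ⊆ K) (j₁ j₂ : ℕ)
    (hj₁ : (B \ B').card ≤ j₁) (hj₂ : (K \ K').card ≤ j₂) (hBK : Disjoint B K) (k a : ℝ)
    (hL : LMix col (pw B K β) k a) : LMix col (pw B' K' β) k (a + (j₁ + β * j₂)) := by
  intro X Y
  have h2 := hL X Y
  have h3 : ∑ x ∈ X, wd col (pw B K β) x Y ≤ ∑ x ∈ X, wd col (pw B' K' β) x Y +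
      (∑ x ∈ X, ((Y.filter (fun y => y ≠ x ∧ col s(x, y) ∈ B \ B')).card : ℝ) +
        β * ∑ x ∈ X, ((Y.filter (fun y => y ≠ x ∧ col s(x, y) ∈ K \ K')).card : ℝ)) := by
    rw [Finset.mul_sum, ← Finset.sum_add_distrib, ← Finset.sum_add_distrib]
    exact Finset.sum_le_sum fun x _ => DClo_diff col B B' K K' β h0 hB hK hBK x Y
  have h4 := DClo_sqrt col hcol (B \ B') j₁ hj₁ X Y
  have h5 := mul_le_mul_of_nonneg_left (DClo_sqrt col hcol (K \ K') j₂ hj₂ X Y) h0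
  have h8 : (a + (j₁ + β * j₂)) * Real.sqrt ((X.card : ℝ) * (Y.card : ℝ)) =
      a * Real.sqrt ((X.card : ℝ) * (Y.card : ℝ)) +
        (j₁ * Real.sqrt ((X.card : ℝ) * (Y.card : ℝ)) +
          β * (j₂ * Real.sqrt ((X.card : ℝ) * (Y.card : ℝ)))) := by
    ring
  rw [h8]
  linarith

theorem DClo_card (col : Sym2 V → κ) (B S : Finset κ) (E' : Finset (Sym2 V)) (j : ℕ)
    (h : (E'.filter (fun e => col e ∈ B \ S)).card ≤ j) :
    (B ∩ cE col E').card ≤ (B ∩ S).card + j := by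
  have h1 : B ∩ cE col E' ⊆ (B ∩ S) ∪ (E'.filter (fun e => col e ∈ B \ S)).image col := by
    intro c hcc
    rw [mem_inter] at hcc
    by_cases hcS : c ∈ S
    · exact mem_union_left _ (mem_inter.2 ⟨hcc.1, hcS⟩)
    · obtain ⟨e, he, hec⟩ := mem_image.1 hcc.2
      refine mem_union_right _ (mem_image.2 ⟨e, mem_filter.2 ⟨he, ?_⟩, hec⟩)
      rw [hec]
      exact mem_sdiff.2 ⟨hcc.1, hcS⟩
  calc (B ∩ cE col E').card ≤
        ((B ∩ S) ∪ (E'.filter (fun e => col e ∈ B \ S)).image col).card := card_le_card h1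
    _ ≤ (B ∩ S).card + ((E'.filter (fun e => col e ∈ B \ S)).image col).card :=
        card_union_le _ _
    _ ≤ (B ∩ S).card + j := Nat.add_le_add_left (card_image_le.trans h) _

theorem DClo_sdiff (B S : Finset κ) (j : ℕ) (h : (B ∩ S).card ≤ j) :
    (B \ (B \ S)).card ≤ j := by
  rw [sdiff_sdiff_right_self]
  exact h

/-- One closing: `closingZ` with `U = univ`, `Z = ∅`, the pools `B i \ cE E`, `K \ cE E`, and
`a + j₁ + β j₂`. -/
theorem closeC_one (col : Sym2 V → κ) (hcol : Proper col) (B : Fin 5 → Finset κ)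
    (K : Finset κ) (β k a : ℝ) (hP : PoolsC col B K β k a) (ha : 0 ≤ a) (hβ0 : 0 ≤ β)
    (hβ1 : β ≤ 1) (hβ : β * Fintype.card V ≤ 2 * k) (J : ℕ) (hJ1 : 1 ≤ J)
    (hJ : Fintype.card V ≤ 2 ^ J) (hJn : 10 ^ 7 * J ^ 2 ≤ Fintype.card V)
    (hkJ : 10 ^ 5 * (J : ℝ) ^ 2 ≤ k) (j₁ j₂ : ℕ)
    (hak : 10 ^ 6 * J * (a + (j₁ + β * j₂)) ≤ k) (E : Finset (Sym2 V)) (hE : Cyc univ E)
    (hlt : E.card < Fintype.card V) (hr : Rb col E) (h₁ : ∀ i, (B i ∩ cE col E).card ≤ j₁)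
    (h₂ : (K ∩ cE col E).card ≤ j₂) :
    ∃ E', Cyc univ E' ∧ E'.card = E.card + 1 ∧ Rb col E' ∧
      (∀ i, (B i ∩ cE col E').card ≤ (B i ∩ cE col E).card + J) ∧
      (K ∩ cE col E').card ≤ (K ∩ cE col E).card + 5 * J := by
  classical
  have hJr : (1 : ℝ) ≤ J := by exact_mod_cast hJ1
  have hd0 : (0 : ℝ) ≤ j₁ + β * j₂ := by positivity
  have ha' : 0 ≤ a + (j₁ + β * j₂) := by linarith
  have hUM : ∀ i, UMix col (pw (B i \ cE col E) (K \ cE col E) β) k (a + (j₁ + β * j₂)) := by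
    intro i
    exact UMix_mono col (pw (B i) K β) (pw (B i \ cE col E) (K \ cE col E) β)
      (pw_nonneg _ _ β hβ0)
      (pw_mono (B i) (B i \ cE col E) K (K \ cE col E) β hβ0 hβ1 sdiff_subset sdiff_subset) k
      a (a + (j₁ + β * j₂)) (by linarith) (hP.U i)
  have hLM : ∀ i, LMix col (pw (B i \ cE col E) (K \ cE col E) β) k (a + (j₁ + β * j₂)) := by
    intro i
    exact LMix_colours2 col hcol (B i) (B i \ cE col E) K (K \ cE col E) β hβ0 sdiff_subset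
      sdiff_subset j₁ j₂ (DClo_sdiff _ _ _ (h₁ i)) (DClo_sdiff _ _ _ h₂) (hP.BK i) k a (hP.L i)
  have hdeg : ∀ i, ∀ x ∈ (univ : Finset V),
      3 / 4 * k ≤ wd col (pw (B i \ cE col E) (K \ cE col E) β) x (univ \ ∅) := by
    intro i x _
    rw [sdiff_empty]
    have e1 := wd_colours2 col hcol (B i) (B i \ cE col E) K (K \ cE col E) β hβ0 sdiff_subset
      sdiff_subset j₁ j₂ (DClo_sdiff _ _ _ (h₁ i)) (DClo_sdiff _ _ _ h₂) (hP.BK i) x univ
    have e2 := hP.deg i x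
    have e3 : 4 * (a + (j₁ + β * j₂)) ≤ k := by
      refine le_trans ?_ hak
      have e4 : (4 : ℝ) ≤ 10 ^ 6 * J := by nlinarith
      exact mul_le_mul_of_nonneg_right e4 ha'
    linarith
  obtain ⟨E', hc1, hc2, hc3, -, hc5, hc6, -⟩ := closingZ col hcol univ E hE
    (by rw [card_univ]; exact hlt) hr (fun i => B i \ cE col E) (K \ cE col E) β k
    (a + (j₁ + β * j₂)) ha' hβ0 hβ1 hβ hUM hLM ∅ J hJ1 hJ hJn (by rw [card_univ]; omega)
    (by rw [card_empty, mul_zero]; exact Nat.zero_le _)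
    (fun i e he hcon => (mem_sdiff.1 hcon).2 (mem_image_of_mem col he))
    (fun e he hcon => (mem_sdiff.1 hcon).2 (mem_image_of_mem col he))
    (fun i j hij => disjoint_of_subset_left sdiff_subset
      (disjoint_of_subset_right sdiff_subset (hP.disj i j hij)))
    (fun i => disjoint_of_subset_left sdiff_subset
      (disjoint_of_subset_right sdiff_subset (hP.BK i))) hdeg hkJ hak
  exact ⟨E', hc1, hc2, hc3, fun i => DClo_card col (B i) (cE col E) E' J (hc5 i),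
    DClo_card col K (cE col E) E' (5 * J) hc6⟩

/-- Iteration of `closeC_one`. -/
theorem closeC_all (col : Sym2 V → κ) (hcol : Proper col) (B : Fin 5 → Finset κ)
    (K : Finset κ) (β k a : ℝ) (hP : PoolsC col B K β k a) (ha : 0 ≤ a) (hβ0 : 0 ≤ β)
    (hβ1 : β ≤ 1) (hβ : β * Fintype.card V ≤ 2 * k) (J : ℕ) (hJ1 : 1 ≤ J)
    (hJ : Fintype.card V ≤ 2 ^ J) (hJn : 10 ^ 7 * J ^ 2 ≤ Fintype.card V)
    (hkJ : 10 ^ 5 * (J : ℝ) ^ 2 ≤ k) (D₁ D₂ : ℕ)
    (hak : 10 ^ 6 * J * (a + (D₁ + β * D₂)) ≤ k) :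
    ∀ (q : ℕ) (E : Finset (Sym2 V)), Cyc univ E → E.card + q = Fintype.card V → Rb col E →
    (∀ i, (B i ∩ cE col E).card + q * J ≤ D₁) → (K ∩ cE col E).card + 5 * q * J ≤ D₂ →
    ∃ E', Cyc univ E' ∧ E'.card = Fintype.card V ∧ Rb col E' := by
  intro q
  induction q with
  | zero =>
    intro E hE hq hr _ _
    exact ⟨E, hE, by omega, hr⟩
  | succ q ih =>
    intro E hE hq hr h₁ h₂
    obtain ⟨E₁, hE₁, hc₁, hr₁, hb₁, hk₁⟩ := closeC_one col hcol B K β k a hP ha hβ0 hβ1 hβ J hJ1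
      hJ hJn hkJ D₁ D₂ hak E hE (by omega) hr
      (fun i => le_trans (Nat.le_add_right _ _) (h₁ i)) (le_trans (Nat.le_add_right _ _) h₂)
    refine ih E₁ hE₁ (by omega) hr₁ (fun i => ?_) ?_
    · have e1 := h₁ i
      have e2 := hb₁ i
      rw [Nat.add_mul, Nat.one_mul] at e1
      omega
    · have e1 : 5 * (q + 1) * J = 5 * q * J + 5 * J := by ring
      rw [e1] at h₂
      omega

end Pool.Agent.W_cd7020_h81d
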