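import Pool.Agent.W_cd7020_h81b.FDefs
import Pool.Agent.W_cd7020_h81n.NDefs
import Pool.Agent.W_cd7020_h81c.ADefs

/-!
# Colourings with many small colours: definitions
-/

set_option autoImplicit false

namespace Pool.Agent.W_cd7020_h81d

open Finset Pool.Agent.W_cd7020_h81 Pool.Agent.W_cd7020_h81b Pool.Agent.W_cd7020_h81c
  Pool.Agent.W_cd7020_h81n

section

variable {κ : Type*} [DecidableEq κ]

/-- The expected value for a random subset of `H` with rate `θ`. -/
noncomputable def ex (θ : ℝ) (H : Finset κ) (g : Finset κ → ℝ) : ℝ :=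
  ∑ A ∈ H.powerset, θ ^ A.card * (1 - θ) ^ (H.card - A.card) * g A

end

variable {V κ : Type*} [DecidableEq V] [DecidableEq κ] [Fintype V]

/-- The number of edges at `x` with a colour in `A`. -/
def dC (col : Sym2 V → κ) (A : Finset κ) (x : V) : ℕ :=
  (univ.filter (fun y => y ≠ x ∧ col s(x, y) ∈ A)).card

/-- The number of ordered pairs of colour `k`. -/
def ec (col : Sym2 V → κ) (k : κ) : ℕ :=
  ((univ : Finset (V × V)).filter (fun p => p.1 ≠ p.2 ∧ col s(p.1, p.2) = k)).card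

/-- The good arcs for the pair `z, z'`: `z x` and `z' y` have different colours in `A`, the colour
of `x y` is not in `A`. -/
def gp (col : Sym2 V → κ) (A : Finset κ) (z z' : V) : Finset (V × V) :=
  univ.filter (fun p => p.1 ≠ p.2 ∧ p.1 ≠ z ∧ p.1 ≠ z' ∧ p.2 ≠ z ∧ p.2 ≠ z' ∧
    col s(z, p.1) ∈ A ∧ col s(z', p.2) ∈ A ∧ col s(z, p.1) ≠ col s(z', p.2) ∧
    col s(p.1, p.2) ∉ A)

/-- The conditions for the nibble. `H` are the small colours, `A ⊆ H` the reserved colours. -/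
structure NC (col : Sym2 V → κ) (H A : Finset κ) (θ τ e₀ : ℝ) : Prop where
  proper : Proper col
  sub : A ⊆ H
  θ0 : 0 ≤ θ
  θ1 : θ ≤ 1 / 2
  τ0 : 0 < τ
  τ1 : τ ≤ 1
  e0 : 0 < e₀
  e8 : e₀ ≤ τ ^ 96 / 8
  n1 : 70 / (e₀ * τ ^ 3) ≤ (Fintype.card V : ℝ)
  deg : ∀ x, |(dC col A x : ℝ) - θ * dC col H x| + 1 / 2 ≤ e₀ / 4 * Fintype.card V
  small : ∀ k ∈ H, (ec col k : ℝ) ≤ (1 - θ) * Fintype.card V

/-- The weight of an arc. -/
noncomputable def wA (col : Sym2 V → κ) (H : Finset κ) (θ : ℝ) (p : V × V) : ℝ :=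
  (if col s(p.1, p.2) ∈ H then 1 / (1 - θ) else 1) / Fintype.card V

/-- The elements of an arc. -/
def incA (col : Sym2 V → κ) (p : V × V) : Finset (V ⊕ (V ⊕ κ)) :=
  {Sum.inl p.1, Sum.inr (Sum.inl p.2), Sum.inr (Sum.inr (col s(p.1, p.2)))}

/-- The arcs. -/
def EA (col : Sym2 V → κ) (A : Finset κ) : Finset (V × V) :=
  univ.filter (fun p => p.1 ≠ p.2 ∧ col s(p.1, p.2) ∉ A)

/-- The saturations. -/
noncomputable def sA (col : Sym2 V → κ) (H : Finset κ) (θ : ℝ) : V ⊕ (V ⊕ κ) → ℝ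
  | Sum.inl _ => 1
  | Sum.inr (Sum.inl _) => 1
  | Sum.inr (Sum.inr k) => min 1 ((if k ∈ H then 1 / (1 - θ) else 1) * ec col k / Fintype.card V)

open Classical in
/-- The forest of a list of arcs (the last arc is the head): an arc which would close a cycle is
left out. -/
noncomputable def Fo : List (V × V) → Finset (Sym2 V)
  | [] => ∅
  | e :: l => if LF univ (insert s(e.1, e.2) (Fo l)) then insert s(e.1, e.2) (Fo l) else Fo l

open Classical in
/-- The cost of an arc. -/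
noncomputable def cA (l : List (V × V)) (e : V × V) : ℝ :=
  if LF univ (insert s(e.1, e.2) (Fo l)) then 0 else 1

/-- The set of arcs chosen by the nibble. -/
structure Arcs (col : Sym2 V → κ) (A : Finset κ) (Q : Finset (V × V)) (T : ℕ) : Prop where
  out : ∀ a ∈ Q, ∀ a' ∈ Q, a.1 = a'.1 → a = a'
  inn : ∀ a ∈ Q, ∀ a' ∈ Q, a.2 = a'.2 → a = a'
  colr : ∀ a ∈ Q, ∀ a' ∈ Q, col s(a.1, a.2) = col s(a'.1, a'.2) → a = a'
  many : ∀ z z', z ≠ z' → T ≤ (Q ∩ gp col A z z').card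

/-- The number of arcs which are not in `F`. -/
def lostA (Q : Finset (V × V)) (F : Finset (Sym2 V)) : ℕ :=
  (Q.filter (fun a => s(a.1, a.2) ∉ F)).card

end Pool.Agent.W_cd7020_h81d
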