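import Pool.Agent.W_cd7020_h81d.DEx
import Pool.Agent.W_cd7020_h81b.Par

/-!
# The degrees in a random set of colours
-/

set_option autoImplicit false

namespace Pool.Agent.W_cd7020_h81d

open Finset Pool.Agent.W_cd7020_h81 Pool.Agent.W_cd7020_h81b

variable {V κ : Type*} [DecidableEq V] [DecidableEq κ] [Fintype V]

/-- `dC` as the number of colours (`par_count`). -/
theorem dC_eq (col : Sym2 V → κ) (hcol : Proper col) (A : Finset κ) (x : V) :
    dC col A x = (A.filter (fun k => par col k x ≠ x)).card := by
  have h := par_count col hcol A x univ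
  rw [show dC col A x = (univ.filter (fun y => y ≠ x ∧ col s(x, y) ∈ A)).card from rfl, h]
  congr 1
  ext k
  simp

theorem dC_ex (col : Sym2 V → κ) (hcol : Proper col) (θ : ℝ) (H : Finset κ) (x : V) :
    ex θ H (fun A => (dC col A x : ℝ)) = θ * dC col H x := by
  classical
  have h1 : ∀ A, A ⊆ H → (dC col A x : ℝ) =
      ∑ k ∈ H.filter (fun k => par col k x ≠ x),
        (if ({k} : Finset κ) ⊆ A ∧ Disjoint (∅ : Finset κ) A then (1 : ℝ) else 0) := by
    intro A hA
    rw [dC_eq col hcol A x, Finset.sum_ite, Finset.sum_const_zero, add_zero, Finset.sum_const,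
      nsmul_eq_mul, mul_one]
    congr 2
    ext k
    simp only [Finset.mem_filter, Finset.singleton_subset_iff, Finset.disjoint_empty_left,
      and_true]
    constructor
    · rintro ⟨ha, hb⟩
      exact ⟨⟨hA ha, hb⟩, ha⟩
    · rintro ⟨⟨_, hb⟩, ha⟩
      exact ⟨ha, hb⟩
  rw [ex_congr θ H _ _ h1, ex_sum]
  have h2 : ∀ k ∈ H.filter (fun k => par col k x ≠ x),
      ex θ H (fun A => if ({k} : Finset κ) ⊆ A ∧ Disjoint (∅ : Finset κ) A then (1 : ℝ) else 0) =
        θ := by
    intro k hk
    have h3 := ex_ind θ H {k} ∅ (Finset.singleton_subset_iff.2 (Finset.mem_filter.1 hk).1)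
      (Finset.empty_subset _) (Finset.disjoint_empty_right _)
    rw [Finset.card_singleton, Finset.card_empty, pow_one, pow_zero, mul_one] at h3
    rw [← h3]
    congr
  rw [Finset.sum_congr rfl h2, Finset.sum_const, nsmul_eq_mul, dC_eq col hcol H x, mul_comm]

theorem dC_lip (col : Sym2 V → κ) (hcol : Proper col) (A : Finset κ) (k : κ) (hk : k ∉ A)
    (x : V) : |(dC col (insert k A) x : ℝ) - dC col A x| ≤ if par col k x ≠ x then 1 else 0 := by
  have h1 : ((insert k A).filter (fun k => par col k x ≠ x)).card =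
      (A.filter (fun k => par col k x ≠ x)).card + if par col k x ≠ x then 1 else 0 := by
    rw [Finset.filter_insert]
    split_ifs with h
    · rw [Finset.card_insert_of_notMem (fun h' => hk (Finset.mem_filter.1 h').1)]
    · simp
  rw [dC_eq col hcol, dC_eq col hcol, h1]
  push_cast
  rw [add_sub_cancel_left]
  split_ifs <;> simp

/-- The sum of the squares of the influences on `n * dC`: at most `n` colours are present at `x`. -/
theorem dC_var (col : Sym2 V → κ) (H : Finset κ) (x : V) :
    ∑ k ∈ H, ((Fintype.card V : ℝ) * if par col k x ≠ x then 1 else 0) ^ 2 ≤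
      (Fintype.card V : ℝ) ^ 3 := by
  have hn : (0 : ℝ) ≤ (Fintype.card V : ℝ) := Nat.cast_nonneg _
  have h1 : ∑ k ∈ H, ((Fintype.card V : ℝ) * if par col k x ≠ x then 1 else 0) ^ 2 =
      (Fintype.card V : ℝ) ^ 2 * (H.filter (fun k => par col k x ≠ x)).card := by
    rw [Finset.card_filter]
    push_cast
    rw [Finset.mul_sum]
    refine Finset.sum_congr rfl fun k _ => ?_
    split_ifs <;> simp
  have h2 : (H.filter (fun k => par col k x ≠ x)).card ≤ Fintype.card V := by
    rw [← Finset.card_univ]
    apply Finset.card_le_card_of_injOn (fun k => par col k x) (fun k _ => by simp)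
    intro k hk k' hk' h
    have hk2 := (Finset.mem_filter.1 (Finset.mem_coe.1 hk)).2
    exact par_colour_inj col k k' x hk2 h
  have h3 : ((H.filter (fun k => par col k x ≠ x)).card : ℝ) ≤ Fintype.card V := by
    exact_mod_cast h2
  rw [h1, pow_succ (Fintype.card V : ℝ) 2]
  exact mul_le_mul_of_nonneg_left h3 (by positivity)

end Pool.Agent.W_cd7020_h81d
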