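import Pool.Agent.W_cd7020_h81d.DDefs

/-!
# Expected values for random subsets
-/

set_option autoImplicit false

namespace Pool.Agent.W_cd7020_h81d

open Finset

variable {κ : Type*} [DecidableEq κ]

theorem ex_empty (θ : ℝ) (g : Finset κ → ℝ) : ex θ ∅ g = g ∅ := by
  simp [ex]

/-- `Finset.powerset_insert`, `Finset.card_insert_of_notMem`. -/
theorem ex_insert (θ : ℝ) (H : Finset κ) (k : κ) (hk : k ∉ H) (g : Finset κ → ℝ) :
    ex θ (insert k H) g = ex θ H (fun A => (1 - θ) * g A + θ * g (insert k A)) := by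
  unfold ex
  rw [Finset.sum_powerset_insert hk, Finset.card_insert_of_notMem hk, ← Finset.sum_add_distrib]
  refine Finset.sum_congr rfl fun A hA => ?_
  have hA' := Finset.mem_powerset.1 hA
  have hkA : k ∉ A := fun h => hk (hA' h)
  have hc := Finset.card_le_card hA'
  rw [Finset.card_insert_of_notMem hkA, Nat.add_sub_add_right,
    show H.card + 1 - A.card = H.card - A.card + 1 by omega]
  ring

theorem ex_const (θ : ℝ) (H : Finset κ) (a : ℝ) : ex θ H (fun _ => a) = a := by
  unfold ex
  rw [← Finset.sum_mul, Finset.sum_pow_mul_eq_add_pow, add_sub_cancel, one_pow, one_mul]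

theorem ex_add (θ : ℝ) (H : Finset κ) (g g' : Finset κ → ℝ) :
    ex θ H (fun A => g A + g' A) = ex θ H g + ex θ H g' := by
  unfold ex
  rw [← Finset.sum_add_distrib]
  exact Finset.sum_congr rfl fun A _ => by ring

theorem ex_mul (θ : ℝ) (H : Finset κ) (a : ℝ) (g : Finset κ → ℝ) :
    ex θ H (fun A => a * g A) = a * ex θ H g := by
  unfold ex
  rw [Finset.mul_sum]
  exact Finset.sum_congr rfl fun A _ => by ring

theorem ex_sum (θ : ℝ) (H : Finset κ) {ι : Type*} (I : Finset ι) (g : ι → Finset κ → ℝ) :
    ex θ H (fun A => ∑ i ∈ I, g i A) = ∑ i ∈ I, ex θ H (g i) := by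
  unfold ex
  rw [Finset.sum_comm]
  exact Finset.sum_congr rfl fun A _ => by rw [Finset.mul_sum]

theorem ex_mono (θ : ℝ) (h0 : 0 ≤ θ) (h1 : θ ≤ 1) (H : Finset κ) (g g' : Finset κ → ℝ)
    (h : ∀ A, A ⊆ H → g A ≤ g' A) : ex θ H g ≤ ex θ H g' := by
  unfold ex
  refine Finset.sum_le_sum fun A hA => ?_
  exact mul_le_mul_of_nonneg_left (h A (Finset.mem_powerset.1 hA))
    (mul_nonneg (pow_nonneg h0 _) (pow_nonneg (by linarith) _))

/-- Only the values on subsets of `H` matter. -/
theorem ex_congr (θ : ℝ) (H : Finset κ) (g g' : Finset κ → ℝ)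
    (h : ∀ A, A ⊆ H → g A = g' A) : ex θ H g = ex θ H g' := by
  unfold ex
  exact Finset.sum_congr rfl fun A hA => by rw [h A (Finset.mem_powerset.1 hA)]

/-- Some subset has at most the expected value (`ex_const`, `ex_mono`). -/
theorem ex_le (θ : ℝ) (h0 : 0 ≤ θ) (h1 : θ ≤ 1) (H : Finset κ) (g : Finset κ → ℝ) :
    ∃ A, A ⊆ H ∧ g A ≤ ex θ H g := by
  obtain ⟨A, hA, hmin⟩ := Finset.exists_min_image H.powerset g ⟨∅, Finset.empty_mem_powerset H⟩
  refine ⟨A, Finset.mem_powerset.1 hA, ?_⟩
  rw [← ex_const θ H (g A)]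
  exact ex_mono θ h0 h1 H _ _ fun B hB => hmin B (Finset.mem_powerset.2 hB)

open Classical in
/-- The probability that `I ⊆ A` and `O ∩ A = ∅`; induction on `H` with `ex_insert`. -/
theorem ex_ind (θ : ℝ) (H : Finset κ) : ∀ I O : Finset κ, I ⊆ H → O ⊆ H → Disjoint I O →
    ex θ H (fun A => if I ⊆ A ∧ Disjoint O A then 1 else 0) =
      θ ^ I.card * (1 - θ) ^ O.card := by
  induction H using Finset.induction_on with
  | empty =>
    intro I O hI hO _
    rw [Finset.subset_empty.1 hI, Finset.subset_empty.1 hO, ex_empty]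
    simp
  | insert k H hk ih =>
    intro I O hI hO hIO
    rw [ex_insert θ H k hk]
    by_cases hkI : k ∈ I
    · have hkO : k ∉ O := Finset.disjoint_left.1 hIO hkI
      have hO' : O ⊆ H := (Finset.subset_insert_iff_of_notMem hkO).1 hO
      have hI' : I.erase k ⊆ H := Finset.subset_insert_iff.1 hI
      have hd : Disjoint (I.erase k) O := Finset.disjoint_of_subset_left (Finset.erase_subset _ _) hIO
      have h1 := ih (I.erase k) O hI' hO' hd
      have h2 : ex θ H (fun A => (1 - θ) * (if I ⊆ A ∧ Disjoint O A then 1 else 0) +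
          θ * (if I ⊆ insert k A ∧ Disjoint O (insert k A) then 1 else 0)) =
          ex θ H (fun A => θ * (if I.erase k ⊆ A ∧ Disjoint O A then 1 else 0)) := by
        refine ex_congr θ H _ _ fun A hA => ?_
        have hkA : k ∉ A := fun h => hk (hA h)
        have h3 : ¬ (I ⊆ A ∧ Disjoint O A) := fun h => hkA (h.1 hkI)
        have h4 : (I ⊆ insert k A ∧ Disjoint O (insert k A)) ↔ (I.erase k ⊆ A ∧ Disjoint O A) := by
          rw [Finset.subset_insert_iff, Finset.disjoint_insert_right]
          exact ⟨fun h => ⟨h.1, h.2.2⟩, fun h => ⟨h.1, hkO, h.2⟩⟩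
        rw [if_neg h3, mul_zero, zero_add]
        simp only [h4]
      rw [h2, ex_mul, h1]
      have h5 : I.card = (I.erase k).card + 1 := (Finset.card_erase_add_one hkI).symm
      rw [h5]
      ring
    · have hI' : I ⊆ H := (Finset.subset_insert_iff_of_notMem hkI).1 hI
      by_cases hkO : k ∈ O
      · have hO' : O.erase k ⊆ H := Finset.subset_insert_iff.1 hO
        have hd : Disjoint I (O.erase k) :=
          Finset.disjoint_of_subset_right (Finset.erase_subset _ _) hIO
        have h1 := ih I (O.erase k) hI' hO' hd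
        have h2 : ex θ H (fun A => (1 - θ) * (if I ⊆ A ∧ Disjoint O A then 1 else 0) +
            θ * (if I ⊆ insert k A ∧ Disjoint O (insert k A) then 1 else 0)) =
            ex θ H (fun A => (1 - θ) * (if I ⊆ A ∧ Disjoint (O.erase k) A then 1 else 0)) := by
          refine ex_congr θ H _ _ fun A hA => ?_
          have hkA : k ∉ A := fun h => hk (hA h)
          have h3 : ¬ (I ⊆ insert k A ∧ Disjoint O (insert k A)) := by
            rintro ⟨-, h⟩
            rw [Finset.disjoint_insert_right] at h
            exact h.1 hkO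
          have h4 : (I ⊆ A ∧ Disjoint O A) ↔ (I ⊆ A ∧ Disjoint (O.erase k) A) := by
            constructor
            · exact fun h => ⟨h.1, Finset.disjoint_of_subset_left (Finset.erase_subset _ _) h.2⟩
            · rintro ⟨h, h'⟩
              refine ⟨h, ?_⟩
              rw [Finset.disjoint_left] at h' ⊢
              intro x hx hxA
              refine h' (Finset.mem_erase.2 ⟨?_, hx⟩) hxA
              rintro rfl
              exact hkA hxA
          rw [if_neg h3, mul_zero, add_zero]
          simp only [h4]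
        rw [h2, ex_mul, h1]
        have h5 : O.card = (O.erase k).card + 1 := (Finset.card_erase_add_one hkO).symm
        rw [h5]
        ring
      · have hO' : O ⊆ H := (Finset.subset_insert_iff_of_notMem hkO).1 hO
        rw [← ih I O hI' hO' hIO]
        refine ex_congr θ H _ _ fun A hA => ?_
        have h4 : (I ⊆ insert k A ∧ Disjoint O (insert k A)) ↔ (I ⊆ A ∧ Disjoint O A) := by
          rw [Finset.subset_insert_iff_of_notMem hkI, Finset.disjoint_insert_right]
          exact ⟨fun h => ⟨h.1, h.2.2⟩, fun h => ⟨h.1, hkO, h.2⟩⟩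
        simp only [h4]
        ring

end Pool.Agent.W_cd7020_h81d
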