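import Pool.Agent.W_cd7020_h81d.DDefs
import Pool.Agent.W_cd7020_h81.Join
import Pool.Agent.W_cd7020_h81b.Par

/-!
# The forest of a list of arcs
-/

set_option autoImplicit false

namespace Pool.Agent.W_cd7020_h81d

open Finset Pool.Agent.W_cd7020_h81 Pool.Agent.W_cd7020_h81b Pool.Agent.W_cd7020_h81n

variable {V κ : Type*} [DecidableEq V] [DecidableEq κ] [Fintype V]

theorem Fo_lf (l : List (V × V)) : LF univ (Fo l) := by
  induction l with
  | nil =>
    refine ⟨univ.toList, Finset.nodup_toList _, fun v => by simp, fun e he => ?_⟩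
    simp [Fo] at he
  | cons e l ih =>
    rw [Fo]
    split_ifs with h
    · exact h
    · exact ih

theorem Fo_mem (l : List (V × V)) (e : Sym2 V) (he : e ∈ Fo l) : ∃ a ∈ l, e = s(a.1, a.2) := by
  induction l with
  | nil => simp [Fo] at he
  | cons a l ih =>
    rw [Fo] at he
    split_ifs at he with h
    · rcases mem_insert.1 he with h1 | h1
      · exact ⟨a, List.mem_cons_self, h1⟩
      · obtain ⟨b, hb, h2⟩ := ih h1
        exact ⟨b, List.mem_cons_of_mem _ hb, h2⟩
    · obtain ⟨b, hb, h2⟩ := ih he
      exact ⟨b, List.mem_cons_of_mem _ hb, h2⟩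

omit [Fintype V] in
theorem Fo_disj_col {col : Sym2 V → κ} {a b : V × V} (h : Disjoint (incA col a) (incA col b)) :
    col s(a.1, a.2) ≠ col s(b.1, b.2) := by
  intro h1
  have h2 : (Sum.inr (Sum.inr (col s(a.1, a.2))) : V ⊕ (V ⊕ κ)) ∈ incA col a := by simp [incA]
  have h3 : (Sum.inr (Sum.inr (col s(a.1, a.2))) : V ⊕ (V ⊕ κ)) ∈ incA col b := by
    rw [h1]; simp [incA]
  exact (Finset.disjoint_left.1 h) h2 h3

omit [Fintype V] in
theorem Fo_disj_fst {col : Sym2 V → κ} {a b : V × V} (h : Disjoint (incA col a) (incA col b)) :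
    a.1 ≠ b.1 := by
  intro h1
  have h2 : (Sum.inl a.1 : V ⊕ (V ⊕ κ)) ∈ incA col a := by simp [incA]
  have h3 : (Sum.inl a.1 : V ⊕ (V ⊕ κ)) ∈ incA col b := by
    rw [h1]; simp [incA]
  exact (Finset.disjoint_left.1 h) h2 h3

omit [Fintype V] in
theorem Fo_disj_snd {col : Sym2 V → κ} {a b : V × V} (h : Disjoint (incA col a) (incA col b)) :
    a.2 ≠ b.2 := by
  intro h1
  have h2 : (Sum.inr (Sum.inl a.2) : V ⊕ (V ⊕ κ)) ∈ incA col a := by simp [incA]
  have h3 : (Sum.inr (Sum.inl a.2) : V ⊕ (V ⊕ κ)) ∈ incA col b := by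
    rw [h1]; simp [incA]
  exact (Finset.disjoint_left.1 h) h2 h3

theorem Fo_notMem {col : Sym2 V → κ} {a : V × V} {l : List (V × V)}
    (h : ∀ b ∈ l, Disjoint (incA col a) (incA col b)) : s(a.1, a.2) ∉ Fo l := by
  intro h1
  obtain ⟨b, hb, h2⟩ := Fo_mem l _ h1
  exact Fo_disj_col (h b hb) (by rw [h2])

/-- Arcs with disjoint sets of elements have different colours. -/
theorem Fo_rb (col : Sym2 V → κ) (l : List (V × V))
    (hl : l.Pairwise (fun e e' => Disjoint (incA col e) (incA col e'))) : Rb col (Fo l) := by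
  induction l with
  | nil => intro e he; simp [Fo] at he
  | cons a l ih =>
    rw [List.pairwise_cons] at hl
    have ih' := ih hl.2
    rw [Fo]
    split_ifs with h
    · intro e he e' he' hc
      rcases mem_insert.1 he with h1 | h1 <;> rcases mem_insert.1 he' with h2 | h2
      · rw [h1, h2]
      · exfalso
        obtain ⟨b, hb, h3⟩ := Fo_mem l _ h2
        exact Fo_disj_col (hl.1 b hb) (by rw [← h1, ← h3, hc])
      · exfalso
        obtain ⟨b, hb, h3⟩ := Fo_mem l _ h1
        exact Fo_disj_col (hl.1 b hb) (by rw [← h2, ← h3, hc])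
      · exact ih' e h1 e' h2 hc
    · exact ih'

/-- Every arc of cost `0` gives a new edge. -/
theorem Fo_card (col : Sym2 V → κ) (l : List (V × V))
    (hl : l.Pairwise (fun e e' => Disjoint (incA col e) (incA col e'))) :
    ((Fo l).card : ℝ) + totcost cA l = l.length := by
  induction l with
  | nil => simp [Fo, totcost]
  | cons a l ih =>
    rw [List.pairwise_cons] at hl
    have ih' := ih hl.2
    have h0 := Fo_notMem hl.1
    rw [Fo, totcost, cA, List.length_cons]
    split_ifs with h
    · rw [card_insert_of_notMem h0]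
      push_cast
      linarith
    · push_cast
      linarith

/-- The arcs of the list which are not in the forest are at most the total cost. -/
theorem Fo_lost (col : Sym2 V → κ) (l : List (V × V))
    (hl : l.Pairwise (fun e e' => Disjoint (incA col e) (incA col e'))) :
    (lostA l.toFinset (Fo l) : ℝ) ≤ totcost cA l := by
  induction l with
  | nil => simp [Fo, totcost, lostA]
  | cons a l ih =>
    rw [List.pairwise_cons] at hl
    have ih' := ih hl.2
    rw [Fo, totcost, cA, List.toFinset_cons]
    split_ifs with h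
    · have h1 : lostA (insert a l.toFinset) (insert s(a.1, a.2) (Fo l)) ≤
          lostA l.toFinset (Fo l) := by
        unfold lostA
        apply card_le_card
        intro b hb
        rw [mem_filter, mem_insert, mem_insert, not_or] at hb
        rcases hb.1 with h2 | h2
        · exact absurd (by rw [h2]) hb.2.1
        · exact mem_filter.2 ⟨h2, hb.2.2⟩
      have h2 : (lostA (insert a l.toFinset) (insert s(a.1, a.2) (Fo l)) : ℝ) ≤
          (lostA l.toFinset (Fo l) : ℝ) := by exact_mod_cast h1
      linarith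
    · have h1 : lostA (insert a l.toFinset) (Fo l) ≤
          lostA l.toFinset (Fo l) + 1 := by
        unfold lostA
        refine le_trans (card_le_card (t := insert a (l.toFinset.filter
          (fun a => s(a.1, a.2) ∉ Fo l))) ?_) (card_insert_le _ _)
        intro b hb
        rw [mem_filter, mem_insert] at hb
        rcases hb.1 with h2 | h2
        · rw [h2]; exact mem_insert_self _ _
        · exact mem_insert_of_mem (mem_filter.2 ⟨h2, hb.2⟩)
      have h2 : (lostA (insert a l.toFinset) (Fo l) : ℝ) ≤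
          (lostA l.toFinset (Fo l) : ℝ) + 1 := by exact_mod_cast h1
      linarith

omit [Fintype V] in
theorem Fo_pw {col : Sym2 V → κ} {l : List (V × V)}
    (hl : l.Pairwise (fun e e' => Disjoint (incA col e) (incA col e'))) {a b : V × V}
    (ha : a ∈ l) (hb : b ∈ l) (hab : a ≠ b) : Disjoint (incA col a) (incA col b) := by
  exact hl.forall ha hb hab

/-- The degree of a vertex which is not the first vertex of an arc of the list. -/
theorem Fo_dg_out (col : Sym2 V → κ) (l : List (V × V))
    (hl : l.Pairwise (fun e e' => Disjoint (incA col e) (incA col e'))) (x : V)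
    (hx : ∀ a ∈ l, a.1 ≠ x) : dg (Fo l) x ≤ 1 := by
  unfold dg
  rw [Finset.card_le_one]
  intro e he e' he'
  rw [mem_filter] at he he'
  obtain ⟨a, ha, h1⟩ := Fo_mem l _ he.1
  obtain ⟨b, hb, h2⟩ := Fo_mem l _ he'.1
  have h3 : x = a.2 := by
    have := he.2
    rw [h1, Sym2.mem_iff] at this
    rcases this with h | h
    · exact absurd h.symm (hx a ha)
    · exact h
  have h4 : x = b.2 := by
    have := he'.2
    rw [h2, Sym2.mem_iff] at this
    rcases this with h | h
    · exact absurd h.symm (hx b hb)
    · exact h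
  by_cases hab : a = b
  · rw [h1, h2, hab]
  · exact absurd (h3.symm.trans h4) (Fo_disj_snd (Fo_pw hl ha hb hab))

theorem Fo_dg_in (col : Sym2 V → κ) (l : List (V × V))
    (hl : l.Pairwise (fun e e' => Disjoint (incA col e) (incA col e'))) (y : V)
    (hy : ∀ a ∈ l, a.2 ≠ y) : dg (Fo l) y ≤ 1 := by
  unfold dg
  rw [Finset.card_le_one]
  intro e he e' he'
  rw [mem_filter] at he he'
  obtain ⟨a, ha, h1⟩ := Fo_mem l _ he.1
  obtain ⟨b, hb, h2⟩ := Fo_mem l _ he'.1
  have h3 : y = a.1 := by
    have := he.2
    rw [h1, Sym2.mem_iff] at this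
    rcases this with h | h
    · exact h
    · exact absurd h.symm (hy a ha)
  have h4 : y = b.1 := by
    have := he'.2
    rw [h2, Sym2.mem_iff] at this
    rcases this with h | h
    · exact h
    · exact absurd h.symm (hy b hb)
  by_cases hab : a = b
  · rw [h1, h2, hab]
  · exact absurd (h3.symm.trans h4) (Fo_disj_fst (Fo_pw hl ha hb hab))

/-- For every `x` at most one arc `(x, y)` which is disjoint from the arcs of the list has cost `1`
(`LF.join` with `w = x`). -/
theorem Fo_close (col : Sym2 V → κ) (l : List (V × V))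
    (hl : l.Pairwise (fun e e' => Disjoint (incA col e) (incA col e'))) (x : V) :
    ((univ : Finset V).filter (fun y => x ≠ y ∧ (∀ a ∈ l, Disjoint (incA col (x, y)) (incA col a)) ∧
      cA l (x, y) ≠ 0)).card ≤ 1 := by
  by_cases hx : ∀ a ∈ l, a.1 ≠ x
  · obtain ⟨x₀, h0⟩ := (Fo_lf l).join (mem_univ x) (Fo_dg_out col l hl x hx)
    refine le_trans (card_le_card (t := {x₀}) ?_) (by simp)
    intro y hy
    rw [mem_filter] at hy
    obtain ⟨-, hxy, hd, hc⟩ := hy
    rw [mem_singleton]
    by_contra hne
    apply hc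
    have h1 : ∀ a ∈ l, a.2 ≠ y := fun a ha => (Fo_disj_snd (hd a ha)).symm
    have h2 := h0 y (mem_univ y) hxy.symm hne (Fo_dg_in col l hl y h1)
    rw [Sym2.eq_swap] at h2
    rw [cA, if_pos h2]
  · push Not at hx
    obtain ⟨a, ha, h1⟩ := hx
    refine le_trans (card_le_card (t := ∅) ?_) (by simp)
    intro y hy
    rw [mem_filter] at hy
    exact absurd h1.symm (Fo_disj_fst (hy.2.2.1 a ha))

end Pool.Agent.W_cd7020_h81d
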