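import Pool.Agent.W_cd7020_h81d.DEx
import Pool.Agent.W_cd7020_h81b.Par

/-!
# The good pairs in a random set of colours
-/

set_option autoImplicit false

namespace Pool.Agent.W_cd7020_h81d

open Finset Pool.Agent.W_cd7020_h81 Pool.Agent.W_cd7020_h81b

variable {V κ : Type*} [DecidableEq V] [DecidableEq κ] [Fintype V]

/-- The influence of the colour `k`. -/
def infl (col : Sym2 V → κ) (z z' : V) (k : κ) : ℝ :=
  ((univ : Finset (V × V)).filter (fun p => p.1 ≠ z ∧ col s(z, p.1) = k)).card +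
    ((univ : Finset (V × V)).filter (fun p => p.2 ≠ z' ∧ col s(z', p.2) = k)).card + ec col k

/-- The first set. -/
def DGp_a (col : Sym2 V → κ) (z : V) (k : κ) : Finset (V × V) :=
  univ.filter (fun p => p.1 ≠ z ∧ col s(z, p.1) = k)

/-- The second set. -/
def DGp_b (col : Sym2 V → κ) (z' : V) (k : κ) : Finset (V × V) :=
  univ.filter (fun p => p.2 ≠ z' ∧ col s(z', p.2) = k)

/-- The third set. -/
def DGp_c (col : Sym2 V → κ) (k : κ) : Finset (V × V) :=
  univ.filter (fun p => p.1 ≠ p.2 ∧ col s(p.1, p.2) = k)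

theorem DGp_infl (col : Sym2 V → κ) (z z' : V) (k : κ) :
    infl col z z' k = (DGp_a col z k).card + (DGp_b col z' k).card + (DGp_c col k).card := rfl

theorem DGp_sub1 (col : Sym2 V → κ) (A : Finset κ) (k : κ) (z z' : V) :
    gp col A z z' ⊆ gp col (insert k A) z z' ∪ (DGp_a col z k ∪ DGp_b col z' k ∪ DGp_c col k) := by
  intro p hp
  unfold gp at hp
  rw [mem_filter] at hp
  obtain ⟨-, h1, h2, h3, h4, h5, h6, h7, h8, h9⟩ := hp
  by_cases hc : col s(p.1, p.2) = k
  · refine mem_union_right _ (mem_union_right _ ?_)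
    exact mem_filter.2 ⟨mem_univ _, h1, hc⟩
  · refine mem_union_left _ ?_
    unfold gp
    refine mem_filter.2 ⟨mem_univ _, h1, h2, h3, h4, h5, mem_insert_of_mem h6,
      mem_insert_of_mem h7, h8, ?_⟩
    rw [mem_insert, not_or]
    exact ⟨hc, h9⟩

theorem DGp_sub2 (col : Sym2 V → κ) (A : Finset κ) (k : κ) (z z' : V) :
    gp col (insert k A) z z' ⊆ gp col A z z' ∪ (DGp_a col z k ∪ DGp_b col z' k ∪ DGp_c col k) := by
  intro p hp
  unfold gp at hp
  rw [mem_filter] at hp
  obtain ⟨-, h1, h2, h3, h4, h5, h6, h7, h8, h9⟩ := hp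
  rw [mem_insert, not_or] at h9
  rcases mem_insert.1 h6 with h6 | h6
  · refine mem_union_right _ (mem_union_left _ (mem_union_left _ ?_))
    exact mem_filter.2 ⟨mem_univ _, h2, h6⟩
  · rcases mem_insert.1 h7 with h7 | h7
    · refine mem_union_right _ (mem_union_left _ (mem_union_right _ ?_))
      exact mem_filter.2 ⟨mem_univ _, h5, h7⟩
    · refine mem_union_left _ ?_
      unfold gp
      exact mem_filter.2 ⟨mem_univ _, h1, h2, h3, h4, h5, h6, h7, h8, h9.2⟩

theorem DGp_card (col : Sym2 V → κ) (k : κ) (z z' : V) :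
    (((DGp_a col z k ∪ DGp_b col z' k ∪ DGp_c col k).card : ℕ) : ℝ) ≤ infl col z z' k := by
  rw [DGp_infl]
  have h1 : (DGp_a col z k ∪ DGp_b col z' k ∪ DGp_c col k).card ≤
      (DGp_a col z k).card + (DGp_b col z' k).card + (DGp_c col k).card :=
    (card_union_le _ _).trans (add_le_add (card_union_le _ _) le_rfl)
  exact_mod_cast h1

/-- A pair changes its status only if one of the three colours is `k`. -/
theorem gp_lip (col : Sym2 V → κ) (A : Finset κ) (k : κ) (hk : k ∉ A) (z z' : V) :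
    |((gp col (insert k A) z z').card : ℝ) - (gp col A z z').card| ≤ infl col z z' k := by
  have h1 : (gp col A z z').card ≤ (gp col (insert k A) z z').card +
      (DGp_a col z k ∪ DGp_b col z' k ∪ DGp_c col k).card :=
    (card_le_card (DGp_sub1 col A k z z')).trans (card_union_le _ _)
  have h2 : (gp col (insert k A) z z').card ≤ (gp col A z z').card +
      (DGp_a col z k ∪ DGp_b col z' k ∪ DGp_c col k).card :=
    (card_le_card (DGp_sub2 col A k z z')).trans (card_union_le _ _)
  have h3 := DGp_card col k z z'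
  have h1' : ((gp col A z z').card : ℝ) ≤ (gp col (insert k A) z z').card +
      (DGp_a col z k ∪ DGp_b col z' k ∪ DGp_c col k).card := by exact_mod_cast h1
  have h2' : ((gp col (insert k A) z z').card : ℝ) ≤ (gp col A z z').card +
      (DGp_a col z k ∪ DGp_b col z' k ∪ DGp_c col k).card := by exact_mod_cast h2
  rw [abs_le]
  constructor
  · linarith
  · linarith

theorem DGp_ale (col : Sym2 V → κ) (hcol : Proper col) (z : V) (k : κ) :
    (DGp_a col z k).card ≤ Fintype.card V := by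
  rw [← Finset.card_univ]
  refine Finset.card_le_card_of_injOn (fun p => p.2) (fun _ _ => mem_univ _) ?_
  intro p hp p' hp' h
  have h1 := (mem_filter.1 hp).2
  have h2 := (mem_filter.1 hp').2
  refine Prod.ext ?_ h
  rw [← par_eq col hcol k z p.1 h1.1 h1.2, ← par_eq col hcol k z p'.1 h2.1 h2.2]

theorem DGp_ble (col : Sym2 V → κ) (hcol : Proper col) (z : V) (k : κ) :
    (DGp_b col z k).card ≤ Fintype.card V := by
  rw [← Finset.card_univ]
  refine Finset.card_le_card_of_injOn (fun p => p.1) (fun _ _ => mem_univ _) ?_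
  intro p hp p' hp' h
  have h1 := (mem_filter.1 hp).2
  have h2 := (mem_filter.1 hp').2
  refine Prod.ext h ?_
  rw [← par_eq col hcol k z p.2 h1.1 h1.2, ← par_eq col hcol k z p'.2 h2.1 h2.2]

theorem DGp_cle (col : Sym2 V → κ) (hcol : Proper col) (k : κ) :
    (DGp_c col k).card ≤ Fintype.card V := by
  rw [← Finset.card_univ]
  refine Finset.card_le_card_of_injOn (fun p => p.1) (fun _ _ => mem_univ _) ?_
  intro p hp p' hp' h
  have h1 := (mem_filter.1 hp).2
  have h2 := (mem_filter.1 hp').2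
  have h' : p.1 = p'.1 := h
  refine Prod.ext h ?_
  rw [← par_eq col hcol k p.1 p.2 h1.1.symm h1.2, ← par_eq col hcol k p'.1 p'.2 h2.1.symm h2.2, h']

/-- `ec ≤ n` (for every `x` at most one `y`), the two other terms of `infl` are at most `n`. -/
theorem infl_le (col : Sym2 V → κ) (hcol : Proper col) (z z' : V) (k : κ) :
    0 ≤ infl col z z' k ∧ infl col z z' k ≤ 3 * Fintype.card V := by
  rw [DGp_infl]
  have e1 : ((DGp_a col z k).card : ℝ) ≤ Fintype.card V := by exact_mod_cast DGp_ale col hcol z k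
  have e2 : ((DGp_b col z' k).card : ℝ) ≤ Fintype.card V := by exact_mod_cast DGp_ble col hcol z' k
  have e3 : ((DGp_c col k).card : ℝ) ≤ Fintype.card V := by exact_mod_cast DGp_cle col hcol k
  exact ⟨by positivity, by linarith⟩

theorem DGp_sum (H : Finset κ) (g : V × V → κ) (P : V × V → Prop) [DecidablePred P] :
    ∑ k ∈ H, (((univ.filter (fun p : V × V => P p ∧ g p = k)).card : ℕ) : ℝ) ≤
      (Fintype.card V : ℝ) ^ 2 := by
  have h1 : ∑ k ∈ H, (univ.filter (fun p : V × V => P p ∧ g p = k)).card ≤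
      (univ : Finset (V × V)).card := by
    rw [← Finset.card_biUnion]
    · exact card_le_card (subset_univ _)
    · intro k _ k' _ hkk
      rw [Function.onFun, Finset.disjoint_left]
      intro p hp hp'
      exact hkk ((mem_filter.1 hp).2.2.symm.trans (mem_filter.1 hp').2.2)
  rw [Finset.card_univ, Fintype.card_prod] at h1
  have h2 : ((∑ k ∈ H, (univ.filter (fun p : V × V => P p ∧ g p = k)).card : ℕ) : ℝ) ≤
      ((Fintype.card V * Fintype.card V : ℕ) : ℝ) := by exact_mod_cast h1
  push_cast at h2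
  rw [sq]
  exact h2

/-- `infl ≤ a + b + c`, `(a + b + c)² ≤ 3 (a² + b² + c²)`, `a, b, c ≤ n`, and the sums over `k` of `a`, `b`,
`c` are at most `n²` each. -/
theorem infl_var (col : Sym2 V → κ) (hcol : Proper col) (H : Finset κ) (z z' : V) :
    ∑ k ∈ H, infl col z z' k ^ 2 ≤ 9 * (Fintype.card V : ℝ) ^ 3 := by
  have n0 : (0 : ℝ) ≤ Fintype.card V := Nat.cast_nonneg _
  have sa : ∑ k ∈ H, ((DGp_a col z k).card : ℝ) ≤ (Fintype.card V : ℝ) ^ 2 :=
    DGp_sum H (fun p => col s(z, p.1)) (fun p => p.1 ≠ z)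
  have sb : ∑ k ∈ H, ((DGp_b col z' k).card : ℝ) ≤ (Fintype.card V : ℝ) ^ 2 :=
    DGp_sum H (fun p => col s(z', p.2)) (fun p => p.2 ≠ z')
  have sc : ∑ k ∈ H, ((DGp_c col k).card : ℝ) ≤ (Fintype.card V : ℝ) ^ 2 :=
    DGp_sum H (fun p => col s(p.1, p.2)) (fun p => p.1 ≠ p.2)
  have key : ∀ k ∈ H, infl col z z' k ^ 2 ≤ 3 * (Fintype.card V : ℝ) *
      ((DGp_a col z k).card + (DGp_b col z' k).card + (DGp_c col k).card) := by
    intro k _
    rw [DGp_infl]
    have e1 : ((DGp_a col z k).card : ℝ) ≤ Fintype.card V := by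
      exact_mod_cast DGp_ale col hcol z k
    have e2 : ((DGp_b col z' k).card : ℝ) ≤ Fintype.card V := by
      exact_mod_cast DGp_ble col hcol z' k
    have e3 : ((DGp_c col k).card : ℝ) ≤ Fintype.card V := by exact_mod_cast DGp_cle col hcol k
    set a : ℝ := ((DGp_a col z k).card : ℝ)
    set b : ℝ := ((DGp_b col z' k).card : ℝ)
    set c : ℝ := ((DGp_c col k).card : ℝ)
    have a0 : 0 ≤ a := Nat.cast_nonneg _
    have b0 : 0 ≤ b := Nat.cast_nonneg _
    have c0 : 0 ≤ c := Nat.cast_nonneg _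
    have h1 : (a + b + c) ≤ 3 * (Fintype.card V : ℝ) := by linarith
    calc (a + b + c) ^ 2 = (a + b + c) * (a + b + c) := sq _
      _ ≤ 3 * (Fintype.card V : ℝ) * (a + b + c) :=
        mul_le_mul_of_nonneg_right h1 (by linarith)
  refine (Finset.sum_le_sum key).trans ?_
  rw [← Finset.mul_sum, Finset.sum_add_distrib, Finset.sum_add_distrib]
  have h2 : ∑ k ∈ H, ((DGp_a col z k).card : ℝ) + ∑ k ∈ H, ((DGp_b col z' k).card : ℝ) +
      ∑ k ∈ H, ((DGp_c col k).card : ℝ) ≤ 3 * (Fintype.card V : ℝ) ^ 2 := by linarith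
  calc _ ≤ 3 * (Fintype.card V : ℝ) * (3 * (Fintype.card V : ℝ) ^ 2) :=
        mul_le_mul_of_nonneg_left h2 (by linarith)
    _ = 9 * (Fintype.card V : ℝ) ^ 3 := by ring

/-- The pairs which are good with positive probability. -/
def DGp_G (col : Sym2 V → κ) (H : Finset κ) (z z' : V) : Finset (V × V) :=
  univ.filter (fun p => p.1 ≠ p.2 ∧ p.1 ≠ z ∧ p.1 ≠ z' ∧ p.2 ≠ z ∧ p.2 ≠ z' ∧
    col s(z, p.1) ∈ H ∧ col s(z', p.2) ∈ H ∧ col s(z, p.1) ≠ col s(z', p.2))

theorem DGp_prob (col : Sym2 V → κ) (hcol : Proper col) (θ : ℝ) (h0 : 0 ≤ θ) (h1 : θ ≤ 1)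
    (H : Finset κ) (z z' : V) {p : V × V} (hp : p ∈ DGp_G col H z z') :
    θ ^ 2 * (1 - θ) ≤ ex θ H (fun A => if p ∈ gp col A z z' then (1 : ℝ) else 0) := by
  classical
  unfold DGp_G at hp
  rw [mem_filter] at hp
  obtain ⟨-, p1, p2, p3, p4, p5, p6, p7, p8⟩ := hp
  set I : Finset κ := {col s(z, p.1), col s(z', p.2)} with hI
  set O : Finset κ := {col s(p.1, p.2)} ∩ H with hO
  have c1 : col s(p.1, p.2) ≠ col s(z, p.1) := by
    intro h
    exact hcol p.1 p.2 z p1 p2 p4 (by rw [h, Sym2.eq_swap])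
  have c2 : col s(p.1, p.2) ≠ col s(z', p.2) := by
    intro h
    exact hcol p.2 p.1 z' p1.symm p5 p3 (by rw [Sym2.eq_swap, h, Sym2.eq_swap])
  have hIH : I ⊆ H := by
    intro k hk
    rw [hI, mem_insert, mem_singleton] at hk
    rcases hk with rfl | rfl
    · exact p6
    · exact p7
  have hOH : O ⊆ H := inter_subset_right
  have hIO : Disjoint I O := by
    rw [Finset.disjoint_left]
    intro k hk hk'
    rw [hO, mem_inter, mem_singleton] at hk'
    rw [hI, mem_insert, mem_singleton] at hk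
    rcases hk with h | h
    · exact c1 (hk'.1.symm.trans h)
    · exact c2 (hk'.1.symm.trans h)
  have e1 : ex θ H (fun A => if p ∈ gp col A z z' then (1 : ℝ) else 0) =
      ex θ H (fun A => if I ⊆ A ∧ Disjoint O A then 1 else 0) := by
    apply ex_congr
    intro A hA
    have hiff : p ∈ gp col A z z' ↔ I ⊆ A ∧ Disjoint O A := by
      unfold gp
      rw [mem_filter]
      constructor
      · rintro ⟨-, -, -, -, -, -, q6, q7, -, q9⟩
        refine ⟨?_, ?_⟩
        · intro k hk
          rw [hI, mem_insert, mem_singleton] at hk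
          rcases hk with rfl | rfl
          · exact q6
          · exact q7
        · rw [Finset.disjoint_left]
          intro k hk hk'
          rw [hO, mem_inter, mem_singleton] at hk
          rw [hk.1] at hk'
          exact q9 hk'
      · rintro ⟨q1, q2⟩
        refine ⟨mem_univ _, p1, p2, p3, p4, p5, q1 ?_, q1 ?_, p8, ?_⟩
        · rw [hI]
          exact mem_insert_self _ _
        · rw [hI]
          exact mem_insert_of_mem (mem_singleton_self _)
        · intro h
          exact Finset.disjoint_left.1 q2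
            (by rw [hO]; exact mem_inter.2 ⟨mem_singleton_self _, hA h⟩) h
    simp only [hiff]
  have e2 : I.card = 2 := Finset.card_pair p8
  have e3 : O.card ≤ 1 := by
    refine (card_le_card inter_subset_left).trans ?_
    rw [card_singleton]
  rw [e1, ex_ind θ H I O hIH hOH hIO, e2]
  refine mul_le_mul_of_nonneg_left ?_ (sq_nonneg θ)
  have h2 : (1 - θ) ^ 1 ≤ (1 - θ) ^ O.card :=
    pow_le_pow_of_le_one (by linarith) (by linarith) e3
  rwa [pow_one] at h2

theorem DGp_count (col : Sym2 V → κ) (hcol : Proper col) (H : Finset κ) (d : ℕ)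
    (hd : ∀ x, d ≤ dC col H x) (z z' : V) :
    (d - 3) * (d - 3) ≤ (DGp_G col H z z').card := by
  classical
  set Xs : Finset V := (univ.filter (fun y => y ≠ z ∧ col s(z, y) ∈ H)) \ {z'} with hXs
  set Ys : V → Finset V := fun x => (univ.filter (fun y => y ≠ z' ∧ col s(z', y) ∈ H)) \
    {z, x, par col (col s(z, x)) z'} with hYs
  have hX : d - 3 ≤ Xs.card := by
    have h1 := Finset.le_card_sdiff {z'} (univ.filter (fun y => y ≠ z ∧ col s(z, y) ∈ H))
    have h2 : d ≤ (univ.filter (fun y => y ≠ z ∧ col s(z, y) ∈ H)).card := hd z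
    rw [card_singleton] at h1
    rw [hXs]
    omega
  have hY : ∀ x, d - 3 ≤ (Ys x).card := by
    intro x
    have h1 := Finset.le_card_sdiff {z, x, par col (col s(z, x)) z'}
      (univ.filter (fun y => y ≠ z' ∧ col s(z', y) ∈ H))
    have h2 : d ≤ (univ.filter (fun y => y ≠ z' ∧ col s(z', y) ∈ H)).card := hd z'
    have h3 : ({z, x, par col (col s(z, x)) z'} : Finset V).card ≤ 3 := Finset.card_le_three
    rw [hYs]
    simp only
    omega
  have h4 : (d - 3) * (d - 3) ≤ (Xs.sigma Ys).card := by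
    rw [Finset.card_sigma]
    calc (d - 3) * (d - 3) ≤ Xs.card * (d - 3) := Nat.mul_le_mul_right _ hX
      _ = ∑ _x ∈ Xs, (d - 3) := by rw [Finset.sum_const, smul_eq_mul]
      _ ≤ _ := Finset.sum_le_sum fun x _ => hY x
  refine h4.trans ?_
  refine Finset.card_le_card_of_injOn (fun s => (s.1, s.2)) ?_ ?_
  · rintro ⟨x, y⟩ hs
    have hs' := Finset.mem_sigma.1 hs
    have hx := hs'.1
    have hy := hs'.2
    simp only [hXs, hYs, mem_sdiff, mem_filter, mem_univ, true_and, mem_singleton, mem_insert,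
      not_or] at hx hy
    refine mem_filter.2 ⟨mem_univ _, ?_, hx.1.1, hx.2, hy.2.1, hy.1.1, hx.1.2, hy.1.2, ?_⟩
    · exact fun h => hy.2.2.1 h.symm
    · intro h
      apply hy.2.2.2
      exact (par_eq col hcol (col s(z, x)) z' y hy.1.1 h.symm).symm
  · rintro ⟨x, y⟩ _ ⟨x', y'⟩ _ h
    have h1 : x = x' := congrArg Prod.fst h
    have h2 : y = y' := congrArg Prod.snd h
    subst h1
    subst h2
    rfl

/-- The expected number of good pairs: for `x ∈ N_H(z) \ {z'}` and `y ∈ N_H(z') \ {z, x}` with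
`col s(z, x) ≠ col s(z', y)` the probability is `θ² (1 - θ)` or `θ²` (`ex_ind` with
`I = {col s(z, x), col s(z', y)}` and `O = {col s(x, y)} ∩ H`; the three colours are distinct by properness);
for every `x` at most three of the `d` possible `y` are excluded. -/
theorem gp_ex (col : Sym2 V → κ) (hcol : Proper col) (θ : ℝ) (h0 : 0 ≤ θ) (h1 : θ ≤ 1)
    (H : Finset κ) (d : ℕ) (h3 : 3 ≤ d) (hd : ∀ x, d ≤ dC col H x) (z z' : V) (hz : z ≠ z') :
    θ ^ 2 * (1 - θ) * ((d : ℝ) - 3) ^ 2 ≤ ex θ H (fun A => ((gp col A z z').card : ℝ)) := by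
  have e1 : ex θ H (fun A => ((gp col A z z').card : ℝ)) =
      ∑ p : V × V, ex θ H (fun A => if p ∈ gp col A z z' then (1 : ℝ) else 0) := by
    rw [← ex_sum θ H univ (fun p A => if p ∈ gp col A z z' then (1 : ℝ) else 0)]
    congr 1
    funext A
    rw [Finset.sum_ite_mem, Finset.univ_inter, Finset.sum_const, nsmul_eq_mul, mul_one]
  have e2 : ∀ p : V × V, 0 ≤ ex θ H (fun A => if p ∈ gp col A z z' then (1 : ℝ) else 0) := by
    intro p
    have h := ex_mono θ h0 h1 H (fun _ => 0) (fun A => if p ∈ gp col A z z' then (1 : ℝ) else 0)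
      (fun A _ => by
        show (0 : ℝ) ≤ if p ∈ gp col A z z' then (1 : ℝ) else 0
        split_ifs
        · exact zero_le_one
        · exact le_rfl)
    rwa [ex_const] at h
  have e3 : ∑ p ∈ DGp_G col H z z', θ ^ 2 * (1 - θ) ≤
      ∑ p : V × V, ex θ H (fun A => if p ∈ gp col A z z' then (1 : ℝ) else 0) :=
    (Finset.sum_le_sum fun p hp => DGp_prob col hcol θ h0 h1 H z z' hp).trans
      (Finset.sum_le_sum_of_subset_of_nonneg (Finset.subset_univ _) fun p _ _ => e2 p)
  rw [e1]
  refine le_trans ?_ e3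
  rw [Finset.sum_const, nsmul_eq_mul, mul_comm]
  refine mul_le_mul_of_nonneg_right ?_ (mul_nonneg (sq_nonneg θ) (by linarith))
  have h5 := DGp_count col hcol H d hd z z'
  have h6 : (((d - 3) * (d - 3) : ℕ) : ℝ) ≤ ((DGp_G col H z z').card : ℝ) := by exact_mod_cast h5
  rw [Nat.cast_mul, Nat.cast_sub h3] at h6
  rw [sq]
  exact_mod_cast h6

end Pool.Agent.W_cd7020_h81d
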