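import Pool.Agent.W_cd7020_h81d.DMrg

/-!
# Merging until there are few components
-/

set_option autoImplicit false

namespace Pool.Agent.W_cd7020_h81d

open Finset Pool.Agent.W_cd7020_h81 Pool.Agent.W_cd7020_h81b

variable {V κ : Type*} [DecidableEq V] [DecidableEq κ] [Fintype V]

/-- Each step loses at most one arc (`Arcs.colr`: different arcs have different edges). -/
theorem lostA_step (col : Sym2 V → κ) (A : Finset κ) (Q : Finset (V × V)) (T : ℕ)
    (hQ : Arcs col A Q T) (F F' : Finset (Sym2 V)) :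
    lostA Q F' ≤ lostA Q F + (F \ F').card := by
  unfold lostA
  have h1 : Q.filter (fun a => s(a.1, a.2) ∉ F') ⊆
      Q.filter (fun a => s(a.1, a.2) ∉ F) ∪ Q.filter (fun a => s(a.1, a.2) ∈ F \ F') := by
    intro a ha
    rw [mem_filter] at ha
    rw [mem_union, mem_filter, mem_filter]
    by_cases h : s(a.1, a.2) ∈ F
    · exact Or.inr ⟨ha.1, mem_sdiff.2 ⟨h, ha.2⟩⟩
    · exact Or.inl ⟨ha.1, h⟩
  have h2 : (Q.filter (fun a => s(a.1, a.2) ∈ F \ F')).card ≤ (F \ F').card := by
    refine card_le_card_of_injOn (fun a => s(a.1, a.2)) ?_ ?_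
    · intro a ha
      exact (mem_filter.1 (mem_coe.1 ha)).2
    · intro a ha a' ha' h
      have h3 : s(a.1, a.2) = s(a'.1, a'.2) := h
      exact hQ.colr a (mem_filter.1 (mem_coe.1 ha)).1 a' (mem_filter.1 (mem_coe.1 ha')).1
        (by rw [h3])
  exact (card_le_card h1).trans ((card_union_le _ _).trans (Nat.add_le_add_left h2 _))

/-- Merging until there are at most `K₁` components. Induction on `n - |F|`: if `n - |F| > K₁` use `merge_one`
(`arcs_left`); the quantity `lostA Q F + 2 |A ∩ (cE F ∪ G)| + 5 (n - |F|)` does not increase. -/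
theorem merge_all (col : Sym2 V → κ) (hcol : Proper col) (A G : Finset κ) (Q : Finset (V × V))
    (T : ℕ) (hQ : Arcs col A Q T) (ℓ K₁ : ℕ) (hK : 2 * Fintype.card V < K₁ * (ℓ + 1)) :
    ∀ (q : ℕ) (F : Finset (Sym2 V)), LF univ F → Rb col F → F.card + q = Fintype.card V →
    lostA Q F + 2 * (A ∩ (cE col F ∪ G)).card + 5 * q + 2 * ℓ < T →
    ∃ F' : Finset (Sym2 V), LF univ F' ∧ Rb col F' ∧ Fintype.card V ≤ F'.card + K₁ ∧
      F.card ≤ F'.card ∧ (∀ e ∈ F', e ∉ F → col e ∈ A ∧ col e ∉ G) ∧ (F \ F').card ≤ q ∧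
      (F' \ F).card ≤ 2 * q := by
  intro q
  induction q with
  | zero =>
    intro F hF hr hn _
    exact ⟨F, hF, hr, by omega, le_rfl, fun e he hne => absurd he hne, by simp, by simp⟩
  | succ q ih =>
    intro F hF hr hn hlt
    rcases le_or_gt (q + 1) K₁ with hq | hq
    · exact ⟨F, hF, hr, by omega, le_rfl, fun e he hne => absurd he hne, by simp, by simp⟩
    · have hsub : Fintype.card V - F.card - 1 = q := by omega
      obtain ⟨F1, h1, h2, h3, h4, h5, h6⟩ := merge_one col hcol A G Q T hQ F hF hr ℓ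
        (by
          rw [hsub]
          exact hK.trans_le (Nat.mul_le_mul_right _ (by omega)))
        (by
          intro z z' hz
          have := arcs_left col hcol A (cE col F ∪ G) Q T hQ F z z' hz
          convert! (show 2 * ℓ < ((Q ∩ gp col A z z').filter (fun a => s(a.1, a.2) ∈ F ∧
            col s(z, a.1) ∉ cE col F ∪ G ∧ col s(z', a.2) ∉ cE col F ∪ G)).card by omega))
      have h7 : (A ∩ (cE col F1 ∪ G)).card ≤ (A ∩ (cE col F ∪ G)).card + 2 := by
        have h8 : A ∩ (cE col F1 ∪ G) ⊆ (A ∩ (cE col F ∪ G)) ∪ (F1 \ F).image col := by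
          intro k hk
          rw [mem_inter, mem_union] at hk
          rw [mem_union, mem_inter, mem_union]
          rcases hk.2 with hk2 | hk2
          · unfold cE at hk2
            obtain ⟨e, he, hek⟩ := mem_image.1 hk2
            by_cases heF : e ∈ F
            · exact Or.inl ⟨hk.1, Or.inl (mem_image.2 ⟨e, heF, hek⟩)⟩
            · exact Or.inr (mem_image.2 ⟨e, mem_sdiff.2 ⟨he, heF⟩, hek⟩)
          · exact Or.inl ⟨hk.1, Or.inr hk2⟩
        refine (card_le_card h8).trans ((card_union_le _ _).trans (Nat.add_le_add_left ?_ _))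
        exact card_image_le.trans h6
      have h9 := lostA_step col A Q T hQ F F1
      obtain ⟨F2, g1, g2, g3, g4, g5, g6, g7⟩ := ih F1 h1 h3 (by omega) (by omega)
      refine ⟨F2, g1, g2, g3, by omega, ?_, ?_, ?_⟩
      · intro e he hne
        by_cases he1 : e ∈ F1
        · exact h4 e he1 hne
        · exact g5 e he he1
      · have h10 : F \ F2 ⊆ (F \ F1) ∪ (F1 \ F2) := by
          intro e he
          rw [mem_sdiff] at he
          rw [mem_union, mem_sdiff, mem_sdiff]
          by_cases he1 : e ∈ F1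
          · exact Or.inr ⟨he1, he.2⟩
          · exact Or.inl ⟨he.1, he1⟩
        have h11 := (card_le_card h10).trans (card_union_le _ _)
        omega
      · have h10 : F2 \ F ⊆ (F2 \ F1) ∪ (F1 \ F) := by
          intro e he
          rw [mem_sdiff] at he
          rw [mem_union, mem_sdiff, mem_sdiff]
          by_cases he1 : e ∈ F1
          · exact Or.inr ⟨he1, he.2⟩
          · exact Or.inl ⟨he.1, he1⟩
        have h11 := (card_le_card h10).trans (card_union_le _ _)
        omega

end Pool.Agent.W_cd7020_h81d
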