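import Pool.Agent.W_cd7020_h81.Join
import Pool.Agent.W_cd7020_h81.Four

/-!
# Segments of a linear forest
-/

set_option autoImplicit false

namespace Pool.Agent.W_cd7020_h81d

open Finset Pool.Agent.W_cd7020_h81

theorem DSeg_aux {α : Type*} (ℓ : ℕ) : ∀ (L : List (List α)) (a : List α),
    (∃ A P P' B, a :: L = A ++ P :: P' :: B ∧ P.length + P'.length ≤ ℓ) ∨
      L.length * (ℓ + 1) + a.length ≤ 2 * (a :: L).flatten.length
  | [], a => Or.inr (by simp; omega)
  | b :: L, a => by
    rcases DSeg_aux ℓ L b with ⟨A, P, P', B, h1, h2⟩ | h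
    · exact Or.inl ⟨a :: A, P, P', B, by rw [h1]; rfl, h2⟩
    · by_cases h1 : a.length + b.length ≤ ℓ
      · exact Or.inl ⟨[], a, b, L, rfl, h1⟩
      · right
        have h2 : (a :: b :: L).flatten.length = a.length + (b :: L).flatten.length := by
          rw [List.flatten_cons, List.length_append]
        rw [h2, List.length_cons, add_mul]
        omega

/-- Two adjacent short lists: induction on `L`, two lists at a time. -/
theorem two_short {α : Type*} (ℓ : ℕ) : ∀ L : List (List α),
    2 * L.flatten.length < (L.length - 1) * (ℓ + 1) →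
    ∃ A P P' B, L = A ++ P :: P' :: B ∧ P.length + P'.length ≤ ℓ := by
  intro L hL
  rcases L with _ | ⟨a, L⟩
  · simp at hL
  · rcases DSeg_aux ℓ L a with h | h
    · exact h
    · rw [List.length_cons, Nat.add_sub_cancel] at hL
      omega

/-- The new list. The arc is in `C` (before or after the two segments), in one of the two
directions: `C = l₁ ++ x :: y :: l₂` becomes `l₁ ++ x :: P ++ P' ++ y :: l₂` (new pairs `s(x, z)`, `s(z', y)` where `z` is
the first element of `P`, `z'` the last of `P'`), and `C = l₁ ++ y :: x :: l₂` becomes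
`l₁ ++ y :: P'.reverse ++ P.reverse ++ x :: l₂`. Lost are the pair `s(x, y)` and pairs which are not in `pe C`,
`pe P`, `pe P'`. -/
theorem insert_two {V : Type*} [DecidableEq V] (C P P' : List V) (hP : P ≠ []) (hP' : P' ≠ [])
    (x y : V) (hxy : s(x, y) ∈ pe C) :
    ∃ C' : List V, C'.Perm (C ++ P ++ P') ∧
      (∀ e, e ∈ pe C → e ≠ s(x, y) → e ∈ pe C') ∧ (∀ e ∈ pe P, e ∈ pe C') ∧
      (∀ e ∈ pe P', e ∈ pe C') ∧ s(P.head hP, x) ∈ pe C' ∧ s(P'.getLast hP', y) ∈ pe C' := by
  obtain ⟨l₁, a, b, l₂, rfl, he⟩ := (mem_pe C _).1 hxy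
  have hpr : P.reverse ≠ [] := by simpa using hP
  have hpr' : P'.reverse ≠ [] := by simpa using hP'
  rcases Sym2.eq_iff.1 he with ⟨rfl, rfl⟩ | ⟨rfl, rfl⟩
  · have h4 := pe_four (l₁ ++ [x]) P P' (y :: l₂) (by simp) hP hP' (by simp)
    refine ⟨l₁ ++ [x] ++ P ++ P' ++ y :: l₂, ?_, ?_, ?_, ?_, ?_, ?_⟩
    · have e1 : l₁ ++ x :: y :: l₂ ++ P ++ P' = (l₁ ++ [x]) ++ (y :: l₂ ++ (P ++ P')) := by simp
      have e2 : l₁ ++ [x] ++ P ++ P' ++ y :: l₂ = (l₁ ++ [x]) ++ ((P ++ P') ++ y :: l₂) := by simp
      rw [e1, e2]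
      exact List.Perm.append_left _ List.perm_append_comm
    · intro e h1 h2
      rw [pe_append, List.mem_append, List.mem_cons] at h1
      rw [h4]
      rcases h1 with h1 | h1 | h1
      · exact Or.inl h1
      · exact absurd h1 h2
      · exact Or.inr (Or.inr (Or.inr (Or.inl h1)))
    · intro e h1
      rw [h4]
      exact Or.inr (Or.inl h1)
    · intro e h1
      rw [h4]
      exact Or.inr (Or.inr (Or.inl h1))
    · rw [h4]
      right; right; right; right; left
      rw [List.getLast_append_singleton, Sym2.eq_swap]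
    · rw [h4]
      right; right; right; right; right; right
      rw [List.head_cons]
  · have h4 := pe_four (l₁ ++ [y]) P'.reverse P.reverse (x :: l₂) (by simp) hpr' hpr (by simp)
    refine ⟨l₁ ++ [y] ++ P'.reverse ++ P.reverse ++ x :: l₂, ?_, ?_, ?_, ?_, ?_, ?_⟩
    · have e1 : l₁ ++ y :: x :: l₂ ++ P ++ P' = (l₁ ++ [y]) ++ (x :: l₂ ++ (P ++ P')) := by simp
      have e2 : l₁ ++ [y] ++ P'.reverse ++ P.reverse ++ x :: l₂ =
          (l₁ ++ [y]) ++ ((P ++ P').reverse ++ x :: l₂) := by simp
      rw [e1, e2]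
      refine List.Perm.append_left _ ?_
      exact List.perm_append_comm.trans (List.Perm.append_left _ (List.reverse_perm _))
    · intro e h1 h2
      rw [pe_append, List.mem_append, List.mem_cons] at h1
      rw [h4]
      rcases h1 with h1 | h1 | h1
      · exact Or.inl h1
      · exact absurd (h1.trans Sym2.eq_swap) h2
      · exact Or.inr (Or.inr (Or.inr (Or.inl h1)))
    · intro e h1
      rw [h4, mem_pe_reverse, mem_pe_reverse]
      exact Or.inr (Or.inr (Or.inl h1))
    · intro e h1
      rw [h4, mem_pe_reverse, mem_pe_reverse]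
      exact Or.inr (Or.inl h1)
    · rw [h4]
      right; right; right; right; right; right
      rw [List.head_cons, List.getLast_reverse]
    · rw [h4]
      right; right; right; right; left
      rw [List.getLast_append_singleton, List.head_reverse, Sym2.eq_swap]

theorem DSeg_cut {V : Type*} [DecidableEq V] : ∀ L : List (List V), L.flatten.Nodup → (∀ l ∈ L, l ≠ []) →
    (L.map pe).flatten.Nodup ∧ (L.map pe).flatten.length + L.length = L.flatten.length
  | [], _, _ => by simp
  | l :: L, hn, h0 => by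
    rw [List.flatten_cons, List.nodup_append] at hn
    obtain ⟨hl, hL, hd⟩ := hn
    obtain ⟨h1, h2⟩ := DSeg_cut L hL fun l' hl' => h0 l' (List.mem_cons_of_mem _ hl')
    rw [List.map_cons, List.flatten_cons, List.nodup_append]
    refine ⟨⟨pe_nodup l hl, h1, ?_⟩, ?_⟩
    · intro e he e' he' hee
      subst hee
      rw [List.mem_flatten] at he'
      obtain ⟨m, hm, hem⟩ := he'
      obtain ⟨l', hl', rfl⟩ := List.mem_map.1 hm
      induction e using Sym2.ind with
      | _ u v =>
        have h3 := Pe_mem l _ he u (Sym2.mem_mk_left u v)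
        have h4 := Pe_mem l' _ hem u (Sym2.mem_mk_left u v)
        exact hd u h3 u (List.mem_flatten.2 ⟨l', hl', h4⟩) rfl
    · have h3 : 0 < l.length := List.length_pos_iff.2 (h0 l List.mem_cons_self)
      rw [List.length_append, List.flatten_cons, List.length_append, pe_length, List.length_cons]
      omega

/-- The segments of `F` (`Join_seg`): their number is `n - |F|`. -/
theorem segments {V : Type*} [DecidableEq V] [Fintype V] (F : Finset (Sym2 V)) (hF : LF univ F) :
    ∃ L : List (List V), L.flatten.Nodup ∧ (∀ v, v ∈ L.flatten) ∧ (∀ l ∈ L, l ≠ []) ∧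
      (∀ e ∈ F, ∃ l ∈ L, e ∈ pe l) ∧ L.length + F.card = Fintype.card V := by
  obtain ⟨Q, hQ, hU, hE⟩ := hF
  obtain ⟨L, hL, hseg, hcov⟩ := Join_seg F Q
  have hn : L.flatten.Nodup := by
    rw [hL]
    exact hQ
  obtain ⟨h1, h2⟩ := DSeg_cut L hn fun l hl => (hseg l hl).1
  refine ⟨L, hn, fun v => ?_, fun l hl => (hseg l hl).1, fun e he => hcov e (hE e he) he, ?_⟩
  · rw [hL, hU]
    exact mem_univ v
  · have h3 : (L.map pe).flatten.toFinset = F := by
      ext e
      rw [List.mem_toFinset, List.mem_flatten]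
      constructor
      · rintro ⟨m, hm, hem⟩
        obtain ⟨l, hl, rfl⟩ := List.mem_map.1 hm
        exact (hseg l hl).2 e hem
      · intro he
        obtain ⟨l, hl, hel⟩ := hcov e (hE e he) he
        exact ⟨pe l, List.mem_map.2 ⟨l, hl, rfl⟩, hel⟩
    have h4 : F.card = (L.map pe).flatten.length := by
      rw [← h3, List.toFinset_card_of_nodup h1]
    have h5 : L.flatten.length = Fintype.card V := by
      rw [hL, LFa_length hQ hU, card_univ]
    omega

end Pool.Agent.W_cd7020_h81d
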