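import Pool.Agent.W_cd7020_h81d.DDefs
import Pool.Agent.W_cd7020_h81d.DSeg
import Pool.Agent.W_cd7020_h81b.Par

/-!
# Merging two short components
-/

set_option autoImplicit false

namespace Pool.Agent.W_cd7020_h81d

open Finset Pool.Agent.W_cd7020_h81 Pool.Agent.W_cd7020_h81b

variable {V κ : Type*} [DecidableEq V] [DecidableEq κ] [Fintype V]

omit [DecidableEq κ] [Fintype V] in
theorem DMrg_mem {l : List V} {x y : V} (h : s(x, y) ∈ pe l) : x ∈ l ∧ y ∈ l := by
  obtain ⟨l₁, a, b, l₂, rfl, h2⟩ := (mem_pe _ _).1 h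
  rcases Sym2.eq_iff.1 h2 with ⟨rfl, rfl⟩ | ⟨rfl, rfl⟩ <;> simp

omit [DecidableEq κ] [Fintype V] in
/-- The new list. -/
theorem DMrg_list (L₁ L₂ : List (List V)) (P P' : List V) (hP : P ≠ []) (hP' : P' ≠ [])
    (hnd : (L₁ ++ P :: P' :: L₂).flatten.Nodup) (hall : ∀ v, v ∈ (L₁ ++ P :: P' :: L₂).flatten)
    (x y : V) (hxP : x ∉ P) (hxP' : x ∉ P') (l : List V) (hl : l ∈ L₁ ++ P :: P' :: L₂)
    (hxy : s(x, y) ∈ pe l) :
    ∃ Q : List V, Q.Nodup ∧ (∀ v, v ∈ Q) ∧
      (∀ e, (∃ l ∈ L₁ ++ P :: P' :: L₂, e ∈ pe l) → e ≠ s(x, y) → e ∈ pe Q) ∧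
      s(P.head hP, x) ∈ pe Q ∧ s(P'.getLast hP', y) ∈ pe Q := by
  have hx := (DMrg_mem hxy).1
  have hl' : l ∈ L₁ ∨ l ∈ L₂ := by
    rw [List.mem_append, List.mem_cons, List.mem_cons] at hl
    rcases hl with h | rfl | rfl | h
    · exact Or.inl h
    · exact absurd hx hxP
    · exact absurd hx hxP'
    · exact Or.inr h
  have hfl : (L₁ ++ P :: P' :: L₂).flatten = L₁.flatten ++ (P ++ (P' ++ L₂.flatten)) := by
    rw [List.flatten_append, List.flatten_cons, List.flatten_cons]
  rw [hfl] at hnd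
  have hall' : ∀ v, v ∈ L₁.flatten ++ (P ++ (P' ++ L₂.flatten)) := fun v => hfl ▸ hall v
  rcases hl' with hl' | hl'
  · obtain ⟨C, hC, h1, h2, h3, h4, h5⟩ := insert_two L₁.flatten P P' hP hP' x y
      (Join_mem_flatten hl' hxy)
    have hperm : (C ++ L₂.flatten).Perm (L₁.flatten ++ (P ++ (P' ++ L₂.flatten))) := by
      have h6 := hC.append_right L₂.flatten
      simpa [List.append_assoc] using h6
    refine ⟨C ++ L₂.flatten, hperm.nodup_iff.2 hnd, fun v => hperm.mem_iff.2 (hall' v), ?_,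
      mem_pe_left _ _ _ h4, mem_pe_left _ _ _ h5⟩
    rintro e ⟨l₀, hl₀, he⟩ hne
    rw [List.mem_append, List.mem_cons, List.mem_cons] at hl₀
    rcases hl₀ with h | rfl | rfl | h
    · exact mem_pe_left _ _ _ (h1 e (Join_mem_flatten h he) hne)
    · exact mem_pe_left _ _ _ (h2 e he)
    · exact mem_pe_left _ _ _ (h3 e he)
    · exact mem_pe_right _ _ _ (Join_mem_flatten h he)
  · obtain ⟨C, hC, h1, h2, h3, h4, h5⟩ := insert_two L₂.flatten P P' hP hP' x y
      (Join_mem_flatten hl' hxy)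
    have hperm : (L₁.flatten ++ C).Perm (L₁.flatten ++ (P ++ (P' ++ L₂.flatten))) := by
      have h6 := hC.append_left L₁.flatten
      refine h6.trans (List.Perm.append_left _ ?_)
      rw [List.append_assoc, ← List.append_assoc P P' L₂.flatten]
      exact List.perm_append_comm
    refine ⟨L₁.flatten ++ C, hperm.nodup_iff.2 hnd, fun v => hperm.mem_iff.2 (hall' v), ?_,
      mem_pe_right _ _ _ h4, mem_pe_right _ _ _ h5⟩
    rintro e ⟨l₀, hl₀, he⟩ hne
    rw [List.mem_append, List.mem_cons, List.mem_cons] at hl₀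
    rcases hl₀ with h | rfl | rfl | h
    · exact mem_pe_left _ _ _ (Join_mem_flatten h he)
    · exact mem_pe_right _ _ _ (h2 e he)
    · exact mem_pe_right _ _ _ (h3 e he)
    · exact mem_pe_right _ _ _ (h1 e (Join_mem_flatten h he) hne)

omit [DecidableEq κ] [Fintype V] in
/-- The number of arcs which meet a small set. -/
theorem DMrg_meet (S : Finset (V × V)) (h1 : ∀ a ∈ S, ∀ a' ∈ S, a.1 = a'.1 → a = a')
    (h2 : ∀ a ∈ S, ∀ a' ∈ S, a.2 = a'.2 → a = a') (W : Finset V) (hS : 2 * W.card < S.card) :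
    ∃ a ∈ S, a.1 ∉ W ∧ a.2 ∉ W := by
  by_contra hcon
  push Not at hcon
  have h3 : S ⊆ S.filter (fun a => a.1 ∈ W) ∪ S.filter (fun a => a.2 ∈ W) := by
    intro a ha
    rw [Finset.mem_union, Finset.mem_filter, Finset.mem_filter]
    by_cases h : a.1 ∈ W
    · exact Or.inl ⟨ha, h⟩
    · exact Or.inr ⟨ha, hcon a ha h⟩
  have h4 : (S.filter (fun a => a.1 ∈ W)).card ≤ W.card := by
    refine Finset.card_le_card_of_injOn (fun a => a.1) (fun a ha => (Finset.mem_filter.1 ha).2) ?_
    intro a ha a' ha' h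
    exact h1 a (Finset.mem_filter.1 ha).1 a' (Finset.mem_filter.1 ha').1 h
  have h5 : (S.filter (fun a => a.2 ∈ W)).card ≤ W.card := by
    refine Finset.card_le_card_of_injOn (fun a => a.2) (fun a ha => (Finset.mem_filter.1 ha).2) ?_
    intro a ha a' ha' h
    exact h2 a (Finset.mem_filter.1 ha).1 a' (Finset.mem_filter.1 ha').1 h
  have h6 := (Finset.card_le_card h3).trans (Finset.card_union_le _ _)
  omega

open Classical in
/-- One more edge. `segments`, `two_short`: `P`, `P'` adjacent with `|P| + |P'| ≤ ℓ`, `z` the first element of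
`P`, `z'` the last of `P'`. At most `2 ℓ` arcs of `Q` meet `P ∪ P'` (`Arcs.out`, `Arcs.inn`), so there is an
arc `(x, y)` as in `hT` which does not. The edge `s(x, y)` is in one of the other segments; `insert_two`
with `C` the concatenation of the segments before `P` and after `P'`, respectively; put the rest before or after
it. `F' = F.erase s(x, y) ∪ {s(z, x), s(z', y)}`. -/
theorem merge_one (col : Sym2 V → κ) (hcol : Proper col) (A G : Finset κ) (Q : Finset (V × V))
    (T : ℕ) (hQ : Arcs col A Q T) (F : Finset (Sym2 V)) (hF : LF univ F) (hr : Rb col F) (ℓ : ℕ)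
    (hℓ : 2 * Fintype.card V < (Fintype.card V - F.card - 1) * (ℓ + 1))
    (hT : ∀ z z', z ≠ z' → 2 * ℓ < ((Q ∩ gp col A z z').filter (fun a => s(a.1, a.2) ∈ F ∧
      col s(z, a.1) ∉ cE col F ∪ G ∧ col s(z', a.2) ∉ cE col F ∪ G)).card) :
    ∃ F' : Finset (Sym2 V), LF univ F' ∧ F'.card = F.card + 1 ∧ Rb col F' ∧
      (∀ e ∈ F', e ∉ F → col e ∈ A ∧ col e ∉ G) ∧ (F \ F').card ≤ 1 ∧ (F' \ F).card ≤ 2 := by
  obtain ⟨L, hnd, hall, hne, hseg, hLc⟩ := segments F hF
  have hlen : L.flatten.length = Fintype.card V := by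
    have h1 : L.flatten.toFinset = (univ : Finset V) := by
      ext v
      simp [List.mem_toFinset, hall v]
    rw [← List.toFinset_card_of_nodup hnd, h1, Finset.card_univ]
  obtain ⟨L₁, P, P', L₂, hL, hPP⟩ := two_short ℓ L (by
    rw [hlen]
    have h1 : L.length - 1 = Fintype.card V - F.card - 1 := by omega
    rw [h1]
    exact hℓ)
  have hPL : P ∈ L := by
    rw [hL]
    simp
  have hPL' : P' ∈ L := by
    rw [hL]
    simp
  have hP : P ≠ [] := hne P hPL
  have hP' : P' ≠ [] := hne P' hPL'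
  set z := P.head hP with hz
  set z' := P'.getLast hP' with hz'
  have hzP : z ∈ P := List.head_mem hP
  have hzP' : z' ∈ P' := List.getLast_mem hP'
  have hnd2 : (P ++ (P' ++ L₂.flatten)).Nodup := by
    rw [hL, List.flatten_append, List.flatten_cons, List.flatten_cons] at hnd
    exact (List.nodup_append.1 hnd).2.1
  have hzz : z ≠ z' :=
    (List.nodup_append.1 hnd2).2.2 z hzP z' (List.mem_append_left _ hzP')
  set S := (Q ∩ gp col A z z').filter (fun a => s(a.1, a.2) ∈ F ∧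
      col s(z, a.1) ∉ cE col F ∪ G ∧ col s(z', a.2) ∉ cE col F ∪ G) with hS
  have hSQ : ∀ a ∈ S, a ∈ Q := fun a ha =>
    (Finset.mem_inter.1 (Finset.mem_filter.1 ha).1).1
  have hW : 2 * (P.toFinset ∪ P'.toFinset).card < S.card := by
    refine lt_of_le_of_lt ?_ (hT z z' hzz)
    have h1 := Finset.card_union_le P.toFinset P'.toFinset
    have h2 := List.toFinset_card_le P
    have h3 := List.toFinset_card_le P'
    omega
  obtain ⟨⟨x, y⟩, haS, hax, hay⟩ := DMrg_meet S
    (fun a ha a' ha' h => hQ.out a (hSQ a ha) a' (hSQ a' ha') h)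
    (fun a ha a' ha' h => hQ.inn a (hSQ a ha) a' (hSQ a' ha') h) _ hW
  simp only [Finset.mem_union, List.mem_toFinset, not_or] at hax hay
  rw [hS, Finset.mem_filter] at haS
  obtain ⟨hagp, haF, hcx, hcy⟩ := haS
  have hagp' := (Finset.mem_inter.1 hagp).2
  unfold gp at hagp'
  rw [Finset.mem_filter] at hagp'
  obtain ⟨-, -, -, -, -, -, hAx, hAy, hcc, -⟩ := hagp'
  simp only at haF hcx hcy hAx hAy hcc
  rw [Finset.mem_union, not_or] at hcx hcy
  obtain ⟨l, hl, hel⟩ := hseg _ haF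
  obtain ⟨Q', hQ1, hQ2, hQ3, hQ4, hQ5⟩ := DMrg_list L₁ L₂ P P' hP hP' (hL ▸ hnd) (hL ▸ hall)
    x y hax.1 hax.2 l (hL ▸ hl) hel
  have hnx : s(z, x) ∉ F := fun h => hcx.1 (Finset.mem_image_of_mem col h)
  have hny : s(z', y) ∉ F := fun h => hcy.1 (Finset.mem_image_of_mem col h)
  have hxy' : s(z, x) ≠ s(z', y) := fun h => hcc (congrArg col h)
  refine ⟨insert s(z, x) (insert s(z', y) (F.erase s(x, y))), ?_, ?_, ?_, ?_, ?_, ?_⟩
  · refine ⟨Q', hQ1, fun v => by simp [hQ2 v], ?_⟩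
    intro e he
    rw [Finset.mem_insert, Finset.mem_insert, Finset.mem_erase] at he
    rcases he with rfl | rfl | ⟨h1, h2⟩
    · exact hQ4
    · exact hQ5
    · exact hQ3 e (hL ▸ hseg e h2) h1
  · rw [Finset.card_insert_of_notMem, Finset.card_insert_of_notMem, Finset.card_erase_of_mem haF]
    · have := Finset.card_pos.2 ⟨_, haF⟩
      omega
    · exact fun h => hny (Finset.mem_of_mem_erase h)
    · rw [Finset.mem_insert, not_or]
      exact ⟨hxy', fun h => hnx (Finset.mem_of_mem_erase h)⟩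
  · intro e he e' he' hee
    rw [Finset.mem_insert, Finset.mem_insert, Finset.mem_erase] at he he'
    rcases he with rfl | rfl | ⟨h1, h2⟩ <;> rcases he' with rfl | rfl | ⟨h3, h4⟩
    · rfl
    · exact absurd hee hcc
    · exact absurd (hee ▸ Finset.mem_image_of_mem col h4) hcx.1
    · exact absurd hee.symm hcc
    · rfl
    · exact absurd (hee ▸ Finset.mem_image_of_mem col h4) hcy.1
    · exact absurd (hee ▸ Finset.mem_image_of_mem col h2) hcx.1
    · exact absurd (hee ▸ Finset.mem_image_of_mem col h2) hcy.1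
    · exact hr e h2 e' h4 hee
  · intro e he heF
    rw [Finset.mem_insert, Finset.mem_insert, Finset.mem_erase] at he
    rcases he with rfl | rfl | ⟨h1, h2⟩
    · exact ⟨hAx, hcx.2⟩
    · exact ⟨hAy, hcy.2⟩
    · exact absurd h2 heF
  · refine (Finset.card_le_card (t := {s(x, y)}) ?_).trans (Finset.card_singleton _).le
    intro e he
    rw [Finset.mem_sdiff, Finset.mem_insert, Finset.mem_insert, Finset.mem_erase, not_or,
      not_or] at he
    rw [Finset.mem_singleton]
    by_contra hne'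
    exact he.2.2.2 ⟨hne', he.1⟩
  · refine (Finset.card_le_card (t := {s(z, x), s(z', y)}) ?_).trans Finset.card_le_two
    intro e he
    rw [Finset.mem_sdiff, Finset.mem_insert, Finset.mem_insert, Finset.mem_erase] at he
    rw [Finset.mem_insert, Finset.mem_singleton]
    rcases he with ⟨h1 | h1 | h1, h2⟩
    · exact Or.inl h1
    · exact Or.inr h1
    · exact absurd h1.2 h2

/-- The number of possible arcs: at most `lostA Q F` arcs are lost, and for every used colour of `A` at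
most two arcs (one with this colour at `z`, one at `z'`). -/
theorem arcs_left (col : Sym2 V → κ) (hcol : Proper col) (A X : Finset κ) (Q : Finset (V × V))
    (T : ℕ) (hQ : Arcs col A Q T) (F : Finset (Sym2 V)) (z z' : V) (hz : z ≠ z') :
    T ≤ ((Q ∩ gp col A z z').filter (fun a => s(a.1, a.2) ∈ F ∧
      col s(z, a.1) ∉ X ∧ col s(z', a.2) ∉ X)).card + lostA Q F + 2 * (A ∩ X).card := by
  classical
  set S := Q ∩ gp col A z z' with hS
  have hmem : ∀ a ∈ S, a ∈ Q ∧ a.1 ≠ z ∧ a.2 ≠ z' ∧ col s(z, a.1) ∈ A ∧ col s(z', a.2) ∈ A := by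
    intro a ha
    rw [hS, Finset.mem_inter] at ha
    obtain ⟨h1, h2⟩ := ha
    unfold gp at h2
    rw [Finset.mem_filter] at h2
    obtain ⟨-, -, h3, -, -, h4, h5, h6, -, -⟩ := h2
    exact ⟨h1, h3, h4, h5, h6⟩
  have h1 : S ⊆ ((S.filter (fun a => s(a.1, a.2) ∈ F ∧
      col s(z, a.1) ∉ X ∧ col s(z', a.2) ∉ X)) ∪ Q.filter (fun a => s(a.1, a.2) ∉ F)) ∪
      (S.filter (fun a => col s(z, a.1) ∈ X) ∪ S.filter (fun a => col s(z', a.2) ∈ X)) := by
    intro a ha
    simp only [Finset.mem_union, Finset.mem_filter]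
    by_cases h2 : s(a.1, a.2) ∈ F
    · by_cases h3 : col s(z, a.1) ∈ X
      · exact Or.inr (Or.inl ⟨ha, h3⟩)
      · by_cases h4 : col s(z', a.2) ∈ X
        · exact Or.inr (Or.inr ⟨ha, h4⟩)
        · exact Or.inl (Or.inl ⟨ha, h2, h3, h4⟩)
    · exact Or.inl (Or.inr ⟨(hmem a ha).1, h2⟩)
  have h2 : (S.filter (fun a => col s(z, a.1) ∈ X)).card ≤ (A ∩ X).card := by
    refine Finset.card_le_card_of_injOn (fun a => col s(z, a.1)) (fun a ha => ?_) ?_
    · have h3 := Finset.mem_filter.1 ha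
      exact Finset.mem_inter.2 ⟨(hmem a h3.1).2.2.2.1, h3.2⟩
    · intro a ha a' ha' h
      have h3 := hmem a (Finset.mem_filter.1 ha).1
      have h4 := hmem a' (Finset.mem_filter.1 ha').1
      refine hQ.out a h3.1 a' h4.1 ?_
      by_contra hne
      exact hcol z a.1 a'.1 h3.2.1.symm h4.2.1.symm hne h
  have h3 : (S.filter (fun a => col s(z', a.2) ∈ X)).card ≤ (A ∩ X).card := by
    refine Finset.card_le_card_of_injOn (fun a => col s(z', a.2)) (fun a ha => ?_) ?_
    · have h3 := Finset.mem_filter.1 ha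
      exact Finset.mem_inter.2 ⟨(hmem a h3.1).2.2.2.2, h3.2⟩
    · intro a ha a' ha' h
      have h3 := hmem a (Finset.mem_filter.1 ha).1
      have h4 := hmem a' (Finset.mem_filter.1 ha').1
      refine hQ.inn a h3.1 a' h4.1 ?_
      by_contra hne
      exact hcol z' a.2 a'.2 h3.2.2.1.symm h4.2.2.1.symm hne h
  have h4 := (Finset.card_le_card h1).trans (Finset.card_union_le _ _)
  have h5 := Finset.card_union_le (S.filter (fun a => s(a.1, a.2) ∈ F ∧
      col s(z, a.1) ∉ X ∧ col s(z', a.2) ∉ X)) (Q.filter (fun a => s(a.1, a.2) ∉ F))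
  have h6 := Finset.card_union_le (S.filter (fun a => col s(z, a.1) ∈ X))
    (S.filter (fun a => col s(z', a.2) ∈ X))
  have h7 : T ≤ S.card := hQ.many z z' hz
  have h8 : lostA Q F = (Q.filter (fun a => s(a.1, a.2) ∉ F)).card := rfl
  rw [← h8] at h5
  omega

end Pool.Agent.W_cd7020_h81d
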