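import Pool.Agent.W_cd7020_h81b.NumB

/-!
# Numbers for the first phase
-/

set_option autoImplicit false

namespace Pool.Agent.W_cd7020_h81d

open Finset

/-- `2 ^ m ≤ exp m`. -/
theorem numA_two (m : ℕ) : (2 : ℝ) ^ m ≤ Real.exp m := by
  have h1 : (2 : ℝ) ≤ Real.exp 1 := by
    have := Real.add_one_le_exp (1 : ℝ)
    linarith
  have h2 : Real.exp (m : ℝ) = Real.exp 1 ^ m := by
    rw [← Real.exp_nat_mul, mul_one]
  rw [h2]
  exact pow_le_pow_left₀ (by norm_num) h1 m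

/-- The hypothesis of `res_exists` for `η = L ^ (-107000)`: `n ≥ L ^ 220000` gives
`η² n / 36 ≥ L ^ 5000`, and `2 (n + n²) ≤ 2 ^ (2 L + 2)`. -/
theorem numA_exp (n L : ℕ) (hL : 10 ^ 7 ≤ L) (hn : n ≤ 2 ^ L) (hn2 : L ^ 220000 ≤ n) :
    2 * ((n : ℝ) + (n : ℝ) ^ 2) < Real.exp ((1 / (L : ℝ) ^ 107000) ^ 2 * n / 36) := by
  have hLR : (10 : ℝ) ^ 7 ≤ (L : ℝ) := by exact_mod_cast hL
  have hL1 : (1 : ℝ) ≤ (L : ℝ) := by nlinarith
  have hL0 : (0 : ℝ) < (L : ℝ) := by linarith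
  have hLn : 1 ≤ L := by exact_mod_cast hL1
  have hn1 : 1 ≤ n := le_trans (Nat.one_le_pow _ _ hLn) hn2
  have hnR : (1 : ℝ) ≤ (n : ℝ) := by exact_mod_cast hn1
  have hn3 : (L : ℝ) ^ 220000 ≤ (n : ℝ) := by exact_mod_cast hn2
  have hn4 : (n : ℝ) ≤ (2 : ℝ) ^ L := by exact_mod_cast hn
  -- the left side
  have h1 : 2 * ((n : ℝ) + (n : ℝ) ^ 2) ≤ (2 : ℝ) ^ (2 * L + 2) := by
    have h2 : (n : ℝ) ^ 2 ≤ ((2 : ℝ) ^ L) ^ 2 := pow_le_pow_left₀ (by linarith) hn4 2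
    have h3 : ((2 : ℝ) ^ L) ^ 2 * 4 = (2 : ℝ) ^ (2 * L + 2) := by
      rw [pow_add, ← pow_mul, mul_comm L 2]
      norm_num
    rw [← h3]
    nlinarith
  have h2 : (2 : ℝ) ^ (2 * L + 2) ≤ Real.exp ((2 * L + 2 : ℕ) : ℝ) := numA_two _
  -- the exponent
  have h3 : (L : ℝ) ^ 2 ≤ (1 / (L : ℝ) ^ 107000) ^ 2 * n / 36 := by
    have h4 : (1 / (L : ℝ) ^ 107000) ^ 2 = 1 / (L : ℝ) ^ 214000 := by
      rw [div_pow, one_pow, ← pow_mul]
    have h5 : (0 : ℝ) < (L : ℝ) ^ 214000 := pow_pos hL0 _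
    rw [h4, one_div, inv_mul_eq_div, le_div_iff₀ (by norm_num), le_div_iff₀ h5]
    refine le_trans ?_ hn3
    have h6 : (L : ℝ) ^ 220000 = (L : ℝ) ^ 2 * (L : ℝ) ^ 5998 * (L : ℝ) ^ 214000 := by
      rw [← pow_add, ← pow_add]
    have h7 : (36 : ℝ) ≤ (L : ℝ) ^ 5998 := by
      have h8 : (L : ℝ) ^ 1 ≤ (L : ℝ) ^ 5998 := pow_le_pow_right₀ hL1 (by norm_num)
      rw [pow_one] at h8
      linarith
    rw [h6]
    gcongr
  have h4 : Real.exp ((2 * L + 2 : ℕ) : ℝ) < Real.exp ((1 / (L : ℝ) ^ 107000) ^ 2 * n / 36) := by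
    apply Real.exp_lt_exp.2
    refine lt_of_lt_of_le ?_ h3
    push_cast
    nlinarith
  linarith

/-- `4 (5 n² + 2) G < exp (5 L)` for `G = 1 + 60 L L ^ 1100 + (5/2) L ^ 3300 ≤ L ^ 3301`, and
`(L : ℝ) ^ 3301 * 24 * 4 ^ L < exp (5 L)` (`exp 1 ≥ 2`: `exp (5 L) ≥ 2 ^ (2 L) exp (3 L)`, `L ^ 3301 * 24 ≤ exp (3 L)` for
`L ≥ 10 ^ 7`). -/
theorem numA_lam (n L : ℕ) (hL : 10 ^ 7 ≤ L) (hn : n ≤ 2 ^ L) (hn1 : 1 ≤ n) :
    4 * (5 * (n : ℝ) ^ 2 + 2) * (1 + 6 * (10 * L) / (1 / (L : ℝ) ^ 1100) +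
      5 / 4 * 2 / (1 / (L : ℝ) ^ 1100) ^ 3) < Real.exp (10 * L / 2) := by
  have hLR : (10 : ℝ) ^ 7 ≤ (L : ℝ) := by exact_mod_cast hL
  have hL1 : (1 : ℝ) ≤ (L : ℝ) := by nlinarith
  have hL0 : (0 : ℝ) < (L : ℝ) := by linarith
  have hnR : (1 : ℝ) ≤ (n : ℝ) := by exact_mod_cast hn1
  have hn4 : (n : ℝ) ≤ (2 : ℝ) ^ L := by exact_mod_cast hn
  -- the first factor
  have h1 : 4 * (5 * (n : ℝ) ^ 2 + 2) ≤ 28 * (2 : ℝ) ^ (2 * L) := by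
    have h2 : (n : ℝ) ^ 2 ≤ ((2 : ℝ) ^ L) ^ 2 := pow_le_pow_left₀ (by linarith) hn4 2
    have h3 : ((2 : ℝ) ^ L) ^ 2 = (2 : ℝ) ^ (2 * L) := by
      rw [← pow_mul, mul_comm L 2]
    rw [← h3]
    nlinarith
  -- the second factor
  have hG : 1 + 6 * (10 * L) / (1 / (L : ℝ) ^ 1100) +
      5 / 4 * 2 / (1 / (L : ℝ) ^ 1100) ^ 3 ≤ (L : ℝ) ^ 3301 := by
    have h2 : 6 * (10 * L) / (1 / (L : ℝ) ^ 1100) = 60 * (L : ℝ) ^ 1101 := by
      rw [div_div_eq_mul_div, div_one, pow_succ]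
      ring
    have h3 : 5 / 4 * 2 / (1 / (L : ℝ) ^ 1100) ^ 3 = 5 / 2 * (L : ℝ) ^ 3300 := by
      rw [div_pow, one_pow, ← pow_mul, div_div_eq_mul_div, div_one]
      norm_num
    rw [h2, h3]
    have h4 : (L : ℝ) ^ 3301 = (L : ℝ) * (L : ℝ) ^ 3300 := pow_succ' _ _
    have h5 : (1 : ℝ) ≤ (L : ℝ) ^ 3300 := one_le_pow₀ hL1
    have h6 : (L : ℝ) ^ 1101 ≤ (L : ℝ) ^ 3300 := pow_le_pow_right₀ hL1 (by norm_num)
    rw [h4]
    nlinarith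
  have hG0 : (0 : ℝ) ≤ 1 + 6 * (10 * L) / (1 / (L : ℝ) ^ 1100) +
      5 / 4 * 2 / (1 / (L : ℝ) ^ 1100) ^ 3 := by positivity
  -- powers of L
  have h2 : (L : ℝ) ^ 3301 ≤ Real.exp (2 * L) := by
    have h3 : (L : ℝ) ≤ 5000 * Real.exp (L / 5000) := by
      have := Real.add_one_le_exp ((L : ℝ) / 5000)
      linarith
    have h4 : (L : ℝ) ^ 3301 ≤ (5000 * Real.exp (L / 5000)) ^ 3301 :=
      pow_le_pow_left₀ hL0.le h3 _
    rw [mul_pow] at h4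
    have h5 : Real.exp ((L : ℝ) / 5000) ^ 3301 ≤ Real.exp L := by
      rw [← Real.exp_nat_mul]
      apply Real.exp_le_exp.2
      push_cast
      linarith
    have h6 : (5000 : ℝ) ^ 3301 ≤ Real.exp L := by
      have h7 : (5000 : ℝ) ^ 3301 ≤ ((2 : ℝ) ^ 13) ^ 3301 :=
        pow_le_pow_left₀ (by norm_num) (by norm_num) _
      have h8 : ((2 : ℝ) ^ 13) ^ 3301 = (2 : ℝ) ^ 42913 := by rw [← pow_mul]
      have h9 : (2 : ℝ) ^ 42913 ≤ Real.exp ((42913 : ℕ) : ℝ) := numA_two _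
      have h10 : Real.exp ((42913 : ℕ) : ℝ) ≤ Real.exp L := by
        apply Real.exp_le_exp.2
        push_cast
        linarith
      rw [h8] at h7
      exact h7.trans (h9.trans h10)
    have h7 : Real.exp (2 * (L : ℝ)) = Real.exp L * Real.exp L := by
      rw [← Real.exp_add]
      ring_nf
    rw [h7]
    exact h4.trans (mul_le_mul h6 h5 (by positivity) (Real.exp_pos _).le)
  have h3 : (2 : ℝ) ^ (2 * L) ≤ Real.exp (2 * L) := by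
    have := numA_two (2 * L)
    push_cast at this
    exact this
  have h4 : (28 : ℝ) < Real.exp L := by
    have := Real.add_one_le_exp (L : ℝ)
    linarith
  have h5 : Real.exp (10 * L / 2) = Real.exp L * Real.exp (2 * L) * Real.exp (2 * L) := by
    rw [← Real.exp_add, ← Real.exp_add]
    ring_nf
  rw [h5]
  have hE : (0 : ℝ) < Real.exp (2 * L) := Real.exp_pos _
  calc 4 * (5 * (n : ℝ) ^ 2 + 2) * (1 + 6 * (10 * L) / (1 / (L : ℝ) ^ 1100) +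
      5 / 4 * 2 / (1 / (L : ℝ) ^ 1100) ^ 3)
      ≤ (28 * Real.exp (2 * L)) * Real.exp (2 * L) := by
        apply mul_le_mul _ (hG.trans h2) hG0 (by positivity)
        refine h1.trans ?_
        linarith
    _ < Real.exp L * Real.exp (2 * L) * Real.exp (2 * L) := by
        have : (28 : ℝ) * Real.exp (2 * L) < Real.exp L * Real.exp (2 * L) :=
          mul_lt_mul_of_pos_right h4 hE
        exact mul_lt_mul_of_pos_right this hE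

end Pool.Agent.W_cd7020_h81d
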