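import Pool.Agent.W_cd7020_h81d.DSat

/-!
# The hypergraph of the arcs
-/

set_option autoImplicit false

namespace Pool.Agent.W_cd7020_h81d

open Finset Pool.Agent.W_cd7020_h81 Pool.Agent.W_cd7020_h81b Pool.Agent.W_cd7020_h81n

variable {V κ : Type*} [DecidableEq V] [DecidableEq κ] [Fintype V]

theorem nh_sat (col : Sym2 V → κ) (H A : Finset κ) (θ τ e₀ : ℝ) (h : NC col H A θ τ e₀)
    (v : V ⊕ (V ⊕ κ)) (hv : v ∈ (EA col A).biUnion (incA col)) :
    |∑ p ∈ (EA col A).filter (fun p => v ∈ incA col p), wA col H θ p - sA col H θ v| ≤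
      e₀ / 2 := by
  rcases v with x | y | k
  · have h1 : (EA col A).filter (fun p => Sum.inl x ∈ incA col p) =
        (EA col A).filter (fun p => p.1 = x) := by
      refine Finset.filter_congr fun p _ => ?_
      rw [incA_mem]
      constructor
      · rintro (h1 | h1 | h1)
        · exact (Sum.inl_injective h1).symm
        · cases h1
        · cases h1
      · intro h1
        exact Or.inl (by rw [h1])
    rw [h1]
    exact wA_out col H A θ τ e₀ h x
  · have h1 : (EA col A).filter (fun p => Sum.inr (Sum.inl y) ∈ incA col p) =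
        (EA col A).filter (fun p => p.2 = y) := by
      refine Finset.filter_congr fun p _ => ?_
      rw [incA_mem]
      constructor
      · rintro (h1 | h1 | h1)
        · cases h1
        · exact (Sum.inl_injective (Sum.inr_injective h1)).symm
        · exact absurd (Sum.inr_injective h1) (by simp)
      · intro h1
        exact Or.inr (Or.inl (by rw [h1]))
    rw [h1]
    exact wA_in col H A θ τ e₀ h y
  · have h1 : (EA col A).filter (fun p => Sum.inr (Sum.inr k) ∈ incA col p) =
        (EA col A).filter (fun p => col s(p.1, p.2) = k) := by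
      refine Finset.filter_congr fun p _ => ?_
      rw [incA_mem]
      constructor
      · rintro (h1 | h1 | h1)
        · cases h1
        · exact absurd (Sum.inr_injective h1) (by simp)
        · exact (Sum.inr_injective (Sum.inr_injective h1)).symm
      · intro h1
        exact Or.inr (Or.inr (by rw [h1]))
    have hk : k ∉ A := by
      obtain ⟨p, hp, hpk⟩ := Finset.mem_biUnion.1 hv
      have h2 : p ∈ (EA col A).filter (fun p => Sum.inr (Sum.inr k) ∈ incA col p) :=
        Finset.mem_filter.2 ⟨hp, hpk⟩
      rw [h1, Finset.mem_filter] at h2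
      rw [← h2.2]
      exact (Finset.mem_filter.1 hp).2.2
    rw [h1, wA_col col H A θ τ e₀ h k hk, sub_self, abs_zero]
    exact (half_pos h.e0).le

/-- The hypergraph of the arcs. -/
noncomputable def nhA (col : Sym2 V → κ) (H A : Finset κ) (θ τ e₀ : ℝ)
    (h : NC col H A θ τ e₀) : NH (V × V) (V ⊕ (V ⊕ κ)) where
  E := EA col A
  inc := incA col
  s := sA col H θ
  ω := wA col H θ
  n := Fintype.card V
  τ := τ
  e₀ := e₀
  inc3 := by
    intro e _
    exact Finset.card_le_three
  inc1 := by
    intro e _
    exact ⟨Sum.inl e.1, (incA_mem col e _).2 (Or.inl rfl)⟩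
  lin := by
    intro e he e' he' hne
    exact incA_lin col h.proper e e' (Finset.mem_filter.1 he).2.1
      (Finset.mem_filter.1 he').2.1 hne
  s0 := fun v => (sA_bounds col H A θ τ e₀ h v).1
  s1 := fun v => (sA_bounds col H A θ τ e₀ h v).2
  ω0 := fun e _ => (wA_bounds col H A θ τ e₀ h e).2.1
  ω2 := fun e _ => (wA_bounds col H A θ τ e₀ h e).2.2
  τ0 := h.τ0
  τ1 := h.τ1
  e0 := h.e0
  e8 := h.e8
  n1 := h.n1
  sat := fun v hv => nh_sat col H A θ τ e₀ h v hv
  tot := wA_tot col H A θ τ e₀ h

end Pool.Agent.W_cd7020_h81d
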