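import Pool.Agent.W_cd7020_h81d.DNH
import Pool.Agent.W_cd7020_h81d.DFo
import Pool.Agent.W_cd7020_h81n.NI

/-!
# The nibble for arcs
-/

set_option autoImplicit false

namespace Pool.Agent.W_cd7020_h81d

open Finset Pool.Agent.W_cd7020_h81 Pool.Agent.W_cd7020_h81b Pool.Agent.W_cd7020_h81n

variable {V κ : Type*} [DecidableEq V] [DecidableEq κ] [Fintype V]

theorem DNib_cA01 (l : List (V × V)) (e : V × V) : 0 ≤ cA l e ∧ cA l e ≤ 1 := by
  unfold cA
  split_ifs
  · exact ⟨le_refl _, zero_le_one⟩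
  · exact ⟨zero_le_one, le_refl _⟩

theorem DNib_al (col : Sym2 V → κ) (H A : Finset κ) (θ τ e₀ : ℝ) (h : NC col H A θ τ e₀)
    (l : List (V × V)) (e : V × V) (he : e ∈ (nhA col H A θ τ e₀ h).al l.toFinset) :
    e.1 ≠ e.2 ∧ ∀ a ∈ l, Disjoint (incA col e) (incA col a) := by
  obtain ⟨h1, h2⟩ := Finset.mem_filter.1 he
  have h3 : e ∈ EA col A := h1
  refine ⟨(Finset.mem_filter.1 h3).2.1, fun a ha => ?_⟩
  refine h2.mono_right ?_
  intro v hv
  exact Finset.mem_biUnion.2 ⟨a, List.mem_toFinset.2 ha, hv⟩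

/-- The sum of the weights of the arcs of cost `1` is at most `n (2 / n) = 2` (`Fo_close`,
`wA_bounds`). -/
theorem nib_cost (col : Sym2 V → κ) (H A : Finset κ) (θ τ e₀ : ℝ) (h : NC col H A θ τ e₀)
    (l : List (V × V)) (hl : l.Pairwise (fun e e' => Disjoint (incA col e) (incA col e'))) :
    ∑ e ∈ (nhA col H A θ τ e₀ h).al l.toFinset, wA col H θ e * cA l e ≤ 2 := by
  classical
  have hn := DSat_n col H A θ τ e₀ h
  set B := (nhA col H A θ τ e₀ h).al l.toFinset with hB
  have h1 : ∑ e ∈ B, wA col H θ e * cA l e ≤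
      ∑ e ∈ B, (if cA l e ≠ 0 then 2 / (Fintype.card V : ℝ) else 0) := by
    refine Finset.sum_le_sum fun e _ => ?_
    obtain ⟨hw1, hw2, hw3⟩ := wA_bounds col H A θ τ e₀ h e
    obtain ⟨hc1, hc2⟩ := DNib_cA01 l e
    split_ifs with hc
    · calc wA col H θ e * cA l e ≤ wA col H θ e * 1 := by gcongr
        _ ≤ 2 / (Fintype.card V : ℝ) := by rw [mul_one]; exact hw3
    · push Not at hc
      rw [hc, mul_zero]
  refine h1.trans ?_
  rw [← Finset.sum_filter, Finset.sum_const, nsmul_eq_mul]
  have h2 : (B.filter (fun e => cA l e ≠ 0)).card ≤ Fintype.card V := by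
    have h3 : B.filter (fun e => cA l e ≠ 0) ⊆ (univ : Finset V).biUnion (fun x =>
        ((univ : Finset V).filter (fun y => x ≠ y ∧
          (∀ a ∈ l, Disjoint (incA col (x, y)) (incA col a)) ∧ cA l (x, y) ≠ 0)).image
            (fun y => (x, y))) := by
      intro e he
      obtain ⟨he1, he2⟩ := Finset.mem_filter.1 he
      obtain ⟨he3, he4⟩ := DNib_al col H A θ τ e₀ h l e he1
      refine Finset.mem_biUnion.2 ⟨e.1, mem_univ _, Finset.mem_image.2 ⟨e.2, ?_, rfl⟩⟩
      exact Finset.mem_filter.2 ⟨mem_univ _, he3, he4, he2⟩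
    calc (B.filter (fun e => cA l e ≠ 0)).card ≤ _ := Finset.card_le_card h3
      _ ≤ ∑ x : V, _ := Finset.card_biUnion_le
      _ ≤ ∑ x : V, 1 := by
        refine Finset.sum_le_sum fun x _ => ?_
        refine Finset.card_image_le.trans ?_
        exact Fo_close col l hl x
      _ = Fintype.card V := by simp
  calc ((B.filter (fun e => cA l e ≠ 0)).card : ℝ) * (2 / (Fintype.card V : ℝ)) ≤
      (Fintype.card V : ℝ) * (2 / (Fintype.card V : ℝ)) := by gcongr
    _ = 2 := by field_simp

theorem DNib_J (col : Sym2 V → κ) (A : Finset κ) :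
    ((EA col A).biUnion (incA col)).card ≤ 2 * Fintype.card V + Fintype.card V ^ 2 := by
  classical
  have h1 : (EA col A).biUnion (incA col) ⊆
      ((univ : Finset V).image Sum.inl ∪ (univ : Finset V).image (fun y => Sum.inr (Sum.inl y))) ∪
        (univ : Finset (V × V)).image (fun p => Sum.inr (Sum.inr (col s(p.1, p.2)))) := by
    intro v hv
    obtain ⟨p, _, hp⟩ := Finset.mem_biUnion.1 hv
    rw [incA_mem] at hp
    rcases hp with rfl | rfl | rfl
    · exact Finset.mem_union_left _ (Finset.mem_union_left _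
        (Finset.mem_image_of_mem _ (mem_univ _)))
    · exact Finset.mem_union_left _ (Finset.mem_union_right _
        (Finset.mem_image.2 ⟨p.2, mem_univ _, rfl⟩))
    · exact Finset.mem_union_right _ (Finset.mem_image.2 ⟨p, mem_univ _, rfl⟩)
  refine (Finset.card_le_card h1).trans ?_
  refine (Finset.card_union_le _ _).trans ?_
  refine Nat.add_le_add ((Finset.card_union_le _ _).trans ?_) ?_
  · have h2 : ((univ : Finset V).image (Sum.inl : V → V ⊕ (V ⊕ κ))).card ≤ Fintype.card V :=
      Finset.card_image_le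
    have h3 : ((univ : Finset V).image
        (fun y => (Sum.inr (Sum.inl y) : V ⊕ (V ⊕ κ)))).card ≤ Fintype.card V :=
      Finset.card_image_le
    omega
  · refine Finset.card_image_le.trans ?_
    rw [card_univ, Fintype.card_prod, sq]

/-- The nibble: `NH.nibble` for `nhA` with the cost `cA`, `c₀ = 2`, and the functions `1` and the indicators
of `gp col A z z'`, `z ≠ z'` (`ι = Option (V × V)`, `I` the set of `none` and all `some (z, z')` with
`z ≠ z'`, `|I| ≤ n² + 1`; `J₀ ≤ 2 n + n² + 2 (n² + 1) ≤ 5 n² + 2`). `M₀` of the indicator is at least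
`|gp| / n` (`wA_bounds`; `gp ⊆ EA`). The set of arcs is `l.toFinset`, the forest `Fo l`; for the lower bound for
`|Q ∩ gp|` use that the list is a list of distinct arcs. -/
theorem nib_forest (col : Sym2 V → κ) (H A : Finset κ) (θ τ e₀ : ℝ) (h : NC col H A θ τ e₀)
    (lam : ℝ) (hlam : 1 ≤ lam) (hn : 600 * lam ^ 2 / (τ ^ 4 * e₀ ^ 2) ≤ Fintype.card V) (G : ℝ)
    (hG : G = 1 + 6 * lam / τ + 5 / 4 * 2 / τ ^ 3)
    (hlG : 4 * (5 * (Fintype.card V : ℝ) ^ 2 + 2) * G < Real.exp (lam / 2)) (Nst : ℕ)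
    (hN : (Nst : ℝ) ≤ (1 - τ) * Fintype.card V) (T : ℕ)
    (hT : ∀ z z', z ≠ z' → (T : ℝ) ≤ Nst / Fintype.card V * ((gp col A z z').card /
      Fintype.card V) - e₀ / τ ^ 96 * Fintype.card V) :
    ∃ (Q : Finset (V × V)) (F : Finset (Sym2 V)), LF univ F ∧ Rb col F ∧
      (∀ e ∈ F, col e ∉ A) ∧ Arcs col A Q T ∧ (Nst : ℝ) ≤ F.card + 2 * G ∧
      (lostA Q F : ℝ) ≤ 2 * G := by
  classical
  have hn0 := DSat_n col H A θ τ e₀ h
  have hτ := h.τ0
  set I : Finset (Option (V × V)) := insert none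
    (((univ : Finset (V × V)).filter (fun p => p.1 ≠ p.2)).image some) with hI
  set f : Option (V × V) → V × V → ℝ := fun i e => match i with
    | none => 1
    | some p => if e ∈ gp col A p.1 p.2 then 1 else 0 with hf
  have hf0 : ∀ j ∈ I, ∀ e, 0 ≤ f j e := by
    intro j _ e
    rcases j with _ | p
    · exact zero_le_one
    · show (0 : ℝ) ≤ if e ∈ gp col A p.1 p.2 then 1 else 0
      split_ifs <;> norm_num
  have hf1 : ∀ j ∈ I, ∀ e, f j e ≤ 1 := by
    intro j _ e
    rcases j with _ | p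
    · exact le_refl _
    · show (if e ∈ gp col A p.1 p.2 then (1 : ℝ) else 0) ≤ 1
      split_ifs <;> norm_num
  have hG0 : 0 < G := by
    rw [hG]
    have : 0 < lam := by linarith
    positivity
  have hIc : I.card ≤ Fintype.card V ^ 2 + 1 := by
    rw [hI]
    refine (Finset.card_insert_le _ _).trans ?_
    refine Nat.add_le_add_right ?_ 1
    refine Finset.card_image_le.trans ?_
    refine (Finset.card_filter_le _ _).trans ?_
    rw [card_univ, Fintype.card_prod, sq]
  have hJ : ((((EA col A).biUnion (incA col)).card : ℝ) + 2 * I.card) ≤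
      5 * (Fintype.card V : ℝ) ^ 2 + 2 := by
    have h1 : ((((EA col A).biUnion (incA col)).card : ℕ) : ℝ) ≤
        ((2 * Fintype.card V + Fintype.card V ^ 2 : ℕ) : ℝ) := by
      exact_mod_cast DNib_J col A
    have h2 : (I.card : ℝ) ≤ ((Fintype.card V ^ 2 + 1 : ℕ) : ℝ) := by exact_mod_cast hIc
    have h3 : (1 : ℝ) ≤ Fintype.card V := by
      have : 0 < Fintype.card V := by exact_mod_cast hn0
      exact_mod_cast this
    push_cast at h1 h2
    nlinarith
  obtain ⟨l, hl1, hl2, hl3, hl4, hl5⟩ := (nhA col H A θ τ e₀ h).nibble lam hlam I f hf0 hf1 none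
    (Finset.mem_insert_self _ _) (fun _ => rfl) cA (fun l e _ => (DNib_cA01 l e).1) 2
    (by norm_num) (fun l _ hl => nib_cost col H A θ τ e₀ h l hl) hn
    ((((EA col A).biUnion (incA col)).card : ℝ) + 2 * I.card) rfl G hG
    (by
      refine lt_of_le_of_lt ?_ hlG
      gcongr) Nst hN
  have hl3' : l.Pairwise (fun e e' => Disjoint (incA col e) (incA col e')) := hl3
  have hE : ∀ a ∈ l, a.1 ≠ a.2 ∧ col s(a.1, a.2) ∉ A := by
    intro a ha
    have h1 : a ∈ EA col A := hl2 a ha
    exact (Finset.mem_filter.1 h1).2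
  have hdis : ∀ a ∈ l, ∀ a' ∈ l, a ≠ a' → Disjoint (incA col a) (incA col a') := by
    intro a ha a' ha' hne
    have hsym : Std.Symm (fun e e' : V × V => Disjoint (incA col e) (incA col e')) :=
      ⟨fun x y hxy => hxy.symm⟩
    exact hl3'.forall ha ha' hne
  have hone : ∀ a ∈ l, ∀ a' ∈ l, ∀ v, v ∈ incA col a → v ∈ incA col a' → a = a' := by
    intro a ha a' ha' v hv hv'
    by_contra hne
    exact (Finset.disjoint_left.1 (hdis a ha a' ha' hne)) hv hv'
  refine ⟨l.toFinset, Fo l, Fo_lf l, Fo_rb col l hl3', ?_, ?_, ?_, ?_⟩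
  · intro e he
    obtain ⟨a, ha, rfl⟩ := Fo_mem l e he
    exact (hE a ha).2
  · refine ⟨?_, ?_, ?_, ?_⟩
    · intro a ha a' ha' haa
      rw [List.mem_toFinset] at ha ha'
      refine hone a ha a' ha' (Sum.inl a.1) ((incA_mem col a _).2 (Or.inl rfl))
        ((incA_mem col a' _).2 (Or.inl (by rw [haa])))
    · intro a ha a' ha' haa
      rw [List.mem_toFinset] at ha ha'
      refine hone a ha a' ha' (Sum.inr (Sum.inl a.2)) ((incA_mem col a _).2 (Or.inr (Or.inl rfl)))
        ((incA_mem col a' _).2 (Or.inr (Or.inl (by rw [haa]))))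
    · intro a ha a' ha' haa
      rw [List.mem_toFinset] at ha ha'
      refine hone a ha a' ha' (Sum.inr (Sum.inr (col s(a.1, a.2))))
        ((incA_mem col a _).2 (Or.inr (Or.inr rfl)))
        ((incA_mem col a' _).2 (Or.inr (Or.inr (by rw [haa]))))
    · intro z z' hzz
      have hmem : (some (z, z') : Option (V × V)) ∈ I := by
        rw [hI]
        refine Finset.mem_insert_of_mem (Finset.mem_image_of_mem _ ?_)
        exact Finset.mem_filter.2 ⟨mem_univ _, hzz⟩
      have h1 := hl5 _ hmem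
      have h2 : ∑ e ∈ l.toFinset, f (some (z, z')) e = ((l.toFinset ∩ gp col A z z').card : ℝ) := by
        show ∑ e ∈ l.toFinset, (if e ∈ gp col A z z' then (1 : ℝ) else 0) = _
        rw [Finset.sum_boole, Finset.filter_mem_eq_inter]
      have h3 : ((gp col A z z').card : ℝ) / Fintype.card V ≤
          (nhA col H A θ τ e₀ h).M₀ (f (some (z, z'))) := by
        have h4 : gp col A z z' ⊆ EA col A := by
          intro p hp
          simp only [gp, EA, Finset.mem_filter, Finset.mem_univ, true_and] at hp ⊢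
          exact ⟨hp.1, hp.2.2.2.2.2.2.2.2⟩
        have h5 : (nhA col H A θ τ e₀ h).M₀ (f (some (z, z'))) =
            ∑ e ∈ EA col A, (if e ∈ gp col A z z' then (1 : ℝ) else 0) * wA col H θ e := rfl
        rw [h5]
        have h6 : ∑ e ∈ EA col A, (if e ∈ gp col A z z' then (1 : ℝ) else 0) * wA col H θ e =
            ∑ e ∈ gp col A z z', wA col H θ e := by
          rw [← Finset.sum_subset h4]
          · refine Finset.sum_congr rfl fun e he => ?_
            rw [if_pos he, one_mul]
          · intro e _ he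
            rw [if_neg he, zero_mul]
        rw [h6, div_eq_mul_one_div, ← nsmul_eq_mul]
        refine Finset.card_nsmul_le_sum _ _ _ fun e _ => ?_
        exact (wA_bounds col H A θ τ e₀ h e).1
      have h7 := hT z z' hzz
      rw [h2] at h1
      have h8 := (abs_le.1 h1).1
      have h9 : (Nst : ℝ) / Fintype.card V * ((gp col A z z').card / Fintype.card V) ≤
          (Nst : ℝ) / Fintype.card V * (nhA col H A θ τ e₀ h).M₀ (f (some (z, z'))) := by
        gcongr
      have h10 : (T : ℝ) ≤ ((l.toFinset ∩ gp col A z z').card : ℝ) := by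
        have h11 : -(e₀ / τ ^ 96 * (Fintype.card V : ℝ)) ≤
          ((l.toFinset ∩ gp col A z z').card : ℝ) - (Nst : ℝ) / Fintype.card V *
            (nhA col H A θ τ e₀ h).M₀ (f (some (z, z'))) := h8
        linarith
      exact_mod_cast h10
  · have h1 := Fo_card col l hl3'
    rw [hl1] at h1
    linarith
  · exact (Fo_lost col l hl3').trans hl4

end Pool.Agent.W_cd7020_h81d
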