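import Pool.Agent.W_cd7020_h81d.DRs
import Pool.Agent.W_cd7020_h81d.DDeg
import Pool.Agent.W_cd7020_h81d.DGp

/-!
# The reserved colours
-/

set_option autoImplicit false

namespace Pool.Agent.W_cd7020_h81d

open Finset Pool.Agent.W_cd7020_h81 Pool.Agent.W_cd7020_h81b

variable {V κ : Type*} [DecidableEq V] [DecidableEq κ] [Fintype V]

/-- The functions: `n dC x` and `|gp z z'|`. -/
noncomputable def DRes_g (col : Sym2 V → κ) : V ⊕ (V × V) → Finset κ → ℝ
  | Sum.inl x, A => (Fintype.card V : ℝ) * dC col A x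
  | Sum.inr p, A => ((gp col A p.1 p.2).card : ℝ)

/-- The influences. -/
noncomputable def DRes_c (col : Sym2 V → κ) : V ⊕ (V × V) → κ → ℝ
  | Sum.inl x, k => (Fintype.card V : ℝ) * if par col k x ≠ x then 1 else 0
  | Sum.inr p, k => infl col p.1 p.2 k

/-- The indices. -/
def DRes_J (V : Type*) [DecidableEq V] [Fintype V] : Finset (V ⊕ (V × V)) :=
  (univ : Finset V).disjSum ((univ : Finset (V × V)).filter (fun p => p.1 ≠ p.2))

theorem DRes_J_card (V : Type*) [DecidableEq V] [Fintype V] :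
    (DRes_J V).card ≤ Fintype.card V + Fintype.card V ^ 2 := by
  unfold DRes_J
  rw [Finset.card_disjSum, Finset.card_univ]
  refine Nat.add_le_add_left ?_ _
  calc _ ≤ (univ : Finset (V × V)).card := Finset.card_filter_le _ _
    _ = Fintype.card V ^ 2 := by rw [Finset.card_univ, Fintype.card_prod, sq]

/-- The reserved colours: `rs_lemma` with `Vr = 9 n³`, `t = η n²` for the functions `n dC x` (`x ∈ V`) and
`|gp z z'|` (`z ≠ z'`). (`t² / (4 Vr) = η² n / 36`, `t c ≤ 3 n³ ≤ 2 Vr`.) -/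
theorem res_exists (col : Sym2 V → κ) (hcol : Proper col) (θ η : ℝ) (h0 : 0 ≤ θ) (h1 : θ ≤ 1)
    (hη0 : 0 < η) (hη1 : η ≤ 1) (H : Finset κ) (d : ℕ) (h3 : 3 ≤ d)
    (hd : ∀ x, d ≤ dC col H x) (hV : 0 < Fintype.card V)
    (hn : 2 * ((Fintype.card V : ℝ) + (Fintype.card V : ℝ) ^ 2) <
      Real.exp (η ^ 2 * Fintype.card V / 36)) :
    ∃ A, A ⊆ H ∧ (∀ x, |(dC col A x : ℝ) - θ * dC col H x| ≤ η * Fintype.card V) ∧
      ∀ z z', z ≠ z' → θ ^ 2 * (1 - θ) * ((d : ℝ) - 3) ^ 2 - η * (Fintype.card V : ℝ) ^ 2 ≤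
        (gp col A z z').card := by
  obtain ⟨n, hn'⟩ : ∃ n : ℝ, n = (Fintype.card V : ℝ) := ⟨_, rfl⟩
  have hnpos : 0 < n := by
    rw [hn']
    exact_mod_cast hV
  rw [← hn'] at hn ⊢
  have hg1 : ∀ j ∈ DRes_J V, ∀ k ∈ H, 0 ≤ DRes_c col j k := by
    intro j _ k _
    cases j with
    | inl x =>
      unfold DRes_c
      dsimp only
      split_ifs <;> positivity
    | inr p => exact (infl_le col hcol p.1 p.2 k).1
  have hg2 : ∀ j ∈ DRes_J V, ∀ k ∈ H, ∀ A, A ⊆ H → k ∉ A →
      |DRes_g col j (insert k A) - DRes_g col j A| ≤ DRes_c col j k := by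
    intro j _ k _ A _ hk
    cases j with
    | inl x =>
      unfold DRes_g DRes_c
      dsimp only
      rw [← mul_sub, abs_mul, abs_of_nonneg (by positivity : (0 : ℝ) ≤ (Fintype.card V : ℝ))]
      exact mul_le_mul_of_nonneg_left (dC_lip col hcol A k hk x) (by positivity)
    | inr p => exact gp_lip col A k hk p.1 p.2
  have hVr : (0 : ℝ) < 9 * n ^ 3 := by positivity
  have ht : (0 : ℝ) < η * n ^ 2 := by positivity
  have hg3 : ∀ j ∈ DRes_J V, ∑ k ∈ H, DRes_c col j k ^ 2 ≤ 9 * n ^ 3 := by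
    intro j _
    cases j with
    | inl x =>
      have h5 := dC_var col H x
      rw [← hn'] at h5
      unfold DRes_c
      dsimp only
      rw [← hn']
      have h6 : (0 : ℝ) ≤ n ^ 3 := by positivity
      linarith
    | inr p =>
      have h5 := infl_var col hcol H p.1 p.2
      rw [← hn'] at h5
      exact h5
  have hg4 : ∀ j ∈ DRes_J V, ∀ k ∈ H, (η * n ^ 2) * DRes_c col j k ≤ 2 * (9 * n ^ 3) := by
    intro j _ k _
    have h6 : (0 : ℝ) ≤ n ^ 3 := by positivity
    have h8 : DRes_c col j k ≤ 3 * n := by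
      cases j with
      | inl x =>
        unfold DRes_c
        dsimp only
        rw [← hn']
        split_ifs
        · linarith
        · linarith
      | inr p =>
        have h5 := (infl_le col hcol p.1 p.2 k).2
        rw [← hn'] at h5
        exact h5
    have h9 : η * n ^ 2 ≤ n ^ 2 := by nlinarith [sq_nonneg n]
    calc (η * n ^ 2) * DRes_c col j k ≤ (η * n ^ 2) * (3 * n) :=
          mul_le_mul_of_nonneg_left h8 ht.le
      _ ≤ n ^ 2 * (3 * n) := mul_le_mul_of_nonneg_right h9 (by positivity)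
      _ = 3 * n ^ 3 := by ring
      _ ≤ 2 * (9 * n ^ 3) := by linarith
  have hg5 : 2 * ((DRes_J V).card : ℝ) < Real.exp ((η * n ^ 2) ^ 2 / (4 * (9 * n ^ 3))) := by
    have h7 : (η * n ^ 2) ^ 2 / (4 * (9 * n ^ 3)) = η ^ 2 * n / 36 := by
      field_simp
      ring
    rw [h7]
    have h8 : ((DRes_J V).card : ℝ) ≤ n + n ^ 2 := by
      have h9 := DRes_J_card V
      have h10 : ((DRes_J V).card : ℝ) ≤ ((Fintype.card V + Fintype.card V ^ 2 : ℕ) : ℝ) := by
        exact_mod_cast h9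
      rw [hn']
      push_cast at h10
      exact h10
    linarith
  obtain ⟨A, hA, h⟩ := rs_lemma θ h0 h1 H (DRes_J V) (DRes_g col) (DRes_c col) hg1 hg2
    (9 * n ^ 3) (η * n ^ 2) hVr ht hg3 hg4 hg5
  refine ⟨A, hA, fun x => ?_, fun z z' hz => ?_⟩
  · have h5 := h (Sum.inl x) (by simp [DRes_J])
    have h6 : ex θ H (DRes_g col (Sum.inl x)) = n * (θ * dC col H x) := by
      rw [← dC_ex col hcol θ H x, hn']
      unfold ex DRes_g
      dsimp only
      rw [Finset.mul_sum]
      refine Finset.sum_congr rfl (fun B _ => ?_)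
      ring
    rw [h6] at h5
    unfold DRes_g at h5
    dsimp only at h5
    rw [← hn', ← mul_sub, abs_mul, abs_of_pos hnpos] at h5
    have h7 : n * |(dC col A x : ℝ) - θ * dC col H x| ≤ n * (η * n) := by
      calc _ ≤ η * n ^ 2 := h5
        _ = n * (η * n) := by ring
    exact le_of_mul_le_mul_left h7 hnpos
  · have h5 := h (Sum.inr (z, z')) (by simp [DRes_J, hz])
    have h6 := gp_ex col hcol θ h0 h1 H d h3 hd z z' hz
    have h7 : ex θ H (DRes_g col (Sum.inr (z, z'))) =
        ex θ H (fun A => ((gp col A z z').card : ℝ)) := rfl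
    have h8 : DRes_g col (Sum.inr (z, z')) A = ((gp col A z z').card : ℝ) := rfl
    rw [h7, h8] at h5
    have h9 := (abs_le.1 h5).1
    linarith

end Pool.Agent.W_cd7020_h81d
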