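import Pool.Agent.W_cd7020_h81d.DNib
import Pool.Agent.W_cd7020_h81d.DRes
import Pool.Agent.W_cd7020_h81d.DNA

/-!
# The first phase
-/

set_option autoImplicit false

namespace Pool.Agent.W_cd7020_h81d

open Finset Pool.Agent.W_cd7020_h81 Pool.Agent.W_cd7020_h81b Pool.Agent.W_cd7020_h81n

variable {V κ : Type*} [DecidableEq V] [DecidableEq κ] [Fintype V]

/-- Monomials. -/
theorem DPhA_pow (l : ℝ) (hl : 10 ^ 7 ≤ l) (a b : ℕ) (h : a < b) (c : ℝ) (hc : c ≤ 10 ^ 7) :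
    c * l ^ a ≤ l ^ b := by
  have h0 : (0 : ℝ) < 10 ^ 7 := by norm_num
  have hl0 : 0 < l := lt_of_lt_of_le h0 hl
  have h1 : (1 : ℝ) ≤ 10 ^ 7 := by norm_num
  have hl1 : 1 ≤ l := h1.trans hl
  calc c * l ^ a ≤ l * l ^ a := mul_le_mul_of_nonneg_right (hc.trans hl) (by positivity)
    _ = l ^ (a + 1) := by rw [pow_succ, mul_comm]
    _ ≤ l ^ b := pow_le_pow_right₀ hl1 h

/-- Powers of reciprocals. -/
theorem DPhA_inv (l : ℝ) (a b : ℕ) : (1 / l ^ a) ^ b = 1 / l ^ (a * b) := by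
  rw [one_div_pow, ← pow_mul]

/-- The number `e₀`. -/
theorem DPhA_e0 (l : ℝ) : (1 / l ^ 1100) ^ 96 / l ^ 1200 = 1 / l ^ 106800 := by
  rw [DPhA_inv, div_div, ← pow_add]

/-- The conditions `NC` for `θ = 1 / (2 L ^ 358)`, `τ = 1 / L ^ 1100`, `e₀ = τ ^ 96 / L ^ 1200`. -/
theorem numA_NC (col : Sym2 V → κ) (hcol : Proper col) (L : ℕ) (hL : 10 ^ 7 ≤ L)
    (hn2 : L ^ 220000 ≤ Fintype.card V) (H A : Finset κ) (hA : A ⊆ H)
    (hdeg : ∀ x, |(dC col A x : ℝ) - 1 / (2 * (L : ℝ) ^ 358) * dC col H x| ≤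
      1 / (L : ℝ) ^ 107000 * Fintype.card V)
    (hsm : ∀ k ∈ H, ec col k * L ^ 358 + Fintype.card V ≤ Fintype.card V * L ^ 358) :
    NC col H A (1 / (2 * (L : ℝ) ^ 358)) (1 / (L : ℝ) ^ 1100)
      ((1 / (L : ℝ) ^ 1100) ^ 96 / (L : ℝ) ^ 1200) := by
  obtain ⟨l, hl'⟩ : ∃ l : ℝ, l = (L : ℝ) := ⟨_, rfl⟩
  obtain ⟨n, hn'⟩ : ∃ n : ℝ, n = (Fintype.card V : ℝ) := ⟨_, rfl⟩
  have hl : (10 : ℝ) ^ 7 ≤ l := by
    rw [hl']
    exact_mod_cast hL
  have hn : l ^ 220000 ≤ n := by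
    rw [hl', hn', ← Nat.cast_pow]
    exact Nat.cast_le.2 hn2
  rw [← hl', ← hn'] at hdeg
  rw [← hl']
  have hl0 : 0 < l := lt_of_lt_of_le (by norm_num) hl
  have hl1 : 1 ≤ l := le_trans (by norm_num) hl
  have hn0 : 0 < n := lt_of_lt_of_le (pow_pos hl0 _) hn
  have hp : ∀ a : ℕ, 1 ≤ l ^ a := fun a => one_le_pow₀ hl1
  have hp0 : ∀ a : ℕ, 0 < l ^ a := fun a => pow_pos hl0 a
  constructor
  · exact hcol
  · exact hA
  · have := hp0 358
    positivity
  · rw [div_le_div_iff₀ (by have := hp0 358; positivity) (by norm_num)]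
    have := hp 358
    linarith
  · exact one_div_pos.2 (hp0 _)
  · rw [div_le_one (hp0 _)]
    exact hp 1100
  · exact div_pos (pow_pos (one_div_pos.2 (hp0 _)) _) (hp0 _)
  · refine div_le_div_of_nonneg_left (pow_nonneg (one_div_pos.2 (hp0 _)).le _) (by norm_num) ?_
    have h1 := DPhA_pow l hl 0 1200 (by norm_num) 8 (by norm_num)
    rw [pow_zero, mul_one] at h1
    exact h1
  · rw [← hn', DPhA_e0, DPhA_inv, one_div_mul_one_div, ← pow_add, div_div_eq_mul_div, div_one]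
    exact (DPhA_pow l hl _ 220000 (by norm_num) 70 (by norm_num)).trans hn
  · intro x
    rw [← hn', DPhA_e0]
    have h1 := hdeg x
    have h2 := DPhA_pow l hl 106800 107000 (by norm_num) 8 (by norm_num)
    have h3 := (DPhA_pow l hl 106800 220000 (by norm_num) 4 (by norm_num)).trans hn
    have hX := hp0 106800
    have hY := hp0 107000
    generalize l ^ 106800 = X at *
    generalize l ^ 107000 = Y at *
    have h4 : 1 / Y * n ≤ 1 / X / 8 * n := by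
      refine mul_le_mul_of_nonneg_right ?_ hn0.le
      rw [div_div]
      refine one_div_le_one_div_of_le (by positivity) ?_
      linarith
    have h5 : 1 / 2 ≤ 1 / X / 8 * n := by
      rw [div_div, one_div_mul_eq_div, le_div_iff₀ (by positivity)]
      linarith
    have h6 : 1 / X / 4 * n = 1 / X / 8 * n + 1 / X / 8 * n := by ring
    rw [h6]
    exact add_le_add (h1.trans h4) h5
  · intro k hk
    have h1 := hsm k hk
    have h2 : (ec col k : ℝ) * l ^ 358 + n ≤ n * l ^ 358 := by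
      rw [hl', hn', ← Nat.cast_pow, ← Nat.cast_mul, ← Nat.cast_mul, ← Nat.cast_add]
      exact Nat.cast_le.2 h1
    rw [← hn']
    have hP := hp0 358
    generalize l ^ 358 = P at *
    refine le_of_mul_le_mul_right ?_ hP
    have h3 : (1 - 1 / (2 * P)) * n * P = n * P - n / 2 := by
      field_simp
    rw [h3]
    linarith

/-- The number of steps. -/
theorem DPhA_N (n L : ℕ) (hL : 10 ^ 7 ≤ L) (hn2 : L ^ 220000 ≤ n) :
    n - n / L ^ 1100 - 1 + (n / L ^ 1100 + 1) = n := by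
  have h1 : n / L ^ 1100 + 1 ≤ n := by
    have h2 : 10 ^ 7 ≤ L ^ 1100 := hL.trans (Nat.le_self_pow (by norm_num) L)
    have h3 : 10 ^ 7 ≤ n := (hL.trans (Nat.le_self_pow (by norm_num) L)).trans hn2
    have h4 : n / L ^ 1100 ≤ n / 2 := Nat.div_le_div_left (le_trans (by norm_num) h2) (by norm_num)
    omega
  omega

/-- Natural division. -/
theorem DPhA_div (n m : ℕ) (_ : 0 < m) : (n : ℝ) / m - 1 ≤ ((n / m : ℕ) : ℝ) := by
  have h1 := (Nat.sub_one_lt_floor ((n : ℝ) / m)).le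
  rwa [Nat.floor_div_eq_div] at h1

/-- The lower bound for the number of good arcs. -/
theorem DPhA_T (l n d N g q : ℝ) (hl : 10 ^ 7 ≤ l) (hn : l ^ 220000 ≤ n)
    (hd : n / (2 * l ^ 180) - 1 ≤ d) (hN : N + (q + 1) = n) (hq : q ≤ n / l ^ 1100)
    (hg : (1 / (2 * l ^ 358)) ^ 2 * (1 - 1 / (2 * l ^ 358)) * (d - 3) ^ 2 -
      1 / l ^ 107000 * n ^ 2 ≤ g) :
    n / l ^ 1077 ≤ N / n * (g / n) - (1 / l ^ 1100) ^ 96 / l ^ 1200 / (1 / l ^ 1100) ^ 96 * n := by
  have hl0 : 0 < l := lt_of_lt_of_le (by norm_num) hl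
  have hl1 : 1 ≤ l := le_trans (by norm_num) hl
  have hn0 : 0 < n := lt_of_lt_of_le (pow_pos hl0 _) hn
  have hp : ∀ a : ℕ, 1 ≤ l ^ a := fun a => one_le_pow₀ hl1
  have hp0 : ∀ a : ℕ, 0 < l ^ a := fun a => pow_pos hl0 a
  have e1 : (1 / l ^ 1100) ^ 96 / l ^ 1200 / (1 / l ^ 1100) ^ 96 * n = n / l ^ 1200 := by
    have h1 : (1 / l ^ 1100) ^ 96 ≠ 0 := (pow_pos (one_div_pos.2 (hp0 _)) _).ne'
    rw [div_right_comm, div_self h1, one_div_mul_eq_div]
  rw [e1]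
  have a1 : 1 ≤ n / 4 := by
    have h1 := (DPhA_pow l hl 0 220000 (by norm_num) 4 (by norm_num)).trans hn
    rw [pow_zero, mul_one] at h1
    linarith
  have a2 : n / l ^ 1100 ≤ n / 4 := by
    have h1 := DPhA_pow l hl 0 1100 (by norm_num) 4 (by norm_num)
    rw [pow_zero, mul_one] at h1
    exact div_le_div_of_nonneg_left hn0.le (by norm_num) h1
  have a3 : n / 2 ≤ N := by linarith
  have a4 : 40 ≤ n / (2 * l ^ 180) := by
    have h1 := (DPhA_pow l hl 180 220000 (by norm_num) 80 (by norm_num)).trans hn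
    have h2 := hp0 180
    rw [le_div_iff₀ (by positivity)]
    linarith
  have a5 : 9 / 10 * (n / (2 * l ^ 180)) ≤ d - 3 := by linarith
  have a6 : (9 / 10 * (n / (2 * l ^ 180))) ^ 2 ≤ (d - 3) ^ 2 := by
    have h1 : 0 ≤ 9 / 10 * (n / (2 * l ^ 180)) := by linarith
    exact pow_le_pow_left₀ h1 a5 2
  have a7 : 1 / 2 ≤ 1 - 1 / (2 * l ^ 358) := by
    have h1 : 1 / (2 * l ^ 358) ≤ 1 / 2 := by
      refine one_div_le_one_div_of_le (by norm_num) ?_
      have := hp 358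
      linarith
    linarith
  have a8 : (1 / (2 * l ^ 358)) ^ 2 * (1 / 2) * (9 / 10 * (n / (2 * l ^ 180))) ^ 2 ≤
      (1 / (2 * l ^ 358)) ^ 2 * (1 - 1 / (2 * l ^ 358)) * (d - 3) ^ 2 := by
    refine mul_le_mul (mul_le_mul_of_nonneg_left a7 (sq_nonneg _)) a6 (sq_nonneg _) ?_
    refine mul_nonneg (sq_nonneg _) ?_
    linarith
  have a9 : (1 / (2 * l ^ 358)) ^ 2 * (1 / 2) * (9 / 10 * (n / (2 * l ^ 180))) ^ 2 =
      81 / 3200 * (n ^ 2 / l ^ 1076) := by
    have h2 : l ^ 1076 = (l ^ 358) ^ 2 * (l ^ 180) ^ 2 := by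
      rw [← pow_mul, ← pow_mul, ← pow_add]
    rw [h2]
    have h3 := (hp0 358).ne'
    have h4 := (hp0 180).ne'
    generalize l ^ 358 = X at *
    generalize l ^ 180 = Y at *
    field_simp
    norm_num
  have a10 : 1 / l ^ 107000 * n ^ 2 ≤ 1 / 3200 * (n ^ 2 / l ^ 1076) := by
    have h1 := DPhA_pow l hl 1076 107000 (by norm_num) 3200 (by norm_num)
    have h2 : 1 / 3200 * (n ^ 2 / l ^ 1076) = 1 / (3200 * l ^ 1076) * n ^ 2 := by
      rw [div_mul_div_comm, one_mul, one_div_mul_eq_div]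
    rw [h2]
    refine mul_le_mul_of_nonneg_right ?_ (sq_nonneg _)
    exact one_div_le_one_div_of_le (by have := hp0 1076; positivity) h1
  have a11 : 1 / 40 * (n ^ 2 / l ^ 1076) ≤ g := by
    have h1 : 1 / 40 * (n ^ 2 / l ^ 1076) =
        81 / 3200 * (n ^ 2 / l ^ 1076) - 1 / 3200 * (n ^ 2 / l ^ 1076) := by ring
    rw [h1]
    linarith
  have a12 : 1 / 40 * (n / l ^ 1076) ≤ g / n := by
    rw [le_div_iff₀ hn0]
    refine le_trans (le_of_eq ?_) a11
    ring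
  have a13 : 1 / 2 ≤ N / n := by
    rw [le_div_iff₀ hn0]
    linarith
  have a14 : 1 / 2 * (1 / 40 * (n / l ^ 1076)) ≤ N / n * (g / n) := by
    refine mul_le_mul a13 a12 ?_ (le_trans (by norm_num) a13)
    have := hp0 1076
    positivity
  have a15 : n / l ^ 1077 ≤ 1 / 160 * (n / l ^ 1076) := by
    have h1 := DPhA_pow l hl 1076 1077 (by norm_num) 160 (by norm_num)
    have h2 : 1 / 160 * (n / l ^ 1076) = n / (160 * l ^ 1076) := by
      rw [div_mul_div_comm, one_mul]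
    rw [h2]
    exact div_le_div_of_nonneg_left hn0.le (by have := hp0 1076; positivity) h1
  have a16 : n / l ^ 1200 ≤ 1 / 160 * (n / l ^ 1076) := by
    have h1 := DPhA_pow l hl 1076 1200 (by norm_num) 160 (by norm_num)
    have h2 : 1 / 160 * (n / l ^ 1076) = n / (160 * l ^ 1076) := by
      rw [div_mul_div_comm, one_mul]
    rw [h2]
    exact div_le_div_of_nonneg_left hn0.le (by have := hp0 1076; positivity) h1
  linarith

/-- The first phase: `res_exists` with `θ = 1 / (2 L ^ 358)`, `η = 1 / L ^ 107000`,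
`d = n / (2 L ^ 180)` (natural division; `θ² (1 - θ) (d - 3)² - η n² ≥ n² / (80 L ^ 1076)`), then `nib_forest` with
`lam = 10 L`, `Nst = n - n / L ^ 1100 - 1`, `T = n / L ^ 1077`
(`(Nst / n) (n / (80 L ^ 1076)) - n / L ^ 1200 ≥ n / L ^ 1077` as `L ≥ 10 ^ 7`), `2 G ≤ L ^ 3302`. -/
theorem phaseA (col : Sym2 V → κ) (hcol : Proper col) (L : ℕ) (hL : 10 ^ 7 ≤ L)
    (hn : Fintype.card V ≤ 2 ^ L) (hn2 : L ^ 220000 ≤ Fintype.card V) (H : Finset κ)
    (hd : ∀ x, Fintype.card V ≤ 2 * L ^ 180 * dC col H x)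
    (hsm : ∀ k ∈ H, ec col k * L ^ 358 + Fintype.card V ≤ Fintype.card V * L ^ 358) :
    ∃ (A : Finset κ) (Q : Finset (V × V)) (F : Finset (Sym2 V)), LF univ F ∧ Rb col F ∧
      (∀ e ∈ F, col e ∉ A) ∧ Arcs col A Q (Fintype.card V / L ^ 1077) ∧
      Fintype.card V ≤ F.card + Fintype.card V / L ^ 1099 ∧
      lostA Q F ≤ Fintype.card V / L ^ 1099 := by
  obtain ⟨l, hl'⟩ : ∃ l : ℝ, l = (L : ℝ) := ⟨_, rfl⟩
  obtain ⟨n, hn'⟩ : ∃ n : ℝ, n = (Fintype.card V : ℝ) := ⟨_, rfl⟩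
  have hl : (10 : ℝ) ^ 7 ≤ l := by
    rw [hl']
    exact_mod_cast hL
  have hnr : l ^ 220000 ≤ n := by
    rw [hl', hn', ← Nat.cast_pow]
    exact Nat.cast_le.2 hn2
  have hl0 : 0 < l := lt_of_lt_of_le (by norm_num) hl
  have hl1 : 1 ≤ l := le_trans (by norm_num) hl
  have hn0 : 0 < n := lt_of_lt_of_le (pow_pos hl0 _) hnr
  have hp : ∀ a : ℕ, 1 ≤ l ^ a := fun a => one_le_pow₀ hl1
  have hp0 : ∀ a : ℕ, 0 < l ^ a := fun a => pow_pos hl0 a
  have hL0 : 0 < L := lt_of_lt_of_le (by norm_num) hL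
  have hV : 0 < Fintype.card V := lt_of_lt_of_le (pow_pos hL0 _) hn2
  have hcast : ∀ a : ℕ, ((L ^ a : ℕ) : ℝ) = l ^ a := fun a => by rw [hl', Nat.cast_pow]
  obtain ⟨d, hd'⟩ : ∃ d : ℕ, d = Fintype.card V / (2 * L ^ 180) := ⟨_, rfl⟩
  have hdr : n / (2 * l ^ 180) - 1 ≤ (d : ℝ) := by
    have h1 := DPhA_div (Fintype.card V) (2 * L ^ 180) (by positivity)
    rw [Nat.cast_mul, hcast, Nat.cast_ofNat, ← hn', ← hd'] at h1
    exact h1
  have hbig : 40 ≤ n / (2 * l ^ 180) := by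
    have h1 := (DPhA_pow l hl 180 220000 (by norm_num) 80 (by norm_num)).trans hnr
    have h2 := hp0 180
    rw [le_div_iff₀ (by positivity)]
    linarith
  have hd3 : 3 ≤ d := by
    have h1 : (3 : ℝ) ≤ d := by linarith
    exact_mod_cast h1
  obtain ⟨A, hA, hA1, hA2⟩ := res_exists col hcol (1 / (2 * (L : ℝ) ^ 358)) (1 / (L : ℝ) ^ 107000)
    (by positivity)
    (by
      rw [← hl', div_le_one (by have := hp0 358; positivity)]
      have := hp 358
      linarith)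
    (by rw [← hl']; exact one_div_pos.2 (hp0 _))
    (by rw [← hl', div_le_one (hp0 _)]; exact hp _) H d hd3
    (fun x => by rw [hd']; exact Nat.div_le_of_le_mul (hd x)) hV
    (numA_exp (Fintype.card V) L hL hn hn2)
  have hNC := numA_NC col hcol L hL hn2 H A hA hA1 hsm
  obtain ⟨G, hG⟩ : ∃ G : ℝ, G = 1 + 6 * (10 * (L : ℝ)) / (1 / (L : ℝ) ^ 1100) +
    5 / 4 * 2 / (1 / (L : ℝ) ^ 1100) ^ 3 := ⟨_, rfl⟩
  have hG2 : 2 * G ≤ l ^ 3301 := by
    have h1 := DPhA_pow l hl 3300 3301 (by norm_num) 8 (by norm_num)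
    have h2 := DPhA_pow l hl 1101 3300 (by norm_num) 120 (by norm_num)
    have h3 := hp 3300
    have h4 : 2 * G = 2 + 120 * l ^ 1101 + 5 * l ^ 3300 := by
      rw [hG, ← hl', DPhA_inv, div_div_eq_mul_div, div_one, div_div_eq_mul_div, div_one, pow_succ l 1100]
      ring
    rw [h4]
    linarith
  obtain ⟨Nst, hNst⟩ : ∃ N : ℕ, N = Fintype.card V - Fintype.card V / L ^ 1100 - 1 := ⟨_, rfl⟩
  have hN1 : Nst + (Fintype.card V / L ^ 1100 + 1) = Fintype.card V := by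
    rw [hNst]
    exact DPhA_N _ L hL hn2
  have hN2 : (Nst : ℝ) + (((Fintype.card V / L ^ 1100 : ℕ) : ℝ) + 1) = n := by
    rw [hn', ← Nat.cast_add_one, ← Nat.cast_add, hN1]
  have hN3 := DPhA_div (Fintype.card V) (L ^ 1100) (by positivity)
  have hN4 : ((Fintype.card V / L ^ 1100 : ℕ) : ℝ) ≤ Fintype.card V / (L ^ 1100 : ℕ) :=
    Nat.cast_div_le
  rw [hcast, ← hn'] at hN3 hN4
  have hN5 : (Nst : ℝ) ≤ (1 - 1 / l ^ 1100) * n := by
    have h1 : (1 - 1 / l ^ 1100) * n = n - n / l ^ 1100 := by ring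
    rw [h1]
    linarith
  obtain ⟨Q, F, h1, h2, h3, h4, h5, h6⟩ := nib_forest col H A _ _ _ hNC (10 * (L : ℝ))
    (by rw [← hl']; linarith)
    (by
      rw [← hl', DPhA_e0, DPhA_inv, DPhA_inv, one_div_mul_one_div, ← pow_add, div_div_eq_mul_div,
        div_one, ← hn', mul_pow]
      calc 600 * ((10 : ℝ) ^ 2 * l ^ 2) * l ^ (1100 * 4 + 106800 * 2)
          = 60000 * l ^ (2 + (1100 * 4 + 106800 * 2)) := by rw [pow_add l 2]; ring
        _ ≤ l ^ 220000 := DPhA_pow l hl _ _ (by norm_num) _ (by norm_num)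
        _ ≤ n := hnr)
    G hG
    (by rw [hG]; exact numA_lam (Fintype.card V) L hL hn hV) Nst
    (by rw [← hl', ← hn']; exact hN5) (Fintype.card V / L ^ 1077)
    (by
      intro z z' hzz
      have hg := hA2 z z' hzz
      rw [← hl', ← hn'] at hg ⊢
      have hT1 : ((Fintype.card V / L ^ 1077 : ℕ) : ℝ) ≤ Fintype.card V / (L ^ 1077 : ℕ) :=
        Nat.cast_div_le
      rw [hcast, ← hn'] at hT1
      refine hT1.trans ?_
      exact DPhA_T l n d Nst _ _ hl hnr hdr hN2 hN4 hg)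
  have hc1 := DPhA_div (Fintype.card V) (L ^ 1099) (by positivity)
  rw [hcast, ← hn'] at hc1
  have hc2 : l ^ 3301 + n / l ^ 1100 + 2 ≤ n / l ^ 1099 := by
    have b1 : n / l ^ 1099 = l * (n / l ^ 1100) := by
      rw [pow_succ l 1099]
      have := (hp0 1099).ne'
      field_simp
    have b2 : l ^ 3302 ≤ n / l ^ 1100 := by
      rw [le_div_iff₀ (hp0 _), ← pow_add]
      have := DPhA_pow l hl (3302 + 1100) 220000 (by norm_num) 1 (by norm_num)
      rw [one_mul] at this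
      exact this.trans hnr
    have b3 := DPhA_pow l hl 3301 3302 (by norm_num) 1 (by norm_num)
    have b4 := hp 3302
    have b5 : 4 * (n / l ^ 1100) ≤ l * (n / l ^ 1100) := by
      refine mul_le_mul_of_nonneg_right (le_trans (by norm_num) hl) ?_
      linarith
    rw [b1]
    linarith
  refine ⟨A, Q, F, h1, h2, h3, h4, ?_, ?_⟩
  · have hc3 : n ≤ F.card + ((Fintype.card V / L ^ 1099 : ℕ) : ℝ) := by linarith
    rw [hn', ← Nat.cast_add] at hc3
    exact Nat.cast_le.1 hc3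
  · have hc3 : (lostA Q F : ℝ) ≤ ((Fintype.card V / L ^ 1099 : ℕ) : ℝ) := by
      have hc4 : 0 ≤ n / l ^ 1100 := div_nonneg hn0.le (hp0 _).le
      linarith
    exact Nat.cast_le.1 hc3

end Pool.Agent.W_cd7020_h81d
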