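import Pool.Agent.W_cd7020_h81d.DMrA
import Pool.Agent.W_cd7020_h81b.NumB

/-!
# The merging phases
-/

set_option autoImplicit false

namespace Pool.Agent.W_cd7020_h81d

open Finset Pool.Agent.W_cd7020_h81 Pool.Agent.W_cd7020_h81b Pool.Agent.W_cd7020_h81c

variable {V κ : Type*} [DecidableEq V] [DecidableEq κ] [Fintype V]

theorem DPhB_div (n L a b : ℕ) : L ^ b * (n / L ^ (a + b)) ≤ n / L ^ a := by
  rw [pow_add, ← Nat.div_div_eq_div_mul]
  exact Nat.mul_div_le _ _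

/-- The arithmetic of the merging phases. -/
theorem DPhB_num (n L : ℕ) (hL : 10 ^ 7 ≤ L) (hn2 : L ^ 220000 ≤ n) :
    10 ^ 7 * (n / L ^ 1078) ≤ n / L ^ 1077 ∧ n / L ^ 1099 ≤ n / L ^ 1078 ∧
      L ^ 2400 ≤ n / L ^ 1078 ∧ L ^ 1078 ≤ n / L ^ 1078 ∧ 1 ≤ n / L ^ 1078 ∧
      4 * L ^ 1078 ≤ 2 * L ^ 2400 ∧ 2 * n < 2 * L ^ 1078 * (n / L ^ 1078 + 1) := by
  have hL0 : 0 < L := by omega
  have hp : 0 < L ^ 1078 := Nat.pow_pos hL0
  have e1 : n / L ^ 1078 * 10 ^ 7 ≤ n / L ^ 1077 := by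
    have h1 := DPhB_div n L 1077 1
    rw [pow_one] at h1
    calc n / L ^ 1078 * 10 ^ 7 ≤ n / L ^ 1078 * L := Nat.mul_le_mul_left _ hL
      _ = L * (n / L ^ (1077 + 1)) := by rw [mul_comm]
      _ ≤ _ := h1
  have e2 : n / L ^ 1099 ≤ n / L ^ 1078 :=
    Nat.div_le_div_left (Nat.pow_le_pow_right hL0 (by norm_num)) hp
  have e3 : L ^ 2400 ≤ n / L ^ 1078 := by
    rw [Nat.le_div_iff_mul_le hp, ← pow_add]
    exact (Nat.pow_le_pow_right hL0 (by norm_num)).trans hn2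
  have e4 : L ^ 1078 ≤ L ^ 2400 := Nat.pow_le_pow_right hL0 (by norm_num)
  have e5 : 1 ≤ L ^ 2400 := Nat.pow_pos hL0
  have e6 : 4 * L ^ 1078 ≤ 2 * L ^ 2400 := by
    have h1 : 2 * L ^ 1078 ≤ L * L ^ 1078 := Nat.mul_le_mul_right _ (by omega)
    have h2 : L * L ^ 1078 = L ^ 1079 := by rw [pow_succ' L 1078]
    have h3 : L ^ 1079 ≤ L ^ 2400 := Nat.pow_le_pow_right hL0 (by norm_num)
    omega
  have e7 : n < L ^ 1078 * (n / L ^ 1078 + 1) := Nat.lt_mul_div_succ n hp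
  refine ⟨by rw [mul_comm]; exact e1, e2, e3, e4.trans e3, e5.trans e3, e6, ?_⟩
  rw [mul_assoc]
  omega

theorem DPhB_card (L : ℕ) (hL : 10 ^ 7 ≤ L) (hn2 : L ^ 220000 ≤ Fintype.card V)
    (F : Finset (Sym2 V)) (hF : LF univ F) : F.card + (Fintype.card V - F.card) =
      Fintype.card V := by
  have h0 : 0 < L ^ 220000 := Nat.pow_pos (by omega)
  have h1 : 0 < Fintype.card V := lt_of_lt_of_le h0 hn2
  haveI : Nonempty V := Fintype.card_pos_iff.1 h1
  have h2 := hF.card_lt Finset.univ_nonempty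
  rw [Finset.card_univ] at h2
  omega

/-- The second phase: `merge_all` with `G = ∅`, `ℓ = n / L ^ 1078`, `K₁ = 2 L ^ 1078`. -/
theorem phaseB (col : Sym2 V → κ) (hcol : Proper col) (L : ℕ) (hL : 10 ^ 7 ≤ L)
    (hn2 : L ^ 220000 ≤ Fintype.card V) (A : Finset κ) (Q : Finset (V × V))
    (hQ : Arcs col A Q (Fintype.card V / L ^ 1077)) (F : Finset (Sym2 V)) (hF : LF univ F)
    (hr : Rb col F) (hFA : ∀ e ∈ F, col e ∉ A)
    (hFc : Fintype.card V ≤ F.card + Fintype.card V / L ^ 1099)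
    (hlost : lostA Q F ≤ Fintype.card V / L ^ 1099) :
    ∃ F₁ : Finset (Sym2 V), LF univ F₁ ∧ Rb col F₁ ∧ Fintype.card V ≤ F₁.card + 2 * L ^ 1078 ∧
      lostA Q F₁ ≤ 2 * (Fintype.card V / L ^ 1099) ∧
      (A ∩ cE col F₁).card ≤ 2 * (Fintype.card V / L ^ 1099) := by
  classical
  obtain ⟨n1, n2, n3, n4, n5, n6, n7⟩ := DPhB_num (Fintype.card V) L hL hn2
  have hq := DPhB_card L hL hn2 F hF
  have hA0 : A ∩ (cE col F ∪ ∅) = ∅ := by
    rw [Finset.union_empty, Finset.eq_empty_iff_forall_notMem]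
    intro c hc
    obtain ⟨hcA, hcF⟩ := Finset.mem_inter.1 hc
    obtain ⟨e, he, rfl⟩ := Finset.mem_image.1 hcF
    exact hFA e he hcA
  obtain ⟨F₁, hF₁, hr₁, hc₁, hle, hnew, hd, hd'⟩ := merge_all col hcol A ∅ Q _ hQ
    (Fintype.card V / L ^ 1078) (2 * L ^ 1078) n7 (Fintype.card V - F.card) F hF hr hq (by
      rw [hA0, Finset.card_empty]
      omega)
  refine ⟨F₁, hF₁, hr₁, hc₁, ?_, ?_⟩
  · have h1 := lostA_step col A Q _ hQ F F₁
    omega
  · have h1 : A ∩ cE col F₁ ⊆ (F₁ \ F).image col := by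
      intro c hc
      obtain ⟨hcA, hcF⟩ := Finset.mem_inter.1 hc
      obtain ⟨e, he, rfl⟩ := Finset.mem_image.1 hcF
      exact Finset.mem_image_of_mem col
        (Finset.mem_sdiff.2 ⟨he, fun heF => hFA e heF hcA⟩)
    have h2 := (Finset.card_le_card h1).trans Finset.card_image_le
    omega

/-- The third phase: remove the edges of `F₁` with colours in the pools (`≤ 5 L ^ 2400` edges) and merge
again, `merge_all` with `G = ⋃ B i`, `ℓ = n / L ^ 1078`, `K₁ = 2 L ^ 1078`. The new edges (at most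
`2 (2 L ^ 1078 + 5 L ^ 2400)`) have colours outside the pools. -/
theorem phaseD (col : Sym2 V → κ) (hcol : Proper col) (L : ℕ) (hL : 10 ^ 7 ≤ L)
    (hn2 : L ^ 220000 ≤ Fintype.card V) (A : Finset κ) (Q : Finset (V × V))
    (hQ : Arcs col A Q (Fintype.card V / L ^ 1077)) (F₁ : Finset (Sym2 V)) (hF : LF univ F₁)
    (hr : Rb col F₁) (hFc : Fintype.card V ≤ F₁.card + 2 * L ^ 1078)
    (hlost : lostA Q F₁ ≤ 2 * (Fintype.card V / L ^ 1099))
    (hA : (A ∩ cE col F₁).card ≤ 2 * (Fintype.card V / L ^ 1099))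
    (B : Fin 5 → Finset κ) (hB : ∀ i, (B i).card = L ^ 2400) :
    ∃ F₂ : Finset (Sym2 V), LF univ F₂ ∧ Rb col F₂ ∧ Fintype.card V ≤ F₂.card + 2 * L ^ 1078 ∧
      (∀ i, Disjoint (B i) (cE col F₂)) ∧
      (((univ : Finset (Sym2 V)).image col \ cE col F₁) ∩ cE col F₂).card ≤ 12 * L ^ 2400 := by
  classical
  obtain ⟨n1, n2, n3, n4, n5, n6, n7⟩ := DPhB_num (Fintype.card V) L hL hn2
  set G : Finset κ := (univ : Finset (Fin 5)).biUnion B with hG
  have hGc : G.card ≤ 5 * L ^ 2400 := by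
    refine Finset.card_biUnion_le.trans ?_
    rw [Finset.sum_congr rfl fun i _ => hB i, Finset.sum_const, Finset.card_univ,
      Fintype.card_fin, smul_eq_mul]
  set F' : Finset (Sym2 V) := F₁.filter (fun e => col e ∉ G) with hF'
  have hsub : F' ⊆ F₁ := Finset.filter_subset _ _
  have hF'L : LF univ F' := hF.mono hsub
  have hr' : Rb col F' := fun e he e' he' h => hr e (hsub he) e' (hsub he') h
  have hrem : (F₁ \ F').card ≤ 5 * L ^ 2400 := by
    refine le_trans ?_ hGc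
    refine Finset.card_le_card_of_injOn col ?_ ?_
    · intro e he
      have he' := Finset.mem_sdiff.1 (Finset.mem_coe.1 he)
      by_contra hcon
      exact he'.2 (Finset.mem_filter.2 ⟨he'.1, hcon⟩)
    · intro e he e' he' h
      exact hr e (Finset.mem_sdiff.1 (Finset.mem_coe.1 he)).1 e'
        (Finset.mem_sdiff.1 (Finset.mem_coe.1 he')).1 h
  have hcard' : F₁.card ≤ F'.card + 5 * L ^ 2400 := by
    have h1 := Finset.card_sdiff_add_card_eq_card hsub
    omega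
  have hq := DPhB_card L hL hn2 F' hF'L
  have hAG : (A ∩ (cE col F' ∪ G)).card ≤
      2 * (Fintype.card V / L ^ 1099) + 5 * L ^ 2400 := by
    have h1 : A ∩ (cE col F' ∪ G) ⊆ (A ∩ cE col F₁) ∪ G := by
      intro c hc
      obtain ⟨hcA, hc2⟩ := Finset.mem_inter.1 hc
      rcases Finset.mem_union.1 hc2 with h2 | h2
      · refine Finset.mem_union_left _ (Finset.mem_inter.2 ⟨hcA, ?_⟩)
        obtain ⟨e, he, rfl⟩ := Finset.mem_image.1 h2
        exact Finset.mem_image_of_mem col (hsub he)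
      · exact Finset.mem_union_right _ h2
    have h2 := (Finset.card_le_card h1).trans (Finset.card_union_le _ _)
    omega
  have hl := lostA_step col A Q _ hQ F₁ F'
  obtain ⟨F₂, hF₂, hr₂, hc₂, hle, hnew, hd, hd'⟩ := merge_all col hcol A G Q _ hQ
    (Fintype.card V / L ^ 1078) (2 * L ^ 1078) n7 (Fintype.card V - F'.card) F' hF'L hr' hq (by
      omega)
  refine ⟨F₂, hF₂, hr₂, hc₂, fun i => ?_, ?_⟩
  · rw [Finset.disjoint_left]
    intro c hcB hcE
    obtain ⟨e, he, rfl⟩ := Finset.mem_image.1 hcE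
    have hcG : col e ∈ G := Finset.mem_biUnion.2 ⟨i, Finset.mem_univ i, hcB⟩
    by_cases heF : e ∈ F'
    · exact (Finset.mem_filter.1 heF).2 hcG
    · exact (hnew e he heF).2 hcG
  · have h1 : (((univ : Finset (Sym2 V)).image col \ cE col F₁) ∩ cE col F₂) ⊆
        (F₂ \ F').image col := by
      intro c hc
      obtain ⟨hc1, hc2⟩ := Finset.mem_inter.1 hc
      obtain ⟨e, he, rfl⟩ := Finset.mem_image.1 hc2
      refine Finset.mem_image_of_mem col (Finset.mem_sdiff.2 ⟨he, fun heF => ?_⟩)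
      exact (Finset.mem_sdiff.1 hc1).2 (Finset.mem_image_of_mem col (hsub heF))
    have h2 := (Finset.card_le_card h1).trans Finset.card_image_le
    omega

end Pool.Agent.W_cd7020_h81d
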