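import Pool.Agent.W_cd7020_h81d.DClo
import Pool.Agent.W_cd7020_h81b.NumB

/-!
# Pools and closing
-/

set_option autoImplicit false

namespace Pool.Agent.W_cd7020_h81d

open Finset Pool.Agent.W_cd7020_h81 Pool.Agent.W_cd7020_h81b Pool.Agent.W_cd7020_h81c

variable {V κ : Type*} [DecidableEq V] [DecidableEq κ] [Fintype V]

theorem DPhC_nat (L : ℕ) (hL : 10 ^ 7 ≤ L) (c a b : ℕ) (hc : c ≤ 10 ^ 7) (hab : a + 1 ≤ b) :
    c * L ^ a ≤ L ^ b := by
  calc c * L ^ a ≤ L * L ^ a := Nat.mul_le_mul_right _ (hc.trans hL)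
    _ = L ^ (a + 1) := by rw [pow_succ, mul_comm]
    _ ≤ L ^ b := Nat.pow_le_pow_right (by omega) hab

theorem DPhC_real (x : ℝ) (hx : 10 ^ 7 ≤ x) (c : ℝ) (a b : ℕ) (hc : c ≤ 10 ^ 7)
    (hab : a + 1 ≤ b) : c * x ^ a ≤ x ^ b := by
  have hx0 : 0 ≤ x := le_trans (by norm_num) hx
  calc c * x ^ a ≤ x * x ^ a := mul_le_mul_of_nonneg_right (hc.trans hx) (pow_nonneg hx0 _)
    _ = x ^ (a + 1) := by rw [pow_succ, mul_comm]
    _ ≤ x ^ b := pow_le_pow_right₀ (le_trans (by norm_num) hx) hab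

theorem DPhC_log (x n δ : ℝ) (L kB : ℕ) (hx : x = L) (hx7 : 10 ^ 7 ≤ x) (hn0 : 0 < n)
    (hn : n ≤ 2 ^ L) (hδ : δ = 10 / x ^ 2400) (hkB : (kB : ℝ) = x ^ 2400) :
    Real.log (24 * n * (1 + δ) ^ (5 * kB)) / (1 / x ^ 1200) + 1 ≤ x ^ 1202 := by
  have hx0 : 0 < x := lt_of_lt_of_le (by norm_num) hx7
  have hδ0 : 0 ≤ δ := by rw [hδ]; positivity
  have h1 : (1 + δ) ^ (5 * kB) ≤ Real.exp 50 := by
    calc (1 + δ) ^ (5 * kB) ≤ (Real.exp δ) ^ (5 * kB) :=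
          pow_le_pow_left₀ (by linarith) (by linarith [Real.add_one_le_exp δ]) _
      _ = Real.exp (((5 * kB : ℕ) : ℝ) * δ) := (Real.exp_nat_mul _ _).symm
      _ = Real.exp 50 := by
          congr 1
          rw [hδ]
          push_cast
          rw [hkB]
          field_simp
          norm_num
  have h2 : n ≤ Real.exp x := by
    calc n ≤ 2 ^ L := hn
      _ ≤ (Real.exp 1) ^ L := pow_le_pow_left₀ (by norm_num)
          (by linarith [Real.add_one_le_exp (1 : ℝ)]) _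
      _ = Real.exp x := by rw [← Real.exp_nat_mul, mul_one, hx]
  have h3 : (24 : ℝ) ≤ Real.exp 24 := by linarith [Real.add_one_le_exp (24 : ℝ)]
  have hpos : 0 < 24 * n * (1 + δ) ^ (5 * kB) := by positivity
  have h4 : 24 * n * (1 + δ) ^ (5 * kB) ≤ Real.exp (24 + x + 50) := by
    rw [Real.exp_add, Real.exp_add]
    exact mul_le_mul (mul_le_mul h3 h2 hn0.le (Real.exp_pos _).le) h1 (by positivity)
      (by positivity)
  have h5 : Real.log (24 * n * (1 + δ) ^ (5 * kB)) ≤ 24 + x + 50 :=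
    (Real.log_le_iff_le_exp hpos).2 h4
  have hxp : 0 < x ^ 1200 := pow_pos hx0 _
  rw [div_div_eq_mul_div, div_one]
  have h6 : Real.log (24 * n * (1 + δ) ^ (5 * kB)) * x ^ 1200 ≤ (24 + x + 50) * x ^ 1200 :=
    mul_le_mul_of_nonneg_right h5 hxp.le
  have h7 : (24 + x + 50) * x ^ 1200 + 1 ≤ x ^ 1202 := by
    have e1 : (1 : ℝ) ≤ x ^ 1200 := one_le_pow₀ (le_trans (by norm_num) hx7)
    have e2 : x ^ 1202 = x * x * x ^ 1200 := by ring
    rw [e2]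
    have e3 : 24 + x + 50 + 1 ≤ x * x := by nlinarith
    nlinarith
  linarith

/-- The pools for `C = cE col F₁`: `pools_exist` with `kB = L ^ 2400`, `lam = 1 / L ^ 1200`,
`δ = 10 / L ^ 2400`, `a = L ^ 1202`: `log (24 n (1 + δ) ^ (5 kB)) ≤ log (24 n) + 50 ≤ L + 60`. -/
theorem phaseC (col : Sym2 V → κ) (hcol : Proper col) (L : ℕ) (hL : 10 ^ 7 ≤ L)
    (hn : Fintype.card V ≤ 2 ^ L) (hn2 : L ^ 220000 ≤ Fintype.card V) (C : Finset κ)
    (hC : Fintype.card V ≤ 2 * C.card) :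
    ∃ B : Fin 5 → Finset κ, (∀ i, B i ⊆ C) ∧ (∀ i, (B i).card = L ^ 2400) ∧
      PoolsC col B ((univ : Finset (Sym2 V)).image col \ C) (((L ^ 2400 : ℕ) : ℝ) / C.card)
        (((L ^ 2400 : ℕ) : ℝ) / C.card * Fintype.card V) ((L : ℝ) ^ 1202) := by
  have hx7 : (10 : ℝ) ^ 7 ≤ (L : ℝ) := by exact_mod_cast hL
  have hx0 : (0 : ℝ) < (L : ℝ) := lt_of_lt_of_le (by norm_num) hx7
  have hx1 : (1 : ℝ) ≤ (L : ℝ) := le_trans (by norm_num) hx7
  have hnC : L ^ 220000 ≤ 2 * C.card := hn2.trans hC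
  have hk0 : 40 * L ^ 2400 ≤ L ^ 220000 := DPhC_nat L hL 40 2400 220000 (by norm_num) (by norm_num)
  have hk1 : 40 * (L : ℝ) ^ 4800 ≤ (L : ℝ) ^ 220000 :=
    DPhC_real L hx7 40 4800 220000 (by norm_num) (by norm_num)
  have hLp : 1 ≤ L ^ 2400 := Nat.one_le_pow _ _ (by omega)
  have hLp2 : 1 ≤ L ^ 220000 := Nat.one_le_pow _ _ (by omega)
  have hCr : (L : ℝ) ^ 220000 ≤ 2 * (C.card : ℝ) := by exact_mod_cast hnC
  have hCpos : (0 : ℝ) < (C.card : ℝ) := by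
    have : 0 < (L : ℝ) ^ 220000 := pow_pos hx0 _
    linarith
  have hkB : (((L ^ 2400 : ℕ) : ℕ) : ℝ) = (L : ℝ) ^ 2400 := by push_cast; rfl
  have hn0 : 0 < Fintype.card V := lt_of_lt_of_le (Nat.lt_of_lt_of_le Nat.zero_lt_one hLp2) hn2
  have hC1 : 1 ≤ C.card := by
    by_contra hcon
    have h0 : C.card = 0 := by omega
    rw [h0] at hnC
    generalize L ^ 220000 = z at *
    omega
  have hk2 : 20 * L ^ 2400 ≤ C.card := by
    generalize L ^ 220000 = z at *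
    generalize L ^ 2400 = y at *
    omega
  refine pools_exist col hcol C hC1 (L ^ 2400) hk2 hn0 (1 / (L : ℝ) ^ 1200) (10 / (L : ℝ) ^ 2400)
    ((L : ℝ) ^ 1202) (by positivity) ?_ (by positivity) ?_ ?_
  · rw [mul_one_div, div_le_one (pow_pos hx0 _)]
    have h1 := DPhC_real L hx7 2 0 1200 (by norm_num) (by norm_num)
    simpa using h1
  · have hu : (0 : ℝ) < 1 / (L : ℝ) ^ 2400 := by positivity
    have hu1 : 1 / (L : ℝ) ^ 2400 ≤ 1 / 10 := by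
      apply one_div_le_one_div_of_le (by norm_num)
      have h1 := DPhC_real L hx7 10 0 2400 (by norm_num) (by norm_num)
      simpa using h1
    have hlam : (1 / (L : ℝ) ^ 1200) ^ 2 = 1 / (L : ℝ) ^ 2400 := by
      rw [div_pow, one_pow, ← pow_mul]
    have hlam1 : 1 / (L : ℝ) ^ 1200 ≤ 1 / 2 := by
      apply one_div_le_one_div_of_le (by norm_num)
      have h1 := DPhC_real L hx7 2 0 1200 (by norm_num) (by norm_num)
      simpa using h1
    have hlam0 : 0 ≤ 1 / (L : ℝ) ^ 1200 := by positivity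
    have hy : 2 * (((5 * L ^ 2400 : ℕ) : ℕ) : ℝ) / C.card ≤ 1 / (L : ℝ) ^ 2400 / 2 := by
      rw [div_div, div_le_div_iff₀ hCpos (by positivity)]
      push_cast
      have e1 : 2 * (5 * (L : ℝ) ^ 2400) * ((L : ℝ) ^ 2400 * 2) = 20 * (L : ℝ) ^ 4800 := by
        ring
      rw [e1]
      linarith
    have hy0 : 0 ≤ 2 * (((5 * L ^ 2400 : ℕ) : ℕ) : ℝ) / C.card := by positivity
    have e2 : (0 + 0 + 2 * (((5 * L ^ 2400 : ℕ) : ℕ) : ℝ)) / C.card =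
        2 * (((5 * L ^ 2400 : ℕ) : ℕ) : ℝ) / C.card := by
      rw [zero_add, zero_add]
    rw [e2, hlam]
    have e3 : (10 : ℝ) / (L : ℝ) ^ 2400 = 10 * (1 / (L : ℝ) ^ 2400) := by ring
    rw [e3]
    generalize 2 * (((5 * L ^ 2400 : ℕ) : ℕ) : ℝ) / C.card = y at hy hy0 ⊢
    generalize 1 / (L : ℝ) ^ 2400 = u at hu hu1 hy ⊢
    generalize 1 / (L : ℝ) ^ 1200 = v at hlam0 hlam1 ⊢
    have e4 : 2 * v * y ≤ y := by nlinarith
    calc (1 + y) * (1 + 8 * u + 2 * v * y) ≤ (1 + u / 2) * (1 + 8 * u + u / 2) := by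
          apply mul_le_mul (by linarith) (by linarith) (by positivity) (by linarith)
      _ ≤ 1 + 10 * u := by nlinarith
  · exact DPhC_log L (Fintype.card V) _ L (L ^ 2400) rfl hx7 (by exact_mod_cast hn0)
      (by exact_mod_cast hn) rfl hkB

/-- The last phase: `closeC_all` with `J = L`, `D₁ = 2 L ^ 1079`, `D₂ = 13 L ^ 2400`. -/
theorem phaseE (col : Sym2 V → κ) (hcol : Proper col) (L : ℕ) (hL : 10 ^ 7 ≤ L)
    (hn : Fintype.card V ≤ 2 ^ L) (hn2 : L ^ 220000 ≤ Fintype.card V) (C : Finset κ)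
    (hC : Fintype.card V ≤ 2 * C.card) (B : Fin 5 → Finset κ)
    (hC2 : C.card ≤ Fintype.card V)
    (hP : PoolsC col B ((univ : Finset (Sym2 V)).image col \ C) (((L ^ 2400 : ℕ) : ℝ) / C.card)
        (((L ^ 2400 : ℕ) : ℝ) / C.card * Fintype.card V) ((L : ℝ) ^ 1202))
    (F₂ : Finset (Sym2 V)) (hF : LF univ F₂) (hr : Rb col F₂)
    (hFc : Fintype.card V ≤ F₂.card + 2 * L ^ 1078) (hBF : ∀ i, Disjoint (B i) (cE col F₂))
    (hK : (((univ : Finset (Sym2 V)).image col \ C) ∩ cE col F₂).card ≤ 12 * L ^ 2400) :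
    ∃ E, Cyc univ E ∧ E.card = Fintype.card V ∧ Rb col E := by
  have hx7 : (10 : ℝ) ^ 7 ≤ (L : ℝ) := by exact_mod_cast hL
  have hx0 : (0 : ℝ) < (L : ℝ) := lt_of_lt_of_le (by norm_num) hx7
  have hx1 : (1 : ℝ) ≤ (L : ℝ) := le_trans (by norm_num) hx7
  have hnC : L ^ 220000 ≤ 2 * C.card := hn2.trans hC
  have hk0 : 40 * L ^ 2400 ≤ L ^ 220000 := DPhC_nat L hL 40 2400 220000 (by norm_num) (by norm_num)
  have hk1 : 40 * (L : ℝ) ^ 4800 ≤ (L : ℝ) ^ 220000 :=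
    DPhC_real L hx7 40 4800 220000 (by norm_num) (by norm_num)
  have hk3 : 10 ^ 7 * L ^ 2 ≤ L ^ 220000 :=
    DPhC_nat L hL (10 ^ 7) 2 220000 (by norm_num) (by norm_num)
  have hk4 : 10 * L ^ 1079 ≤ L ^ 2400 := DPhC_nat L hL 10 1079 2400 (by norm_num) (by norm_num)
  have hCr : (L : ℝ) ^ 220000 ≤ 2 * (C.card : ℝ) := by exact_mod_cast hnC
  have hCpos : (0 : ℝ) < (C.card : ℝ) := by
    have : 0 < (L : ℝ) ^ 220000 := pow_pos hx0 _
    linarith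
  have hCn : (C.card : ℝ) ≤ Fintype.card V := by exact_mod_cast hC2
  have hkB : (((L ^ 2400 : ℕ) : ℕ) : ℝ) = (L : ℝ) ^ 2400 := by push_cast; rfl
  have hβ0 : 0 ≤ (((L ^ 2400 : ℕ) : ℕ) : ℝ) / C.card := by positivity
  have hβ1 : (((L ^ 2400 : ℕ) : ℕ) : ℝ) / C.card ≤ 1 := by
    rw [div_le_one hCpos]
    have h1 : L ^ 2400 ≤ C.card := by
      generalize L ^ 220000 = z at *
      generalize L ^ 2400 = y at *
      omega
    exact_mod_cast h1
  have hk : (L : ℝ) ^ 2400 ≤ (((L ^ 2400 : ℕ) : ℕ) : ℝ) / C.card * Fintype.card V := by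
    rw [hkB, div_mul_eq_mul_div, le_div_iff₀ hCpos]
    exact mul_le_mul_of_nonneg_left hCn (pow_nonneg hx0.le _)
  have hβV : 0 ≤ (((L ^ 2400 : ℕ) : ℕ) : ℝ) / C.card * Fintype.card V :=
    mul_nonneg hβ0 (Nat.cast_nonneg _)
  have hβ13 : (((L ^ 2400 : ℕ) : ℕ) : ℝ) / C.card * ((13 * L ^ 2400 : ℕ) : ℝ) ≤ 1 := by
    rw [div_mul_eq_mul_div, div_le_one hCpos]
    push_cast
    have e1 : (L : ℝ) ^ 2400 * (13 * (L : ℝ) ^ 2400) = 13 * (L : ℝ) ^ 4800 := by ring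
    rw [e1]
    have e2 : 0 ≤ (L : ℝ) ^ 4800 := pow_nonneg hx0.le _
    linarith
  have hak : 10 ^ 6 * (L : ℝ) * ((L : ℝ) ^ 1202 + (((2 * L ^ 1079 : ℕ) : ℝ) +
      (((L ^ 2400 : ℕ) : ℕ) : ℝ) / C.card * ((13 * L ^ 2400 : ℕ) : ℝ))) ≤
      (((L ^ 2400 : ℕ) : ℕ) : ℝ) / C.card * Fintype.card V := by
    refine le_trans ?_ hk
    have e1 : ((2 * L ^ 1079 : ℕ) : ℝ) ≤ (L : ℝ) ^ 1202 := by
      push_cast
      exact DPhC_real L hx7 2 1079 1202 (by norm_num) (by norm_num)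
    have e2 : (1 : ℝ) ≤ (L : ℝ) ^ 1202 := one_le_pow₀ hx1
    calc 10 ^ 6 * (L : ℝ) * ((L : ℝ) ^ 1202 + (((2 * L ^ 1079 : ℕ) : ℝ) +
      (((L ^ 2400 : ℕ) : ℕ) : ℝ) / C.card * ((13 * L ^ 2400 : ℕ) : ℝ)))
        ≤ 10 ^ 6 * (L : ℝ) * (3 * (L : ℝ) ^ 1202) :=
          mul_le_mul_of_nonneg_left (by linarith) (by positivity)
      _ = (3 * 10 ^ 6) * (L : ℝ) ^ 1203 := by ring
      _ ≤ (L : ℝ) ^ 2400 := DPhC_real L hx7 _ 1203 2400 (by norm_num) (by norm_num)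
  have hF2 : F₂.card ≤ Fintype.card V := by
    have h1 := Cyc.card_le hF.cyc
    rwa [Finset.card_univ] at h1
  have hq : Fintype.card V - F₂.card ≤ 2 * L ^ 1078 := by
    generalize L ^ 1078 = z at *
    omega
  have hqL : (Fintype.card V - F₂.card) * L ≤ 2 * L ^ 1079 := by
    calc (Fintype.card V - F₂.card) * L ≤ 2 * L ^ 1078 * L := Nat.mul_le_mul_right _ hq
      _ = 2 * L ^ 1079 := by ring
  refine closeC_all col hcol B _ _ _ _ hP (pow_nonneg hx0.le _) hβ0 hβ1 ?_ L (by omega) hn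
    (hk3.trans hn2) ?_ (2 * L ^ 1079) (13 * L ^ 2400) hak (Fintype.card V - F₂.card) F₂
    hF.cyc (by omega) hr ?_ ?_
  · linarith
  · exact (DPhC_real L hx7 (10 ^ 5) 2 2400 (by norm_num) (by norm_num)).trans hk
  · intro i
    rw [Finset.disjoint_iff_inter_eq_empty.1 (hBF i), Finset.card_empty, zero_add]
    exact hqL
  · have e1 : 5 * (Fintype.card V - F₂.card) * L ≤ 10 * L ^ 1079 := by
      calc 5 * (Fintype.card V - F₂.card) * L = 5 * ((Fintype.card V - F₂.card) * L) := by ring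
        _ ≤ 5 * (2 * L ^ 1079) := Nat.mul_le_mul_left _ hqL
        _ = 10 * L ^ 1079 := by ring
    calc (((univ : Finset (Sym2 V)).image col \ C) ∩ cE col F₂).card +
        5 * (Fintype.card V - F₂.card) * L ≤ 12 * L ^ 2400 + L ^ 2400 :=
          Nat.add_le_add hK (e1.trans hk4)
      _ = 13 * L ^ 2400 := by ring

end Pool.Agent.W_cd7020_h81d
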