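import Pool.Agent.W_cd7020_h81d.DEx

/-!
# Concentration for random subsets
-/

set_option autoImplicit false

namespace Pool.Agent.W_cd7020_h81d

open Finset

variable {κ : Type*} [DecidableEq κ]

/-- The two-point inequality: `e^y ≤ 1 + y + y²` for `|y| ≤ 1` (`Real.abs_exp_sub_one_sub_id_le`), with
`y = - s θ d` and `y = s (1 - θ) d`; the mean of `y` is `0`, `y² ≤ s² c²`, and `1 + s² c² ≤ exp (s² c²)`. -/
theorem two_point (θ s d c : ℝ) (h0 : 0 ≤ θ) (h1 : θ ≤ 1) (hd : |d| ≤ c) (hs : |s| * c ≤ 1) :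
    (1 - θ) * Real.exp (-(s * (θ * d))) + θ * Real.exp (s * ((1 - θ) * d)) ≤
      Real.exp (s ^ 2 * c ^ 2) := by
  have hc0 : 0 ≤ c := le_trans (abs_nonneg d) hd
  have hsd : |s * d| ≤ 1 := by
    rw [abs_mul]
    exact le_trans (mul_le_mul_of_nonneg_left hd (abs_nonneg s)) hs
  have hsq : (s * d) ^ 2 ≤ s ^ 2 * c ^ 2 := by
    rw [mul_pow]
    apply mul_le_mul_of_nonneg_left _ (sq_nonneg s)
    rw [← sq_abs d]
    exact pow_le_pow_left₀ (abs_nonneg d) hd 2
  have key : ∀ y : ℝ, |y| ≤ 1 → Real.exp y ≤ 1 + y + y ^ 2 := by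
    intro y hy
    have h := Real.abs_exp_sub_one_sub_id_le hy
    have h2 := (abs_le.mp h).2
    linarith
  have hy1 : |-(s * (θ * d))| ≤ 1 := by
    rw [abs_neg]
    have : s * (θ * d) = θ * (s * d) := by ring
    rw [this, abs_mul, abs_of_nonneg h0]
    have := mul_le_mul h1 hsd (abs_nonneg _) zero_le_one
    linarith
  have hy2 : |s * ((1 - θ) * d)| ≤ 1 := by
    have : s * ((1 - θ) * d) = (1 - θ) * (s * d) := by ring
    rw [this, abs_mul, abs_of_nonneg (by linarith : (0:ℝ) ≤ 1 - θ)]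
    have := mul_le_mul (by linarith : 1 - θ ≤ 1) hsd (abs_nonneg _) zero_le_one
    linarith
  have e1 := key _ hy1
  have e2 := key _ hy2
  have e3 : (1 - θ) * Real.exp (-(s * (θ * d))) ≤
      (1 - θ) * (1 + -(s * (θ * d)) + (-(s * (θ * d))) ^ 2) :=
    mul_le_mul_of_nonneg_left e1 (by linarith)
  have e4 : θ * Real.exp (s * ((1 - θ) * d)) ≤
      θ * (1 + s * ((1 - θ) * d) + (s * ((1 - θ) * d)) ^ 2) :=
    mul_le_mul_of_nonneg_left e2 h0
  have e5 : (1 - θ) * (1 + -(s * (θ * d)) + (-(s * (θ * d))) ^ 2) +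
      θ * (1 + s * ((1 - θ) * d) + (s * ((1 - θ) * d)) ^ 2) =
      1 + θ * (1 - θ) * (s * d) ^ 2 := by ring
  have e6 : θ * (1 - θ) * (s * d) ^ 2 ≤ (s * d) ^ 2 := by
    have h2 : θ * (1 - θ) ≤ 1 := by nlinarith
    have := mul_le_mul_of_nonneg_right h2 (sq_nonneg (s * d))
    linarith
  have e7 := Real.add_one_le_exp (s ^ 2 * c ^ 2)
  linarith

/-- The exponential moment. Induction on `H`: `ex_insert` for `insert k H`, with
`g' A = (1 - θ) g A + θ g (insert k A)` (also `c`-Lipschitz on `H`), `ex (insert k H) g = ex H g'`,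
`g A = g' A - θ d`, `g (insert k A) = g' A + (1 - θ) d`, `d = g (insert k A) - g A`; `two_point`. -/
theorem rs_mgf (θ : ℝ) (h0 : 0 ≤ θ) (h1 : θ ≤ 1) (s : ℝ) (c : κ → ℝ) :
    ∀ (H : Finset κ) (g : Finset κ → ℝ), (∀ k ∈ H, |s| * c k ≤ 1) →
    (∀ k ∈ H, ∀ A, A ⊆ H → k ∉ A → |g (insert k A) - g A| ≤ c k) →
    ex θ H (fun A => Real.exp (s * (g A - ex θ H g))) ≤ Real.exp (s ^ 2 * ∑ k ∈ H, c k ^ 2) := by
  intro H
  induction H using Finset.induction_on with
  | empty =>
    intro g _ _
    rw [ex_empty, ex_empty]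
    simp
  | insert k H hk ih =>
    intro g hs hg
    set g' : Finset κ → ℝ := fun A => (1 - θ) * g A + θ * g (insert k A) with hg'
    have hm : ex θ (insert k H) g = ex θ H g' := ex_insert θ H k hk g
    rw [hm, ex_insert θ H k hk]
    have hstep : ex θ H (fun A => (1 - θ) * Real.exp (s * (g A - ex θ H g')) +
        θ * Real.exp (s * (g (insert k A) - ex θ H g'))) ≤
        ex θ H (fun A => Real.exp (s ^ 2 * c k ^ 2) * Real.exp (s * (g' A - ex θ H g'))) := by
      apply ex_mono θ h0 h1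
      intro A hA
      have hkA : k ∉ A := fun h => hk (hA h)
      have hd := hg k (Finset.mem_insert_self k H) A
        (hA.trans (Finset.subset_insert k H)) hkA
      have h2 := two_point θ s (g (insert k A) - g A) (c k) h0 h1 hd
        (hs k (Finset.mem_insert_self k H))
      have e1 : s * (g A - ex θ H g') =
          s * (g' A - ex θ H g') + -(s * (θ * (g (insert k A) - g A))) := by
        simp only [hg']
        ring
      have e2 : s * (g (insert k A) - ex θ H g') =
          s * (g' A - ex θ H g') + s * ((1 - θ) * (g (insert k A) - g A)) := by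
        simp only [hg']
        ring
      have e3 := mul_le_mul_of_nonneg_left h2 (Real.exp_pos (s * (g' A - ex θ H g'))).le
      show (1 - θ) * Real.exp (s * (g A - ex θ H g')) +
        θ * Real.exp (s * (g (insert k A) - ex θ H g')) ≤
        Real.exp (s ^ 2 * c k ^ 2) * Real.exp (s * (g' A - ex θ H g'))
      rw [e1, e2, Real.exp_add, Real.exp_add]
      calc _ = Real.exp (s * (g' A - ex θ H g')) *
            ((1 - θ) * Real.exp (-(s * (θ * (g (insert k A) - g A)))) +
              θ * Real.exp (s * ((1 - θ) * (g (insert k A) - g A)))) := by ring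
        _ ≤ _ := e3
        _ = _ := by ring
    refine le_trans hstep ?_
    rw [ex_mul, Finset.sum_insert hk, mul_add, Real.exp_add]
    apply mul_le_mul_of_nonneg_left _ (Real.exp_pos _).le
    apply ih g'
    · intro k' hk'
      exact hs k' (Finset.mem_insert_of_mem hk')
    · intro k' hk' A hA hk'A
      have hne : k' ≠ k := fun h => hk (h ▸ hk')
      have a1 := hg k' (Finset.mem_insert_of_mem hk') A
        (hA.trans (Finset.subset_insert k H)) hk'A
      have a2 := hg k' (Finset.mem_insert_of_mem hk') (insert k A)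
        (Finset.insert_subset_insert k hA) (by
          intro h
          rcases Finset.mem_insert.mp h with h | h
          · exact hne h
          · exact hk'A h)
      have e : g' (insert k' A) - g' A = (1 - θ) * (g (insert k' A) - g A) +
          θ * (g (insert k' (insert k A)) - g (insert k A)) := by
        simp only [hg']
        rw [Finset.insert_comm k k' A]
        ring
      rw [e]
      refine le_trans (abs_add_le _ _) ?_
      rw [abs_mul, abs_mul, abs_of_nonneg h0, abs_of_nonneg (by linarith : (0:ℝ) ≤ 1 - θ)]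
      have b1 := mul_le_mul_of_nonneg_left a1 (by linarith : (0:ℝ) ≤ 1 - θ)
      have b2 := mul_le_mul_of_nonneg_left a2 h0
      linarith

/-- Simultaneous concentration. With `s = t / (2 Vr)`: the sum over `j` of the exponential moments for
`s` and `-s` is at most `2 |J| exp (s² Vr)`, so some `A` (`ex_le`) has
`∑ j, (exp (s D j) + exp (-s D j)) ≤ 2 |J| exp (s² Vr) < exp (s t)`, `D j = g j A - ex (g j)`. -/
theorem rs_lemma {ι : Type*} (θ : ℝ) (h0 : 0 ≤ θ) (h1 : θ ≤ 1) (H : Finset κ) (J : Finset ι)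
    (g : ι → Finset κ → ℝ) (c : ι → κ → ℝ) (hc : ∀ j ∈ J, ∀ k ∈ H, 0 ≤ c j k)
    (hg : ∀ j ∈ J, ∀ k ∈ H, ∀ A, A ⊆ H → k ∉ A → |g j (insert k A) - g j A| ≤ c j k)
    (Vr t : ℝ) (hVr : 0 < Vr) (ht : 0 < t) (hV : ∀ j ∈ J, ∑ k ∈ H, c j k ^ 2 ≤ Vr)
    (htc : ∀ j ∈ J, ∀ k ∈ H, t * c j k ≤ 2 * Vr)
    (hJ : 2 * (J.card : ℝ) < Real.exp (t ^ 2 / (4 * Vr))) :
    ∃ A, A ⊆ H ∧ ∀ j ∈ J, |g j A - ex θ H (g j)| ≤ t := by
  set s : ℝ := t / (2 * Vr) with hs
  have hs0 : 0 < s := by positivity
  have hst : s ^ 2 * Vr = t ^ 2 / (4 * Vr) := by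
    rw [hs]
    field_simp
    norm_num
  have hst2 : t ^ 2 / (4 * Vr) + t ^ 2 / (4 * Vr) = s * t := by
    rw [hs]
    field_simp
    norm_num
  have hsc : ∀ j ∈ J, ∀ k ∈ H, s * c j k ≤ 1 := by
    intro j hj k hk
    have h := htc j hj k hk
    rw [hs, div_mul_eq_mul_div, div_le_one (by positivity)]
    exact h
  have hmg : ∀ j ∈ J, ∀ s' : ℝ, |s'| = s →
      ex θ H (fun A => Real.exp (s' * (g j A - ex θ H (g j)))) ≤ Real.exp (s ^ 2 * Vr) := by
    intro j hj s' hs'
    have h := rs_mgf θ h0 h1 s' (c j) H (g j) (by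
      intro k hk
      rw [hs']
      exact hsc j hj k hk) (hg j hj)
    refine le_trans h ?_
    apply Real.exp_le_exp.mpr
    rw [← sq_abs s', hs']
    exact mul_le_mul_of_nonneg_left (hV j hj) (sq_nonneg s)
  obtain ⟨A, hA, hGA⟩ := ex_le θ h0 h1 H (fun A => ∑ j ∈ J,
    (Real.exp (s * (g j A - ex θ H (g j))) + Real.exp (-s * (g j A - ex θ H (g j)))))
  refine ⟨A, hA, ?_⟩
  intro j hj
  have hex : ex θ H (fun A => ∑ j ∈ J,
      (Real.exp (s * (g j A - ex θ H (g j))) + Real.exp (-s * (g j A - ex θ H (g j))))) ≤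
      2 * (J.card : ℝ) * Real.exp (s ^ 2 * Vr) := by
    rw [ex_sum θ H J (fun j A =>
      (Real.exp (s * (g j A - ex θ H (g j))) + Real.exp (-s * (g j A - ex θ H (g j)))))]
    calc _ ≤ ∑ j ∈ J, 2 * Real.exp (s ^ 2 * Vr) := by
          apply Finset.sum_le_sum
          intro i hi
          rw [ex_add]
          have a1 := hmg i hi s (abs_of_pos hs0)
          have a2 := hmg i hi (-s) (by rw [abs_neg, abs_of_pos hs0])
          linarith
      _ = _ := by
          rw [Finset.sum_const, nsmul_eq_mul]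
          ring
  have hlt : 2 * (J.card : ℝ) * Real.exp (s ^ 2 * Vr) < Real.exp (s * t) := by
    rw [← hst2, Real.exp_add, ← hst]
    apply mul_lt_mul_of_pos_right _ (Real.exp_pos _)
    rw [hst]
    exact hJ
  have hsingle : Real.exp (s * (g j A - ex θ H (g j))) + Real.exp (-s * (g j A - ex θ H (g j))) ≤
      ∑ j ∈ J,
      (Real.exp (s * (g j A - ex θ H (g j))) + Real.exp (-s * (g j A - ex θ H (g j)))) := by
    apply Finset.single_le_sum (f := fun j =>
      (Real.exp (s * (g j A - ex θ H (g j))) + Real.exp (-s * (g j A - ex θ H (g j))))) _ hj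
    intro i _
    have := Real.exp_pos (s * (g i A - ex θ H (g i)))
    have := Real.exp_pos (-s * (g i A - ex θ H (g i)))
    show (0:ℝ) ≤ Real.exp (s * (g i A - ex θ H (g i))) + Real.exp (-s * (g i A - ex θ H (g i)))
    linarith
  have hGA' : ∑ j ∈ J,
      (Real.exp (s * (g j A - ex θ H (g j))) + Real.exp (-s * (g j A - ex θ H (g j)))) ≤
      ex θ H (fun A => ∑ j ∈ J,
      (Real.exp (s * (g j A - ex θ H (g j))) + Real.exp (-s * (g j A - ex θ H (g j))))) := hGA
  have hp1 := Real.exp_pos (s * (g j A - ex θ H (g j)))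
  have hp2 := Real.exp_pos (-s * (g j A - ex θ H (g j)))
  have c1 : Real.exp (s * (g j A - ex θ H (g j))) < Real.exp (s * t) := by linarith
  have c2 : Real.exp (-s * (g j A - ex θ H (g j))) < Real.exp (s * t) := by linarith
  have d1 := Real.exp_lt_exp.mp c1
  have d2 := Real.exp_lt_exp.mp c2
  rw [abs_le]
  constructor
  · by_contra hcon
    push Not at hcon
    nlinarith
  · by_contra hcon
    push Not at hcon
    nlinarith

end Pool.Agent.W_cd7020_h81d
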