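import Pool.Agent.W_cd7020_h81d.DDefs
import Pool.Agent.W_cd7020_h81b.Par

/-!
# The weights of the arcs
-/

set_option autoImplicit false

namespace Pool.Agent.W_cd7020_h81d

open Finset Pool.Agent.W_cd7020_h81 Pool.Agent.W_cd7020_h81b

variable {V κ : Type*} [DecidableEq V] [DecidableEq κ] [Fintype V]

/-- For every `x` and `k` at most one `y`. -/
theorem ec_le (col : Sym2 V → κ) (hcol : Proper col) (k : κ) : ec col k ≤ Fintype.card V := by
  unfold ec
  rw [← card_univ (α := V)]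
  refine card_le_card_of_injOn Prod.fst (fun _ _ => mem_coe.2 (mem_univ _)) ?_
  intro p hp q hq h
  rw [mem_coe, mem_filter] at hp hq
  by_contra hne
  have h2 : p.2 ≠ q.2 := fun h2 => hne (Prod.ext h h2)
  have h3 : p.1 = q.1 := h
  refine hcol p.1 p.2 q.2 hp.2.1 (h3 ▸ hq.2.1) h2 ?_
  rw [hp.2.2, h3, hq.2.2]

theorem DSat_n (col : Sym2 V → κ) (H A : Finset κ) (θ τ e₀ : ℝ) (h : NC col H A θ τ e₀) :
    (0 : ℝ) < Fintype.card V := by
  have h1 := h.τ0
  have h2 := h.e0
  refine lt_of_lt_of_le ?_ h.n1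
  positivity

theorem DSat_c (col : Sym2 V → κ) (H A : Finset κ) (θ τ e₀ : ℝ) (h : NC col H A θ τ e₀) :
    1 ≤ 1 / (1 - θ) ∧ 1 / (1 - θ) ≤ 2 := by
  have h1 := h.θ0
  have h2 := h.θ1
  have h3 : 0 < 1 - θ := by linarith
  constructor
  · rw [le_div_iff₀ h3]
    linarith
  · rw [div_le_iff₀ h3]
    linarith

theorem DSat_dC (col : Sym2 V → κ) (A : Finset κ) (x : V) :
    ∑ y ∈ univ.filter (fun y => y ≠ x), (if col s(x, y) ∈ A then (1 : ℝ) else 0) = dC col A x := by
  rw [sum_boole, filter_filter]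
  rfl

/-- The sum of the weights of the arcs from `x` is
`(n - 1 + (θ dC H x - dC A x) / (1 - θ)) / n`; `1 / (1 - θ) ≤ 2`. -/
theorem wA_row (col : Sym2 V → κ) (H A : Finset κ) (θ τ e₀ : ℝ) (h : NC col H A θ τ e₀) (x : V) :
    |∑ y ∈ univ.filter (fun y => x ≠ y ∧ col s(x, y) ∉ A), wA col H θ (x, y) - 1| ≤ e₀ / 2 := by
  have hn := DSat_n col H A θ τ e₀ h
  obtain ⟨hc1, hc2⟩ := DSat_c col H A θ τ e₀ h
  have hθ : 0 < 1 - θ := by linarith [h.θ1]
  set c : ℝ := 1 / (1 - θ) with hc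
  have hcθ : c * (1 - θ) = 1 := by
    rw [hc]
    field_simp
  set n : ℝ := (Fintype.card V : ℝ) with hnn
  have h1 : ∑ y ∈ univ.filter (fun y => x ≠ y ∧ col s(x, y) ∉ A), wA col H θ (x, y) =
      ∑ y ∈ univ.filter (fun y => y ≠ x), ((1 + (c - 1) * (if col s(x, y) ∈ H then (1 : ℝ) else 0) -
        c * (if col s(x, y) ∈ A then (1 : ℝ) else 0)) / n) := by
    rw [sum_filter, sum_filter]
    refine sum_congr rfl fun y _ => ?_
    have hsub := @h.sub (col s(x, y))
    unfold wA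
    by_cases h1 : y = x
    · rw [if_neg (by simp [h1]), if_neg (by simp [h1])]
    · by_cases h2 : col s(x, y) ∈ A
      · have h3 := hsub h2
        rw [if_neg (by simp [h2]), if_pos h1, if_pos h3, if_pos h2]
        ring
      · rw [if_pos ⟨Ne.symm h1, h2⟩, if_pos h1, if_neg h2]
        by_cases h3 : col s(x, y) ∈ H
        · rw [if_pos h3, if_pos h3, ← hc]
          ring
        · rw [if_neg h3, if_neg h3]
          ring
  have hcard : (((univ.filter (fun y : V => y ≠ x)).card : ℕ) : ℝ) = n - 1 := by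
    have h2 : univ.filter (fun y : V => y ≠ x) = univ.erase x := by
      ext y
      simp
    have h3 : 1 ≤ Fintype.card V := Fintype.card_pos_iff.2 ⟨x⟩
    rw [h2, card_erase_of_mem (mem_univ x), card_univ, Nat.cast_sub h3, Nat.cast_one]
  have h2 : ∑ y ∈ univ.filter (fun y => x ≠ y ∧ col s(x, y) ∉ A), wA col H θ (x, y) =
      ((n - 1) + (c - 1) * dC col H x - c * dC col A x) / n := by
    rw [h1, ← sum_div, sum_sub_distrib, sum_add_distrib, ← mul_sum, ← mul_sum, DSat_dC, DSat_dC,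
      sum_const, nsmul_eq_mul, mul_one, hcard]
  have h3 := h.deg x
  have h4 : ((n - 1) + (c - 1) * dC col H x - c * dC col A x) / n - 1 =
      -(1 + c * ((dC col A x : ℝ) - θ * dC col H x)) / n := by
    have h5 : (c - 1) * (dC col H x : ℝ) = c * θ * dC col H x := by
      have : c - 1 = c * θ := by linear_combination hcθ
      rw [this]
    rw [h5]
    field_simp
    ring
  rw [h2, h4, abs_div, abs_neg, abs_of_pos hn, div_le_iff₀ hn]
  have h5 := abs_add_le (1 : ℝ) (c * ((dC col A x : ℝ) - θ * dC col H x))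
  rw [abs_one, abs_mul, abs_of_pos (by linarith : 0 < c)] at h5
  have h6 := abs_nonneg ((dC col A x : ℝ) - θ * dC col H x)
  nlinarith

theorem wA_out (col : Sym2 V → κ) (H A : Finset κ) (θ τ e₀ : ℝ) (h : NC col H A θ τ e₀) (x : V) :
    |∑ p ∈ (EA col A).filter (fun p => p.1 = x), wA col H θ p - 1| ≤ e₀ / 2 := by
  have h1 : ∑ p ∈ (EA col A).filter (fun p => p.1 = x), wA col H θ p =
      ∑ y ∈ univ.filter (fun y => x ≠ y ∧ col s(x, y) ∉ A), wA col H θ (x, y) := by
    refine sum_nbij' Prod.snd (fun y => (x, y)) ?_ ?_ ?_ ?_ ?_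
    · intro p hp
      simp only [EA, mem_filter, mem_univ, true_and] at hp ⊢
      rw [← hp.2]
      exact hp.1
    · intro y hy
      simp only [EA, mem_filter, mem_univ, true_and] at hy ⊢
      exact ⟨hy, trivial⟩
    · intro p hp
      rw [mem_filter] at hp
      exact Prod.ext hp.2.symm rfl
    · intro y _
      rfl
    · intro p hp
      rw [mem_filter] at hp
      rw [← hp.2]
  rw [h1]
  exact wA_row col H A θ τ e₀ h x

/-- `wA` and `EA` are symmetric. -/
theorem wA_in (col : Sym2 V → κ) (H A : Finset κ) (θ τ e₀ : ℝ) (h : NC col H A θ τ e₀) (y : V) :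
    |∑ p ∈ (EA col A).filter (fun p => p.2 = y), wA col H θ p - 1| ≤ e₀ / 2 := by
  have h1 : ∑ p ∈ (EA col A).filter (fun p => p.2 = y), wA col H θ p =
      ∑ x ∈ univ.filter (fun x => y ≠ x ∧ col s(y, x) ∉ A), wA col H θ (y, x) := by
    refine sum_nbij' Prod.fst (fun x => (x, y)) ?_ ?_ ?_ ?_ ?_
    · intro p hp
      simp only [EA, mem_filter, mem_univ, true_and] at hp ⊢
      rw [← hp.2]
      refine ⟨Ne.symm hp.1.1, ?_⟩
      rw [Sym2.eq_swap]
      exact hp.1.2
    · intro x hx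
      simp only [EA, mem_filter, mem_univ, true_and] at hx ⊢
      refine ⟨⟨Ne.symm hx.1, ?_⟩, trivial⟩
      rw [Sym2.eq_swap]
      exact hx.2
    · intro p hp
      rw [mem_filter] at hp
      exact Prod.ext rfl hp.2.symm
    · intro x _
      rfl
    · intro p hp
      rw [mem_filter] at hp
      rw [← hp.2]
      unfold wA
      have h2 : s(p.1, p.2) = s(p.2, p.1) := Sym2.eq_swap
      simp only [h2]
  rw [h1]
  exact wA_row col H A θ τ e₀ h y

/-- For the colour `k` the sum is exactly the saturation (`small`, `ec_le`). -/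
theorem wA_col (col : Sym2 V → κ) (H A : Finset κ) (θ τ e₀ : ℝ) (h : NC col H A θ τ e₀) (k : κ)
    (hk : k ∉ A) :
    ∑ p ∈ (EA col A).filter (fun p => col s(p.1, p.2) = k), wA col H θ p =
      sA col H θ (Sum.inr (Sum.inr k)) := by
  have hn := DSat_n col H A θ τ e₀ h
  have hθ : 0 < 1 - θ := by linarith [h.θ1]
  have h1 : (EA col A).filter (fun p => col s(p.1, p.2) = k) =
      (univ : Finset (V × V)).filter (fun p => p.1 ≠ p.2 ∧ col s(p.1, p.2) = k) := by
    ext p
    simp only [EA, mem_filter, mem_univ, true_and]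
    constructor
    · rintro ⟨⟨h1, _⟩, h2⟩
      exact ⟨h1, h2⟩
    · rintro ⟨h1, h2⟩
      exact ⟨⟨h1, h2 ▸ hk⟩, h2⟩
  have h2 : ∑ p ∈ (EA col A).filter (fun p => col s(p.1, p.2) = k), wA col H θ p =
      (if k ∈ H then 1 / (1 - θ) else 1) * ec col k / Fintype.card V := by
    have h3 : ∀ p ∈ (EA col A).filter (fun p => col s(p.1, p.2) = k), wA col H θ p =
        (if k ∈ H then 1 / (1 - θ) else 1) / Fintype.card V := by
      intro p hp
      unfold wA
      rw [(mem_filter.1 hp).2]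
    rw [sum_congr rfl h3, sum_const, h1, nsmul_eq_mul]
    change (ec col k : ℝ) * _ = _
    ring
  rw [h2]
  change _ = min 1 ((if k ∈ H then 1 / (1 - θ) else 1) * ec col k / Fintype.card V)
  rw [min_eq_right]
  rw [div_le_one hn]
  split_ifs with h3
  · have h4 := h.small k h3
    rw [one_div, inv_mul_le_iff₀ hθ]
    exact h4
  · rw [one_mul]
    exact_mod_cast ec_le col h.proper k

theorem wA_tot (col : Sym2 V → κ) (H A : Finset κ) (θ τ e₀ : ℝ) (h : NC col H A θ τ e₀) :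
    |∑ p ∈ EA col A, wA col H θ p - Fintype.card V| ≤ e₀ / 2 * Fintype.card V := by
  have h1 : ∑ p ∈ EA col A, wA col H θ p =
      ∑ x : V, ∑ p ∈ (EA col A).filter (fun p => p.1 = x), wA col H θ p :=
    (sum_fiberwise (EA col A) Prod.fst (wA col H θ)).symm
  have h2 : ∑ p ∈ EA col A, wA col H θ p - Fintype.card V =
      ∑ x : V, (∑ p ∈ (EA col A).filter (fun p => p.1 = x), wA col H θ p - 1) := by
    rw [sum_sub_distrib, ← h1, sum_const, card_univ, nsmul_eq_mul, mul_one]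
  rw [h2]
  refine (abs_sum_le_sum_abs _ _).trans ?_
  refine (sum_le_sum fun x _ => wA_out col H A θ τ e₀ h x).trans ?_
  rw [sum_const, card_univ, nsmul_eq_mul, mul_comm]

theorem wA_bounds (col : Sym2 V → κ) (H A : Finset κ) (θ τ e₀ : ℝ) (h : NC col H A θ τ e₀)
    (p : V × V) : 1 / Fintype.card V ≤ wA col H θ p ∧ 0 ≤ wA col H θ p ∧
      wA col H θ p ≤ 2 / Fintype.card V := by
  have hn := DSat_n col H A θ τ e₀ h
  obtain ⟨hc1, hc2⟩ := DSat_c col H A θ τ e₀ h
  have h1 : 1 ≤ (if col s(p.1, p.2) ∈ H then 1 / (1 - θ) else 1 : ℝ) := by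
    split_ifs
    · exact hc1
    · exact le_rfl
  have h2 : (if col s(p.1, p.2) ∈ H then 1 / (1 - θ) else 1 : ℝ) ≤ 2 := by
    split_ifs
    · exact hc2
    · norm_num
  have h3 : 1 / (Fintype.card V : ℝ) ≤ wA col H θ p := div_le_div_of_nonneg_right h1 hn.le
  exact ⟨h3, le_trans (by positivity) h3, div_le_div_of_nonneg_right h2 hn.le⟩

theorem sA_bounds (col : Sym2 V → κ) (H A : Finset κ) (θ τ e₀ : ℝ) (h : NC col H A θ τ e₀)
    (v : V ⊕ (V ⊕ κ)) : 0 ≤ sA col H θ v ∧ sA col H θ v ≤ 1 := by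
  have hn := DSat_n col H A θ τ e₀ h
  obtain ⟨hc1, hc2⟩ := DSat_c col H A θ τ e₀ h
  rcases v with x | x | k
  · exact ⟨zero_le_one, le_rfl⟩
  · exact ⟨zero_le_one, le_rfl⟩
  · refine ⟨le_min zero_le_one ?_, min_le_left _ _⟩
    have h1 : 0 ≤ (if k ∈ H then 1 / (1 - θ) else 1 : ℝ) := by
      split_ifs
      · linarith
      · norm_num
    positivity

theorem incA_mem (col : Sym2 V → κ) (p : V × V) (v : V ⊕ (V ⊕ κ)) :
    v ∈ incA col p ↔ v = Sum.inl p.1 ∨ v = Sum.inr (Sum.inl p.2) ∨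
      v = Sum.inr (Sum.inr (col s(p.1, p.2))) := by
  unfold incA
  rw [mem_insert, mem_insert, mem_singleton]

/-- Two different arcs have at most one common element, by properness. -/
theorem incA_lin (col : Sym2 V → κ) (hcol : Proper col) (p p' : V × V) (hp : p.1 ≠ p.2)
    (hp' : p'.1 ≠ p'.2) (hpp : p ≠ p') : (incA col p ∩ incA col p').card ≤ 1 := by
  have key : ∀ v, v ∈ incA col p ∩ incA col p' → (v = Sum.inl p.1 ∧ p.1 = p'.1) ∨
      (v = Sum.inr (Sum.inl p.2) ∧ p.2 = p'.2) ∨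
      (v = Sum.inr (Sum.inr (col s(p.1, p.2))) ∧ col s(p.1, p.2) = col s(p'.1, p'.2)) := by
    intro v hv
    rw [mem_inter, incA_mem, incA_mem] at hv
    obtain ⟨h1, h2⟩ := hv
    rcases h1 with h1 | h1 | h1
    · left
      refine ⟨h1, ?_⟩
      rw [h1] at h2
      simpa using h2
    · right; left
      refine ⟨h1, ?_⟩
      rw [h1] at h2
      simpa using h2
    · right; right
      refine ⟨h1, ?_⟩
      rw [h1] at h2
      simpa using h2
  have h12 : p.1 = p'.1 → p.2 = p'.2 → False := fun h1 h2 => hpp (Prod.ext h1 h2)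
  have h13 : p.1 = p'.1 → col s(p.1, p.2) = col s(p'.1, p'.2) → False := by
    intro h1 h3
    refine hcol p.1 p.2 p'.2 hp (h1 ▸ hp') (fun h2 => h12 h1 h2) ?_
    rw [h3, h1]
  have h23 : p.2 = p'.2 → col s(p.1, p.2) = col s(p'.1, p'.2) → False := by
    intro h2 h3
    refine hcol p.2 p.1 p'.1 hp.symm (h2 ▸ hp'.symm) (fun h1 => h12 h1 h2) ?_
    rw [Sym2.eq_swap, h3, Sym2.eq_swap, h2]
  rw [card_le_one]
  intro v hv v' hv'
  rcases key v hv with ⟨h1, h2⟩ | ⟨h1, h2⟩ | ⟨h1, h2⟩ <;>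
    rcases key v' hv' with ⟨h3, h4⟩ | ⟨h3, h4⟩ | ⟨h3, h4⟩
  · rw [h1, h3]
  · exact (h12 h2 h4).elim
  · exact (h13 h2 h4).elim
  · exact (h12 h4 h2).elim
  · rw [h1, h3]
  · exact (h23 h2 h4).elim
  · exact (h13 h4 h2).elim
  · exact (h23 h4 h2).elim
  · rw [h1, h3]

/-- The number of elements of all arcs. -/
theorem incA_card (col : Sym2 V → κ) (A : Finset κ) :
    ((EA col A).biUnion (incA col)).card ≤ 2 * Fintype.card V + Fintype.card V ^ 2 := by
  have h1 : (EA col A).biUnion (incA col) ⊆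
      ((univ : Finset V).image (fun x => (Sum.inl x : V ⊕ (V ⊕ κ)))) ∪
      (((univ : Finset V).image (fun x => (Sum.inr (Sum.inl x) : V ⊕ (V ⊕ κ)))) ∪
      ((univ : Finset (V × V)).image
        (fun p => (Sum.inr (Sum.inr (col s(p.1, p.2))) : V ⊕ (V ⊕ κ))))) := by
    intro v hv
    obtain ⟨p, _, hp⟩ := mem_biUnion.1 hv
    rw [incA_mem] at hp
    rw [mem_union, mem_union, mem_image, mem_image, mem_image]
    rcases hp with hp | hp | hp
    · exact Or.inl ⟨p.1, mem_univ _, hp.symm⟩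
    · exact Or.inr (Or.inl ⟨p.2, mem_univ _, hp.symm⟩)
    · exact Or.inr (Or.inr ⟨p, mem_univ _, hp.symm⟩)
  refine (card_le_card h1).trans ?_
  refine (card_union_le _ _).trans ?_
  have h2 := card_union_le ((univ : Finset V).image (fun x => (Sum.inr (Sum.inl x) : V ⊕ (V ⊕ κ))))
    ((univ : Finset (V × V)).image (fun p => (Sum.inr (Sum.inr (col s(p.1, p.2))) : V ⊕ (V ⊕ κ))))
  have h3 := card_image_le (s := (univ : Finset V)) (f := fun x => (Sum.inl x : V ⊕ (V ⊕ κ)))
  have h4 := card_image_le (s := (univ : Finset V))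
    (f := fun x => (Sum.inr (Sum.inl x) : V ⊕ (V ⊕ κ)))
  have h5 := card_image_le (s := (univ : Finset (V × V)))
    (f := fun p => (Sum.inr (Sum.inr (col s(p.1, p.2))) : V ⊕ (V ⊕ κ)))
  rw [card_univ] at h3 h4 h5
  rw [Fintype.card_prod] at h5
  have h6 : Fintype.card V ^ 2 = Fintype.card V * Fintype.card V := sq _
  omega

end Pool.Agent.W_cd7020_h81d
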