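import Pool.Agent.W_cd7020_h81d.DYC
import Pool.Agent.W_cd7020_h81d.DDeg
import Pool.Agent.W_cd7020_h81k.KSmp
import Pool.Agent.W_cd7020_h81c.AWd

/-!
# The pools
-/

set_option autoImplicit false

namespace Pool.Agent.W_cd7020_h81d

open Finset Pool.Agent.W_cd7020_h81 Pool.Agent.W_cd7020_h81b Pool.Agent.W_cd7020_h81c
  Pool.Agent.W_cd7020_h81k

variable {V κ : Type*} [DecidableEq V] [DecidableEq κ] [Fintype V]

/-- Good pools `B i` with the weight `β` for the colours of `K`. -/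
structure PoolsC (col : Sym2 V → κ) (B : Fin 5 → Finset κ) (K : Finset κ) (β k a : ℝ) :
    Prop where
  U : ∀ i, UMix col (pw (B i) K β) k a
  L : ∀ i, LMix col (pw (B i) K β) k a
  deg : ∀ i x, k - a ≤ wd col (pw (B i) K β) x univ
  disj : ∀ i j, i ≠ j → Disjoint (B i) (B j)
  BK : ∀ i, Disjoint (B i) K

theorem DSmp_disj (col : Sym2 V → κ) (C B : Finset κ) (hB : B ⊆ C) :
    Disjoint B ((univ : Finset (Sym2 V)).image col \ C) := by
  rw [Finset.disjoint_left]
  intro k hk hk2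
  exact (Finset.mem_sdiff.1 hk2).2 (hB hk)

theorem DSmp_split (col : Sym2 V → κ) (C : Finset κ) (x : V) (Y : Finset V) :
    (Y.filter (fun y => y ≠ x ∧ col s(x, y) ∈ C)).card +
      (Y.filter (fun y => y ≠ x ∧ col s(x, y) ∈ (univ : Finset (Sym2 V)).image col \ C)).card =
      (Y.filter (fun y => y ≠ x)).card := by
  rw [← Finset.card_union_of_disjoint]
  · congr 1
    ext y
    simp only [Finset.mem_union, Finset.mem_filter, Finset.mem_sdiff, Finset.mem_image,
      Finset.mem_univ, true_and]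
    constructor
    · rintro (⟨h1, h2, -⟩ | ⟨h1, h2, -⟩)
      · exact ⟨h1, h2⟩
      · exact ⟨h1, h2⟩
    · rintro ⟨h1, h2⟩
      by_cases h3 : col s(x, y) ∈ C
      · exact Or.inl ⟨h1, h2, h3⟩
      · exact Or.inr ⟨h1, h2, ⟨_, rfl⟩, h3⟩
  · rw [Finset.disjoint_left]
    intro y hy hy2
    rw [Finset.mem_filter] at hy hy2
    exact (Finset.mem_sdiff.1 hy2.2.2).2 hy.2.2

theorem DSmp_ne (X Y : Finset V) :
    (∑ x ∈ X, ((Y.filter (fun y => y ≠ x)).card : ℝ)) =
      (X.card : ℝ) * Y.card - (X ∩ Y).card := by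
  have h1 : ∀ x ∈ X, ((Y.filter (fun y => y ≠ x)).card : ℝ) =
      (Y.card : ℝ) - if x ∈ Y then 1 else 0 := by
    intro x _
    rw [Finset.filter_ne']
    split_ifs with h
    · rw [Finset.card_erase_of_mem h, Nat.cast_sub (Finset.card_pos.2 ⟨x, h⟩)]
      simp
    · rw [Finset.erase_eq_of_notMem h, sub_zero]
  rw [Finset.sum_congr rfl h1, Finset.sum_sub_distrib, Finset.sum_const, nsmul_eq_mul,
    Finset.sum_boole]
  congr 2

theorem DSmp_nr (X : Finset V) :
    nr (fun x => if x ∈ X then (1 : ℝ) else 0) = Real.sqrt X.card := by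
  unfold nr
  congr 1
  have h : ∀ x : V, (if x ∈ X then (1 : ℝ) else 0) ^ 2 = if x ∈ X then 1 else 0 := by
    intro x
    split_ifs <;> norm_num
  simp only [h]
  rw [Finset.sum_boole]
  congr 2
  ext x
  simp

/-- The total number of pairs with colours in `B`, weighted, in terms of the centred form: with
`K` the other colours, `∑ x ∈ X, wd (pw B K β) x Y = qf (∑ k ∈ B, YC k) + β (|X| |Y| - |X ∩ Y|)` for
`β = |B| / |C|` (`wd_pw`, `YC_ind`). -/
theorem wd_YC (col : Sym2 V → κ) (C B : Finset κ) (hC : 1 ≤ C.card) (hB : B ⊆ C)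
    (X Y : Finset V) :
    ∑ x ∈ X, wd col (pw B ((univ : Finset (Sym2 V)).image col \ C) ((B.card : ℝ) / C.card)) x Y =
      qf (∑ k ∈ B, YC col C k) (fun x => if x ∈ X then 1 else 0)
        (fun x => if x ∈ Y then 1 else 0) +
      (B.card : ℝ) / C.card * ((X.card : ℝ) * Y.card - (X ∩ Y).card) := by
  obtain ⟨K, hK⟩ : ∃ K : Finset κ, K = (univ : Finset (Sym2 V)).image col \ C := ⟨_, rfl⟩
  have hBK : Disjoint B K := by
    rw [hK]
    exact DSmp_disj col C B hB
  obtain ⟨β, hβ⟩ : ∃ β : ℝ, β = (B.card : ℝ) / C.card := ⟨_, rfl⟩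
  rw [YC_ind, ← hK, ← hβ]
  have hcomm : ∀ (D : Finset κ) (x : V), (Y.filter (fun y => x ≠ y ∧ col s(x, y) ∈ D)) =
      (Y.filter (fun y => y ≠ x ∧ col s(x, y) ∈ D)) := by
    intro D x
    refine Finset.filter_congr fun y _ => ?_
    rw [ne_comm]
  have h1 : ∑ x ∈ X, wd col (pw B K β) x Y = (eB col B X Y : ℝ) + β * eB col K X Y := by
    rw [eB_eq_sum, eB_eq_sum]
    push_cast
    rw [Finset.mul_sum, ← Finset.sum_add_distrib]
    refine Finset.sum_congr rfl fun x _ => ?_
    rw [wd_pw col B K β hBK, hcomm, hcomm]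
  have h2 : (eB col C X Y : ℝ) + eB col K X Y = (X.card : ℝ) * Y.card - (X ∩ Y).card := by
    rw [eB_eq_sum, eB_eq_sum, ← DSmp_ne]
    push_cast
    rw [← Finset.sum_add_distrib]
    refine Finset.sum_congr rfl fun x _ => ?_
    rw [hcomm, hcomm, hK]
    exact_mod_cast DSmp_split col C x Y
  rw [h1, ← h2]
  ring

/-- The pools: `sampleG` with `Y = YC col C`, `g = 0`, `bad k = {x | par k x = x}`,
`q x = |{k ∈ C | x bad}| / |C|`, `h = 0`, sizes `0, kB, kB, kB, kB, kB` and `k = 5 kB`; then `PsG_bounds` with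
`X = 12 (1 + δ) ^ (5 kB)`, `wd_YC` and `√(|X| |Y|) ≥ |X ∩ Y|`. For the degrees: the number of colours of `B i`
at `x` is at least `kB (1 - q x) - (a - 1)`, `kB (1 - q x) = β dC C x`, and
`dC C x + dC K x = n - 1`. -/
theorem pools_exist (col : Sym2 V → κ) (hcol : Proper col) (C : Finset κ) (hC : 1 ≤ C.card)
    (kB : ℕ) (hk : 20 * kB ≤ C.card) (hV : 0 < Fintype.card V) (lam δ a : ℝ) (hlam : 0 < lam)
    (hlam1 : 2 * lam ≤ 1) (hδ0 : 0 ≤ δ)
    (hδ : (1 + 2 * ((5 * kB : ℕ) : ℝ) / C.card) * (1 + 8 * lam ^ 2 +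
      2 * lam * ((0 + 0 + 2 * (5 * kB : ℕ)) / C.card)) ≤ 1 + δ)
    (ha : Real.log (24 * Fintype.card V * (1 + δ) ^ (5 * kB)) / lam + 1 ≤ a) :
    ∃ B : Fin 5 → Finset κ, (∀ i, B i ⊆ C) ∧ (∀ i, (B i).card = kB) ∧
      PoolsC col B ((univ : Finset (Sym2 V)).image col \ C) ((kB : ℝ) / C.card)
        ((kB : ℝ) / C.card * Fintype.card V) a := by
  obtain ⟨K, hK⟩ : ∃ K : Finset κ, K = (univ : Finset (Sym2 V)).image col \ C := ⟨_, rfl⟩
  obtain ⟨β, hβ⟩ : ∃ β : ℝ, β = (kB : ℝ) / C.card := ⟨_, rfl⟩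
  obtain ⟨n, hn⟩ : ∃ n : ℝ, n = Fintype.card V := ⟨_, rfl⟩
  have hn0 : 0 < n := by rw [hn]; exact_mod_cast hV
  have hCr : (0 : ℝ) < C.card := by exact_mod_cast hC
  have hβ0 : 0 ≤ β := by rw [hβ]; positivity
  have hβ1 : β ≤ 1 := by
    rw [hβ, div_le_one hCr]
    have : kB ≤ C.card := by omega
    exact_mod_cast this
  rw [← hK, ← hβ, ← hn]
  obtain ⟨q, hq⟩ : ∃ q : V → ℝ, ∀ x, q x =
      ((C.filter (fun k => par col k x = x)).card : ℝ) / C.card := ⟨_, fun _ => rfl⟩
  obtain ⟨bad, hbad⟩ : ∃ bad : κ → Finset V, ∀ k x, x ∈ bad k ↔ par col k x = x :=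
    ⟨fun k => univ.filter (fun x => par col k x = x), fun k x => by simp⟩
  have hfil : ∀ (D : Finset κ) (x : V), D.filter (fun k => x ∈ bad k) =
      D.filter (fun k => par col k x = x) := fun D x => Finset.filter_congr fun k _ => hbad k x
  have hq0 : ∀ x, 0 ≤ q x := fun x => by rw [hq]; positivity
  have hq1 : ∀ x, q x ≤ 1 := fun x => by
    rw [hq, div_le_one hCr]
    exact_mod_cast Finset.card_filter_le _ _
  obtain ⟨A, hAC, hAc, hAd, hAP⟩ := sampleG C (YC col C) (fun k => YC_herm col C k)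
    (fun k => YC_norm col hcol C hC k) 0 le_rfl (fun v => by
      rw [YC_sum col C hC v]
      simp) bad q hq0 hq1 0 le_rfl (fun x => by
      rw [hfil, hq, div_mul_cancel₀ _ hCr.ne', add_zero]) lam hlam.le hlam1
    (Fin.cons 0 fun _ : Fin 5 => kB) (5 * kB) (by
      rw [Fin.sum_univ_succ]
      simp) (by omega) hC δ hδ0 hδ
  obtain ⟨X0, hX0⟩ : ∃ X0 : ℝ, X0 = 12 * (1 + δ) ^ (5 * kB) := ⟨_, rfl⟩
  have hX1 : 0 < X0 := by rw [hX0]; positivity
  have hX12 : 12 ≤ X0 := by
    rw [hX0]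
    have : (1 : ℝ) ≤ (1 + δ) ^ (5 * kB) := one_le_pow₀ (by linarith)
    linarith
  have hb := PsG_bounds (YC col C) (fun k => YC_herm col C k) bad q lam hlam A X0 hX1 hV
    (by rw [hX0]; exact hAP)
  obtain ⟨L, hL⟩ : ∃ L : ℝ, L = Real.log (2 * (X0 * n)) / lam := ⟨_, rfl⟩
  have hLa : L + 1 ≤ a := by
    have h1 : 2 * (X0 * n) = 24 * n * (1 + δ) ^ (5 * kB) := by rw [hX0]; ring
    rw [hL, h1, hn]
    exact ha
  have hlog : Real.log (X0 * n) / lam ≤ L := by
    rw [hL]
    refine div_le_div_of_nonneg_right ?_ hlam.le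
    exact Real.log_le_log (by positivity) (by linarith [mul_pos hX1 hn0])
  have hL0 : 0 ≤ L := by
    rw [hL]
    have hn1 : 1 ≤ n := by rw [hn]; exact_mod_cast hV
    refine div_nonneg (Real.log_nonneg ?_) hlam.le
    nlinarith
  have hBcard : ∀ i : Fin 5, (A i.succ).card = kB := fun i => by
    rw [hAc]
    simp
  -- the form
  have hform : ∀ (i : Fin 5) (X Y : Finset V),
      |qf (∑ k ∈ A i.succ, YC col C k) (fun x => if x ∈ X then 1 else 0)
        (fun x => if x ∈ Y then 1 else 0)| ≤ L * Real.sqrt ((X.card : ℝ) * Y.card) := by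
    intro i X Y
    have h1 := (hb i.succ).1 (fun x => if x ∈ X then 1 else 0) (fun x => if x ∈ Y then 1 else 0)
    rw [DSmp_nr, DSmp_nr, ← hn, ← hL, mul_assoc, ← Real.sqrt_mul (Nat.cast_nonneg _)] at h1
    exact h1
  have hwd : ∀ (i : Fin 5) (X Y : Finset V), ∑ x ∈ X, wd col (pw (A i.succ) K β) x Y =
      qf (∑ k ∈ A i.succ, YC col C k) (fun x => if x ∈ X then 1 else 0)
        (fun x => if x ∈ Y then 1 else 0) + β * ((X.card : ℝ) * Y.card - (X ∩ Y).card) := by
    intro i X Y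
    have h1 := wd_YC col C (A i.succ) hC (hAC _) X Y
    rw [hBcard, ← hK, ← hβ] at h1
    exact h1
  have hint : ∀ X Y : Finset V, ((X ∩ Y).card : ℝ) ≤ Real.sqrt ((X.card : ℝ) * Y.card) := by
    intro X Y
    apply Real.le_sqrt_of_sq_le
    rw [sq]
    have h1 : ((X ∩ Y).card : ℝ) ≤ X.card := by
      exact_mod_cast Finset.card_le_card Finset.inter_subset_left
    have h2 : ((X ∩ Y).card : ℝ) ≤ Y.card := by
      exact_mod_cast Finset.card_le_card Finset.inter_subset_right
    exact mul_le_mul h1 h2 (Nat.cast_nonneg _) (Nat.cast_nonneg _)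
  have hkn : β * n / (Fintype.card V : ℝ) = β := by
    rw [← hn, mul_div_assoc, div_self hn0.ne', mul_one]
  refine ⟨fun i => A i.succ, fun i => hAC _, hBcard, ?_⟩
  refine
    { U := fun i X Y => ?_
      L := fun i X Y => ?_
      deg := fun i x => ?_
      disj := fun i j hij => hAd _ _ fun h => hij (Fin.succ_injective _ h)
      BK := fun i => by
        rw [hK]
        exact DSmp_disj col C _ (hAC _) }
  · rw [hwd, hkn]
    have h1 := (abs_le.1 (hform i X Y)).2
    have h2 : L * Real.sqrt ((X.card : ℝ) * Y.card) ≤ a * Real.sqrt ((X.card : ℝ) * Y.card) :=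
      mul_le_mul_of_nonneg_right (by linarith) (Real.sqrt_nonneg _)
    have h3 : 0 ≤ β * ((X ∩ Y).card : ℝ) := mul_nonneg hβ0 (Nat.cast_nonneg _)
    have h4 : β * ((X.card : ℝ) * Y.card - (X ∩ Y).card) =
        β * ((X.card : ℝ) * Y.card) - β * ((X ∩ Y).card : ℝ) := by ring
    rw [h4]
    linarith
  · rw [hwd, hkn]
    have h1 := (abs_le.1 (hform i X Y)).1
    have h2 : (L + 1) * Real.sqrt ((X.card : ℝ) * Y.card) ≤
        a * Real.sqrt ((X.card : ℝ) * Y.card) :=
      mul_le_mul_of_nonneg_right hLa (Real.sqrt_nonneg _)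
    have h3 : β * ((X ∩ Y).card : ℝ) ≤ 1 * Real.sqrt ((X.card : ℝ) * Y.card) :=
      mul_le_mul hβ1 (hint X Y) (Nat.cast_nonneg _) zero_le_one
    have h4 : β * ((X.card : ℝ) * Y.card - (X ∩ Y).card) =
        β * ((X.card : ℝ) * Y.card) - β * ((X ∩ Y).card : ℝ) := by ring
    rw [h4]
    linarith
  · have hBK : Disjoint (A i.succ) K := by
      rw [hK]
      exact DSmp_disj col C _ (hAC _)
    rw [wd_pw col _ K β hBK]
    have h1 : (((univ : Finset V).filter (fun y => y ≠ x ∧ col s(x, y) ∈ A i.succ)).card : ℝ) =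
        dC col (A i.succ) x := rfl
    have h2 : (((univ : Finset V).filter (fun y => y ≠ x ∧ col s(x, y) ∈ K)).card : ℝ) =
        dC col K x := rfl
    rw [h1, h2, dC_eq col hcol (A i.succ) x]
    have h3 : (((A i.succ).filter (fun k => par col k x ≠ x)).card : ℝ) =
        kB - ((A i.succ).filter (fun k => par col k x = x)).card := by
      have h4 := Finset.card_filter_add_card_filter_not (s := A i.succ) (fun k => par col k x = x)
      rw [hBcard] at h4
      have h5 : (((A i.succ).filter (fun k => par col k x = x)).card : ℝ) +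
          ((A i.succ).filter (fun k => ¬ par col k x = x)).card = kB := by exact_mod_cast h4
      linarith
    have h6 := (hb i.succ).2 x
    rw [hfil, hBcard, ← hn] at h6
    have h7 : (dC col C x : ℝ) = C.card - ((C.filter (fun k => par col k x = x)).card : ℝ) := by
      rw [dC_eq col hcol C x]
      have h4 := Finset.card_filter_add_card_filter_not (s := C) (fun k => par col k x = x)
      have h5 : ((C.filter (fun k => par col k x = x)).card : ℝ) +
          (C.filter (fun k => ¬ par col k x = x)).card = C.card := by exact_mod_cast h4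
      linarith
    have h8 : (kB : ℝ) * q x = kB - β * dC col C x := by
      rw [h7, hq, hβ]
      field_simp
      ring
    have h9 : (dC col C x : ℝ) + dC col K x = n - 1 := by
      have h10 := DSmp_split col C x (univ : Finset V)
      rw [Finset.filter_ne', Finset.card_erase_of_mem (Finset.mem_univ x), Finset.card_univ,
        ← hK] at h10
      have h11 : dC col C x + dC col K x = Fintype.card V - 1 := h10
      have h12 : ((dC col C x + dC col K x : ℕ) : ℝ) = ((Fintype.card V - 1 : ℕ) : ℝ) := by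
        rw [h11]
      rw [Nat.cast_sub hV, ← hn] at h12
      push_cast at h12
      exact h12
    rw [h3]
    have h13 : β * ((dC col C x : ℝ) + dC col K x) = β * (n - 1) := by rw [h9]
    nlinarith

end Pool.Agent.W_cd7020_h81d
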