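import Pool.Agent.W_cd7020_h81d.DPhA
import Pool.Agent.W_cd7020_h81d.DPhB
import Pool.Agent.W_cd7020_h81d.DPhC

/-!
# Colourings with many small colours
-/

set_option autoImplicit false

namespace Pool.Agent.W_cd7020_h81d

open Finset Pool.Agent.W_cd7020_h81 Pool.Agent.W_cd7020_h81b Pool.Agent.W_cd7020_h81c

variable {V κ : Type*} [DecidableEq V] [DecidableEq κ] [Fintype V]

/-- Every colouring with many small colours at every vertex has a rainbow Hamilton cycle: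
`phaseA`, `phaseB`, `phaseC` for `C = cE col F₁`, `phaseD`, `phaseE`. -/
theorem case2 (col : Sym2 V → κ) (hcol : Proper col) (L : ℕ) (hL : 10 ^ 7 ≤ L)
    (hn : Fintype.card V ≤ 2 ^ L) (hn2 : L ^ 220000 ≤ Fintype.card V) (H : Finset κ)
    (hd : ∀ x, Fintype.card V ≤ 2 * L ^ 180 * dC col H x)
    (hsm : ∀ k ∈ H, ec col k * L ^ 358 + Fintype.card V ≤ Fintype.card V * L ^ 358) :
    ∃ E, Cyc univ E ∧ E.card = Fintype.card V ∧ Rb col E := by
  obtain ⟨A, Q, F, hF, hr, hFA, hQ, hFc, hlost⟩ := phaseA col hcol L hL hn hn2 H hd hsm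
  obtain ⟨F₁, hF₁, hr₁, hc₁, hl₁, hA₁⟩ :=
    phaseB col hcol L hL hn2 A Q hQ F hF hr hFA hFc hlost
  have hcard : (cE col F₁).card = F₁.card :=
    Finset.card_image_of_injOn fun e he e' he' h => hr₁ e he e' he' h
  have hLp2 : 1 ≤ L ^ 220000 := Nat.one_le_pow _ _ (by omega)
  have h4 : 4 * L ^ 1078 ≤ L ^ 220000 :=
    DPhC_nat L hL 4 1078 220000 (by norm_num) (by norm_num)
  have hC : Fintype.card V ≤ 2 * (cE col F₁).card := by
    rw [hcard]
    generalize L ^ 220000 = z at *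
    generalize L ^ 1078 = y at *
    omega
  have hC2 : (cE col F₁).card ≤ Fintype.card V := by
    rw [hcard]
    have h1 := Cyc.card_le hF₁.cyc
    rwa [Finset.card_univ] at h1
  obtain ⟨B, hBC, hBc, hP⟩ := phaseC col hcol L hL hn hn2 (cE col F₁) hC
  obtain ⟨F₂, hF₂, hr₂, hc₂, hB₂, hK₂⟩ :=
    phaseD col hcol L hL hn2 A Q hQ F₁ hF₁ hr₁ hc₁ hl₁ hA₁ B hBc
  exact phaseE col hcol L hL hn hn2 (cE col F₁) hC B hC2 hP F₂ hF₂ hr₂ hc₂ hB₂ hK₂

end Pool.Agent.W_cd7020_h81d
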