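import Pool.Agent.W_cd7020_h81d.DDefs
import Pool.Agent.W_cd7020_h81b.ColF
import Pool.Agent.W_cd7020_h81b.Par

/-!
# Centred matrices of colours
-/

set_option autoImplicit false

namespace Pool.Agent.W_cd7020_h81d

open Finset Pool.Agent.W_cd7020_h81 Pool.Agent.W_cd7020_h81b

variable {V κ : Type*} [DecidableEq V] [DecidableEq κ] [Fintype V]

/-- The adjacency matrix of the colour `k`. -/
noncomputable def MC (col : Sym2 V → κ) (k : κ) : Matrix V V ℝ :=
  fun x y => if x ≠ y ∧ col s(x, y) = k then 1 else 0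

/-- The matrix of the colour `k`, centred by the average over `C`. -/
noncomputable def YC (col : Sym2 V → κ) (C : Finset κ) (k : κ) : Matrix V V ℝ :=
  MC col k - (1 / (C.card : ℝ)) • ∑ j ∈ C, MC col j

theorem DYC_mulVec (col : Sym2 V → κ) (hcol : Proper col) (k : κ) (v : V → ℝ) (a : V) :
    (MC col k).mulVec v a = if par col k a ≠ a then v (par col k a) else 0 := by
  have h0 : (MC col k).mulVec v a = ∑ y, MC col k a y * v y := rfl
  rw [h0]
  by_cases h : par col k a = a
  · rw [if_neg (fun hh => hh h)]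
    refine Finset.sum_eq_zero fun y _ => ?_
    unfold MC
    rw [if_neg, zero_mul]
    rintro ⟨h1, h2⟩
    have h3 := par_eq col hcol k a y h1.symm h2
    exact h1 (h.symm.trans h3)
  · rw [if_pos h, Finset.sum_eq_single (par col k a)]
    · unfold MC
      rw [if_pos ⟨fun hh => h hh.symm, par_col col k a h⟩, one_mul]
    · intro y _ hy
      unfold MC
      rw [if_neg, zero_mul]
      rintro ⟨h1, h2⟩
      exact hy (par_eq col hcol k a y h1.symm h2).symm
    · intro hh
      exact absurd (Finset.mem_univ _) hh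

/-- `(MC v) x = v (par x)` or `0`. -/
theorem MC_norm (col : Sym2 V → κ) (hcol : Proper col) (k : κ) (v : V → ℝ) :
    ∑ a, ((MC col k).mulVec v a) ^ 2 ≤ ∑ a, v a ^ 2 := by
  have h1 : ∀ a, ((MC col k).mulVec v a) ^ 2 ≤ v (par col k a) ^ 2 := by
    intro a
    rw [DYC_mulVec col hcol]
    split_ifs
    · exact le_refl _
    · rw [zero_pow two_ne_zero]
      exact sq_nonneg _
  have h2 : Function.Bijective (par col k) :=
    Finite.injective_iff_bijective.1 (par_inj col hcol k)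
  calc ∑ a, ((MC col k).mulVec v a) ^ 2 ≤ ∑ a, v (par col k a) ^ 2 :=
        Finset.sum_le_sum fun a _ => h1 a
    _ = ∑ a, v a ^ 2 := h2.sum_comp (fun a => v a ^ 2)

theorem DYC_symm (col : Sym2 V → κ) (k : κ) (x y : V) : MC col k x y = MC col k y x := by
  unfold MC
  rw [Sym2.eq_swap]
  by_cases h : x = y
  · subst h
    rfl
  · have h' : y ≠ x := fun hh => h hh.symm
    simp [h, h']

theorem YC_herm (col : Sym2 V → κ) (C : Finset κ) (k : κ) : (YC col C k).IsHermitian := by
  ext x y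
  rw [Matrix.conjTranspose_apply, star_trivial]
  unfold YC
  simp only [Matrix.sub_apply, Matrix.smul_apply, Matrix.sum_apply]
  rw [DYC_symm col k y x]
  congr 2
  exact Finset.sum_congr rfl fun j _ => DYC_symm col j y x

/-- `|(M v)|` for the average `M` is at most `|v|` by convexity; `(a - b)² ≤ 2 a² + 2 b²`. -/
theorem YC_norm (col : Sym2 V → κ) (hcol : Proper col) (C : Finset κ) (hC : 1 ≤ C.card) (k : κ)
    (v : V → ℝ) : ∑ a, ((YC col C k).mulVec v a) ^ 2 ≤ 4 * ∑ a, v a ^ 2 := by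
  have hc : (0 : ℝ) < C.card := by exact_mod_cast hC
  have h1 : ∀ a, (YC col C k).mulVec v a = (MC col k).mulVec v a -
      (1 / (C.card : ℝ)) * ∑ j ∈ C, (MC col j).mulVec v a := by
    intro a
    unfold YC
    rw [Matrix.sub_mulVec, Matrix.smul_mulVec, Matrix.sum_mulVec]
    simp only [Pi.sub_apply, Pi.smul_apply, Finset.sum_apply, smul_eq_mul]
  have h2 : ∀ a, ((YC col C k).mulVec v a) ^ 2 ≤ 2 * ((MC col k).mulVec v a) ^ 2 +
      2 * ((1 / (C.card : ℝ)) * ∑ j ∈ C, ((MC col j).mulVec v a) ^ 2) := by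
    intro a
    rw [h1 a]
    have h3 : ((1 / (C.card : ℝ)) * ∑ j ∈ C, (MC col j).mulVec v a) ^ 2 ≤
        (1 / (C.card : ℝ)) * ∑ j ∈ C, ((MC col j).mulVec v a) ^ 2 := by
      have h4 := sq_sum_le_card_mul_sum_sq (s := C) (f := fun j => (MC col j).mulVec v a)
      rw [mul_pow]
      calc (1 / (C.card : ℝ)) ^ 2 * (∑ j ∈ C, (MC col j).mulVec v a) ^ 2
          ≤ (1 / (C.card : ℝ)) ^ 2 * ((C.card : ℝ) * ∑ j ∈ C, ((MC col j).mulVec v a) ^ 2) :=
            mul_le_mul_of_nonneg_left h4 (sq_nonneg _)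
        _ = (1 / (C.card : ℝ)) * ∑ j ∈ C, ((MC col j).mulVec v a) ^ 2 := by
            field_simp
    nlinarith [sq_nonneg ((MC col k).mulVec v a +
      (1 / (C.card : ℝ)) * ∑ j ∈ C, (MC col j).mulVec v a)]
  have h5 : ∑ a, ((1 / (C.card : ℝ)) * ∑ j ∈ C, ((MC col j).mulVec v a) ^ 2) ≤
      ∑ a, v a ^ 2 := by
    rw [← Finset.mul_sum, Finset.sum_comm]
    calc (1 / (C.card : ℝ)) * ∑ j ∈ C, ∑ a, ((MC col j).mulVec v a) ^ 2
        ≤ (1 / (C.card : ℝ)) * ∑ _j ∈ C, ∑ a, v a ^ 2 := by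
          refine mul_le_mul_of_nonneg_left ?_ (by positivity)
          exact Finset.sum_le_sum fun j _ => MC_norm col hcol j v
      _ = ∑ a, v a ^ 2 := by
          rw [Finset.sum_const, nsmul_eq_mul, ← mul_assoc, one_div, inv_mul_cancel₀ hc.ne',
            one_mul]
  calc ∑ a, ((YC col C k).mulVec v a) ^ 2 ≤ ∑ a, (2 * ((MC col k).mulVec v a) ^ 2 +
      2 * ((1 / (C.card : ℝ)) * ∑ j ∈ C, ((MC col j).mulVec v a) ^ 2)) :=
        Finset.sum_le_sum fun a _ => h2 a
    _ = 2 * ∑ a, ((MC col k).mulVec v a) ^ 2 +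
        2 * ∑ a, ((1 / (C.card : ℝ)) * ∑ j ∈ C, ((MC col j).mulVec v a) ^ 2) := by
          rw [Finset.sum_add_distrib, ← Finset.mul_sum, ← Finset.mul_sum]
    _ ≤ 4 * ∑ a, v a ^ 2 := by
          have := MC_norm col hcol k v
          linarith

theorem DYC_qf_sum (S : Finset κ) (A : κ → Matrix V V ℝ) (f g : V → ℝ) :
    qf (∑ k ∈ S, A k) f g = ∑ k ∈ S, qf (A k) f g := by
  unfold qf
  rw [Finset.sum_comm' (s := S) (t := fun _ => univ) (t' := univ) (s' := fun _ => S)
    (fun _ _ => by simp)]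
  refine Finset.sum_congr rfl fun x _ => ?_
  rw [Finset.sum_comm]
  refine Finset.sum_congr rfl fun y _ => ?_
  rw [Matrix.sum_apply, Finset.mul_sum, Finset.sum_mul]

theorem YC_sum (col : Sym2 V → κ) (C : Finset κ) (hC : 1 ≤ C.card) (v : V → ℝ) :
    ∑ k ∈ C, qf (YC col C k) v v = 0 := by
  have hc : (0 : ℝ) < C.card := by exact_mod_cast hC
  rw [← DYC_qf_sum]
  have h1 : ∑ k ∈ C, YC col C k = 0 := by
    unfold YC
    rw [Finset.sum_sub_distrib, Finset.sum_const, ← Nat.cast_smul_eq_nsmul ℝ, smul_smul,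
      mul_one_div, div_self hc.ne', one_smul, sub_self]
  rw [h1]
  unfold qf
  simp

theorem DYC_entry (col : Sym2 V → κ) (B : Finset κ) (x y : V) :
    ∑ k ∈ B, MC col k x y = if x ≠ y ∧ col s(x, y) ∈ B then 1 else 0 := by
  unfold MC
  by_cases hxy : x = y
  · simp [hxy]
  · simp only [ne_eq, hxy, not_false_eq_true, true_and]
    rw [Finset.sum_ite_eq]

theorem DYC_eB (col : Sym2 V → κ) (B : Finset κ) (X Y : Finset V) :
    ((eB col B X Y : ℕ) : ℝ) = ∑ x ∈ X, ∑ y ∈ Y, ∑ k ∈ B, MC col k x y := by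
  unfold eB
  rw [Finset.card_filter, Finset.sum_product]
  push_cast
  refine Finset.sum_congr rfl fun x _ => Finset.sum_congr rfl fun y _ => ?_
  rw [DYC_entry]

/-- The form for indicator functions. -/
theorem YC_ind (col : Sym2 V → κ) (C B : Finset κ) (X Y : Finset V) :
    qf (∑ k ∈ B, YC col C k) (fun x => if x ∈ X then 1 else 0)
      (fun x => if x ∈ Y then 1 else 0) =
      eB col B X Y - (B.card : ℝ) / C.card * eB col C X Y := by
  have h1 : ∀ x y, (∑ k ∈ B, YC col C k) x y = ∑ k ∈ B, MC col k x y -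
      (B.card : ℝ) / C.card * ∑ k ∈ C, MC col k x y := by
    intro x y
    rw [Matrix.sum_apply]
    unfold YC
    simp only [Matrix.sub_apply, Matrix.smul_apply, Matrix.sum_apply, smul_eq_mul]
    rw [Finset.sum_sub_distrib, Finset.sum_const, nsmul_eq_mul]
    ring
  have h2 : ∀ A : Matrix V V ℝ, qf A (fun x => if x ∈ X then 1 else 0)
      (fun x => if x ∈ Y then 1 else 0) = ∑ x ∈ X, ∑ y ∈ Y, A x y := by
    intro A
    unfold qf
    rw [← Finset.sum_filter_add_sum_filter_not univ (fun x => x ∈ X)]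
    have h3 : ∑ x ∈ univ.filter (fun x => x ∉ X), ∑ y, (if x ∈ X then (1 : ℝ) else 0) * A x y *
        (if y ∈ Y then 1 else 0) = 0 := by
      refine Finset.sum_eq_zero fun x hx => Finset.sum_eq_zero fun y _ => ?_
      rw [if_neg (Finset.mem_filter.1 hx).2, zero_mul, zero_mul]
    rw [h3, add_zero]
    have h4 : univ.filter (fun x => x ∈ X) = X := by
      ext x
      simp
    rw [h4]
    refine Finset.sum_congr rfl fun x hx => ?_
    rw [← Finset.sum_filter_add_sum_filter_not univ (fun y => y ∈ Y)]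
    have h5 : ∑ y ∈ univ.filter (fun y => y ∉ Y), (if x ∈ X then (1 : ℝ) else 0) * A x y *
        (if y ∈ Y then 1 else 0) = 0 := by
      refine Finset.sum_eq_zero fun y hy => ?_
      rw [if_neg (Finset.mem_filter.1 hy).2, mul_zero]
    have h6 : univ.filter (fun y => y ∈ Y) = Y := by
      ext y
      simp
    rw [h5, add_zero, h6]
    refine Finset.sum_congr rfl fun y hy => ?_
    simp only [if_pos hx, if_pos hy, one_mul, mul_one]
  rw [h2, DYC_eB, DYC_eB, Finset.mul_sum, ← Finset.sum_sub_distrib]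
  refine Finset.sum_congr rfl fun x _ => ?_
  rw [Finset.mul_sum, ← Finset.sum_sub_distrib]
  refine Finset.sum_congr rfl fun y _ => ?_
  rw [h1]

end Pool.Agent.W_cd7020_h81d
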